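import Pool.Agent.Helper57.KR.K1

/-!
# The test of the kernel inequality
-/

set_option autoImplicit false

namespace Pool.Agent.Helper57.KR

open Finset Filter Topology Pool.Agent.Helper65.RG

/-- sums over `Fin (n + 1)` of functions which vanish below `m` -/
lemma sum_fin_ge {f : ℕ → ℝ} {n m : ℕ} :
    ∑ i : Fin (n + 1), (if m ≤ (i : ℕ) then f i else 0) = ∑ i ∈ Ico m (n + 1), f i := by
  rw [Fin.sum_univ_eq_sum_range (fun i => if m ≤ i then f i else 0) (n + 1), ← sum_filter]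
  congr 1
  ext i
  rw [mem_filter, mem_range, mem_Ico]
  tauto

lemma sum_fin_lt {f : ℕ → ℝ} {n m : ℕ} (hm : m ≤ n + 1) :
    ∑ i : Fin (n + 1), (if (i : ℕ) < m then f i else 0) = ∑ i ∈ range m, f i := by
  rw [Fin.sum_univ_eq_sum_range (fun i => if i < m then f i else 0) (n + 1), ← sum_filter]
  congr 1
  ext i
  rw [mem_filter, mem_range, mem_range]
  omega

/-- the test -/
lemma test {c : ℝ} {n m : ℕ} {w : ℕ → ℝ} (hc : 0 ≤ c) (h : KP c n w) (hw : ∀ i, i ≤ n → 0 < w i)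
    (hm1 : 1 ≤ m) (hm : m ≤ n) {δ : ℝ} (hδ : 0 < δ) (hδ1 : δ ≤ 1) {q : ℝ} (hq : q = (1 + δ)⁻¹)
    {t : ℕ → ℝ} (ht : ∀ i, 0 ≤ t i) :
    (∑ i ∈ Ico m (n + 1), t i * (q ^ 2) ^ (i + 1)) ^ 2 * ∑ j ∈ range m, (w j ^ 2)⁻¹ ≤
      (c / δ) ^ 2 * ∑ i ∈ Ico m (n + 1), t i ^ 2 * (q ^ 2) ^ (i + 1) * (w i ^ 2)⁻¹ := by
  have hq0 : 0 < q := by rw [hq]; positivity
  have hq1 : q ≤ 1 := by rw [hq]; exact inv_le_one_of_one_le₀ (by linarith)
  set A := ∑ i ∈ Ico m (n + 1), t i * (q ^ 2) ^ (i + 1) with hA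
  set S := ∑ j ∈ range m, (w j ^ 2)⁻¹ with hS
  set D := ∑ i ∈ Ico m (n + 1), t i ^ 2 * (q ^ 2) ^ (i + 1) * (w i ^ 2)⁻¹ with hD
  have hA0 : 0 ≤ A := sum_nonneg fun i _ => mul_nonneg (ht i) (by positivity)
  have hD0 : 0 ≤ D := sum_nonneg fun i _ => by positivity
  have hSpos : 0 < S := by
    refine sum_pos (fun j hj => ?_) ⟨0, mem_range.2 (by omega)⟩
    have := hw j (by rw [mem_range] at hj; omega)
    positivity
  have h1 := h δ hδ hδ1 (fun j : Fin (n + 1) => if (j : ℕ) < m then (w j)⁻¹ else 0)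
    (fun i : Fin (n + 1) => if m ≤ (i : ℕ) then t i * q ^ ((i : ℕ) + 1) * (w i)⁻¹ else 0)
    (fun j => by
      split_ifs
      · have := hw j (by have := j.isLt; omega)
        positivity
      · exact le_rfl)
    (fun i => by
      split_ifs
      · have := hw i (by have := i.isLt; omega)
        have := ht i
        positivity
      · exact le_rfl)
  have e1 : ∑ j : Fin (n + 1), (if (j : ℕ) < m then (w j)⁻¹ else 0) ^ 2 = S := by
    have : ∀ j : Fin (n + 1), (if (j : ℕ) < m then (w j)⁻¹ else 0) ^ 2 =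
        if (j : ℕ) < m then (w j ^ 2)⁻¹ else 0 := by
      intro j
      split_ifs
      · rw [inv_pow]
      · ring
    simp only [this]
    exact sum_fin_lt (f := fun j => (w j ^ 2)⁻¹) (by omega)
  have e2 : ∑ i : Fin (n + 1), (if m ≤ (i : ℕ) then t i * q ^ ((i : ℕ) + 1) * (w i)⁻¹ else 0) ^ 2 =
      D := by
    have : ∀ i : Fin (n + 1), (if m ≤ (i : ℕ) then t i * q ^ ((i : ℕ) + 1) * (w i)⁻¹ else 0) ^ 2 =
        if m ≤ (i : ℕ) then t i ^ 2 * (q ^ 2) ^ ((i : ℕ) + 1) * (w i ^ 2)⁻¹ else 0 := by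
      intro i
      split_ifs
      · rw [mul_pow, mul_pow, inv_pow, ← pow_mul, ← pow_mul, mul_comm ((i : ℕ) + 1) 2]
      · ring
    simp only [this]
    exact sum_fin_ge (f := fun i => t i ^ 2 * (q ^ 2) ^ (i + 1) * (w i ^ 2)⁻¹)
  have e3 : A * S ≤ ∑ i : Fin (n + 1), ∑ j : Fin (n + 1), k1 δ i j * (w i / w j) *
      (if (j : ℕ) < m then (w j)⁻¹ else 0) *
      (if m ≤ (i : ℕ) then t i * q ^ ((i : ℕ) + 1) * (w i)⁻¹ else 0) := by
    have hAS : A * S = ∑ i : Fin (n + 1), ∑ j : Fin (n + 1),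
        (if m ≤ (i : ℕ) then t i * (q ^ 2) ^ ((i : ℕ) + 1) else 0) *
          (if (j : ℕ) < m then (w j ^ 2)⁻¹ else 0) := by
      rw [← sum_mul_sum, sum_fin_ge (f := fun i => t i * (q ^ 2) ^ (i + 1)),
        sum_fin_lt (f := fun j => (w j ^ 2)⁻¹) (by omega)]
    rw [hAS]
    refine sum_le_sum fun i _ => sum_le_sum fun j _ => ?_
    split_ifs with a b b
    · have hi := hw i (by have := i.isLt; omega)
      have hj := hw j (by have := j.isLt; omega)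
      have hti := ht i
      have ek : k1 δ i j = q ^ ((i : ℕ) - j + 1) := by
        unfold k1
        rw [if_pos (by omega), hq]
      rw [ek]
      have e5 : q ^ ((i : ℕ) - j + 1) * (w i / w j) * (w j)⁻¹ * (t i * q ^ ((i : ℕ) + 1) * (w i)⁻¹) =
          t i * (q ^ ((i : ℕ) - j + 1) * q ^ ((i : ℕ) + 1)) * (w j ^ 2)⁻¹ := by
        field_simp
      rw [e5]
      have e6 : (q ^ 2) ^ ((i : ℕ) + 1) ≤ q ^ ((i : ℕ) - j + 1) * q ^ ((i : ℕ) + 1) := by
        rw [← pow_add, ← pow_mul]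
        exact pow_le_pow_of_le_one hq0.le hq1 (by omega)
      gcongr
    · simp
    · simp
    · simp
  rw [e1, e2] at h1
  have h2 : A * S ≤ c / δ * (√S * √D) := e3.trans h1
  have h3 : A * √S ≤ c / δ * √D := by
    have hs : 0 < √S := Real.sqrt_pos.2 hSpos
    have : √S * (A * √S) ≤ √S * (c / δ * √D) := by
      calc √S * (A * √S) = A * (√S * √S) := by ring
        _ = A * S := by rw [Real.mul_self_sqrt hSpos.le]
        _ ≤ c / δ * (√S * √D) := h2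
        _ = _ := by ring
    exact le_of_mul_le_mul_left this hs
  calc A ^ 2 * S = (A * √S) ^ 2 := by rw [mul_pow, Real.sq_sqrt hSpos.le]
    _ ≤ (c / δ * √D) ^ 2 := by
        have : 0 ≤ A * √S := by positivity
        gcongr
    _ = (c / δ) ^ 2 * D := by rw [mul_pow, Real.sq_sqrt hD0]

/-- the lower bound for the moment sum -/
lemma moment {κ σ : ℝ} {n m : ℕ} (hκ : 0 < κ) (hκ1 : κ ≤ 1) (hm1 : 1 ≤ m)
    (hmn : ((m : ℝ) + 1) ≤ κ ^ 2 * ((n : ℝ) + 1)) (hσ1 : κ / ((m : ℝ) + 1) ≤ σ)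
    (hσ2 : σ ≤ κ / m) :
    1 - 8 * κ ≤ 4 * σ ^ 2 * ∑ i ∈ Ico m (n + 1), ((i : ℝ) + 1) * Real.exp (-(2 * σ)) ^ (i + 1) := by
  have hm0 : (0 : ℝ) < m := by exact_mod_cast hm1
  have hm1' : (1 : ℝ) ≤ m := by exact_mod_cast hm1
  have hσ0 : 0 < σ := lt_of_lt_of_le (by positivity) hσ1
  have hσκ : σ ≤ κ := hσ2.trans (by rw [div_le_iff₀ hm0]; nlinarith)
  set q : ℝ := Real.exp (-(2 * σ)) with hq
  have hq0 : 0 < q := Real.exp_pos _
  have hq1 : q < 1 := by rw [hq, Real.exp_lt_one_iff]; linarith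
  have hq2 : 1 - 2 * σ ≤ q := by
    have := Real.add_one_le_exp (-(2 * σ))
    linarith
  -- closed form
  have hcl : (1 - q) ^ 2 * ∑ k ∈ range (n + 1), ((k : ℝ) + 1) * q ^ (k + 1) =
      q - q ^ (n + 2) * (1 + ((n : ℝ) + 1) * (1 - q)) := by
    have h : ∀ K : ℕ, (1 - q) ^ 2 * ∑ k ∈ range K, ((k : ℝ) + 1) * q ^ (k + 1) =
        q - q ^ (K + 1) * (1 + (K : ℝ) * (1 - q)) := by
      intro K
      induction K with
      | zero => simp
      | succ K ih =>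
        rw [sum_range_succ, mul_add, ih]
        push_cast
        ring
    have := h (n + 1)
    push_cast at this
    exact this
  set y : ℝ := 2 * σ * ((n : ℝ) + 1) with hy
  have hylow : 2 / κ ≤ y := by
    have h1 : κ / ((m : ℝ) + 1) * ((n : ℝ) + 1) ≤ σ * ((n : ℝ) + 1) := by gcongr
    have h2 : 1 / κ ≤ κ / ((m : ℝ) + 1) * ((n : ℝ) + 1) := by
      rw [div_mul_eq_mul_div, div_le_div_iff₀ hκ (by positivity)]
      nlinarith
    calc 2 / κ = 2 * (1 / κ) := by ring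
      _ ≤ 2 * (σ * ((n : ℝ) + 1)) := by linarith
      _ = y := by rw [hy]; ring
  have hy0 : 0 < y := lt_of_lt_of_le (by positivity) hylow
  have hqn : q ^ (n + 2) ≤ Real.exp (-y) := by
    have : q ^ (n + 2) ≤ q ^ (n + 1) := pow_le_pow_of_le_one hq0.le hq1.le (by omega)
    refine this.trans (le_of_eq ?_)
    rw [hq, ← Real.exp_nat_mul, hy]
    congr 1
    push_cast
    ring
  have h1q : 1 - q ≤ 2 * σ := by linarith
  have htail : q ^ (n + 2) * (1 + ((n : ℝ) + 1) * (1 - q)) ≤ 2 * κ := by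
    have h2 : (1 + ((n : ℝ) + 1) * (1 - q)) ≤ 1 + y := by
      rw [hy]
      have : ((n : ℝ) + 1) * (1 - q) ≤ ((n : ℝ) + 1) * (2 * σ) := by gcongr
      linarith
    have h3 : 0 ≤ 1 + ((n : ℝ) + 1) * (1 - q) := by
      have : 0 ≤ 1 - q := by linarith
      positivity
    have h4 : Real.exp (-y) * (1 + y) ≤ 4 / y := by
      rw [Real.exp_neg, inv_mul_le_iff₀ (Real.exp_pos _)]
      have h5 : 1 + y + y ^ 2 / 2 ≤ Real.exp y := Real.quadratic_le_exp_of_nonneg hy0.le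
      have h6 : (1 + y + y ^ 2 / 2) * (4 / y) ≤ Real.exp y * (4 / y) := by gcongr
      have h7 : (1 + y + y ^ 2 / 2) * (4 / y) = 4 / y + 4 + 2 * y := by
        field_simp
        ring
      have h8 : 0 < 4 / y := by positivity
      linarith
    have h5 : 4 / y ≤ 2 * κ := by
      rw [div_le_iff₀ hy0]
      have : 2 * κ * (2 / κ) ≤ 2 * κ * y := by gcongr
      have e : 2 * κ * (2 / κ) = 4 := by field_simp; norm_num
      linarith
    calc q ^ (n + 2) * (1 + ((n : ℝ) + 1) * (1 - q)) ≤ Real.exp (-y) * (1 + y) := by gcongr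
      _ ≤ 4 / y := h4
      _ ≤ 2 * κ := h5
  -- the first `m` terms
  have hhead : ∑ k ∈ range m, ((k : ℝ) + 1) * q ^ (k + 1) ≤ (m : ℝ) ^ 2 := by
    calc ∑ k ∈ range m, ((k : ℝ) + 1) * q ^ (k + 1) ≤ ∑ _k ∈ range m, (m : ℝ) := by
          refine sum_le_sum fun k hk => ?_
          rw [mem_range] at hk
          have h2 : q ^ (k + 1) ≤ 1 := pow_le_one₀ hq0.le hq1.le
          have h3 : ((k : ℝ) + 1) ≤ m := by exact_mod_cast hk
          have h4 : 0 ≤ (k : ℝ) + 1 := by positivity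
          calc ((k : ℝ) + 1) * q ^ (k + 1) ≤ ((k : ℝ) + 1) * 1 := by gcongr
            _ ≤ m := by linarith
      _ = (m : ℝ) ^ 2 := by
          rw [sum_const, card_range, nsmul_eq_mul]
          ring
  have hmn' : m ≤ n + 1 := by
    have h2 : κ ^ 2 ≤ 1 := pow_le_one₀ hκ.le hκ1
    have h3 : (m : ℝ) + 1 ≤ (n : ℝ) + 1 := by nlinarith [Nat.cast_nonneg (α := ℝ) n]
    have h4 : (m : ℝ) ≤ n := by linarith
    have : m ≤ n := by exact_mod_cast h4
    omega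
  have hsplit : ∑ i ∈ Ico m (n + 1), ((i : ℝ) + 1) * q ^ (i + 1) =
      ∑ k ∈ range (n + 1), ((k : ℝ) + 1) * q ^ (k + 1) - ∑ k ∈ range m, ((k : ℝ) + 1) * q ^ (k + 1) :=
    sum_Ico_eq_sub _ hmn'
  rw [hsplit]
  set X := ∑ k ∈ range (n + 1), ((k : ℝ) + 1) * q ^ (k + 1) with hX
  have hXlow : 1 - 4 * κ ≤ 4 * σ ^ 2 * X := by
    have h2 : (1 - q) ^ 2 ≤ 4 * σ ^ 2 := by
      have : 0 ≤ 1 - q := by linarith
      nlinarith
    have hX0 : 0 ≤ X := sum_nonneg fun k _ => by positivity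
    have h3 : (1 - q) ^ 2 * X ≤ 4 * σ ^ 2 * X := by gcongr
    rw [hcl] at h3
    linarith
  have hhead2 : 4 * σ ^ 2 * ∑ k ∈ range m, ((k : ℝ) + 1) * q ^ (k + 1) ≤ 4 * κ := by
    have h2 : σ * m ≤ κ := by
      rw [le_div_iff₀ hm0] at hσ2
      exact hσ2
    calc 4 * σ ^ 2 * ∑ k ∈ range m, ((k : ℝ) + 1) * q ^ (k + 1) ≤ 4 * σ ^ 2 * (m : ℝ) ^ 2 := by gcongr
      _ = 4 * (σ * m) ^ 2 := by ring
      _ ≤ 4 * κ ^ 2 := by gcongr
      _ ≤ 4 * κ := by nlinarith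
  nlinarith

end Pool.Agent.Helper57.KR
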