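import Mathlib
import Pool.Agent.Helper65.RG7

/-!
# Direct sums of nilpotent weighted shifts with arbitrary weights (adapted from RG6, RG7 of helper65)
-/

set_option autoImplicit false

open scoped BigOperators ENNReal
open Finset Matrix

namespace Pool.Agent.Helper57.KR

open Pool.Agent.Helper65.RG

universe u

/-- The weighted nilpotent shift of size `N+1`. -/
noncomputable def Tg (W : ℕ → ℕ → ℝ) (N : ℕ) : Matrix (Fin (N + 1)) (Fin (N + 1)) ℂ :=
  fun i j => if (i : ℕ) = j + 1 then ((W N i / W N j : ℝ) : ℂ) else 0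

/-- The resolvent of the weighted nilpotent shift. -/
noncomputable def Rg (W : ℕ → ℕ → ℝ) (N : ℕ) (z : ℂ) : Matrix (Fin (N + 1)) (Fin (N + 1)) ℂ :=
  fun i j => if (j : ℕ) ≤ i then (z⁻¹) ^ ((i : ℕ) - j + 1) * ((W N i / W N j : ℝ) : ℂ) else 0

lemma Tg_mul_apply_zero (W : ℕ → ℕ → ℝ) (N : ℕ) (M : Matrix (Fin (N + 1)) (Fin (N + 1)) ℂ)
    (i j : Fin (N + 1)) (hi : (i : ℕ) = 0) : (Tg W N * M) i j = 0 := by
  rw [Matrix.mul_apply]
  apply sum_eq_zero
  intro k _
  unfold Tg
  rw [if_neg (by omega), zero_mul]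

lemma Tg_mul_apply_succ (W : ℕ → ℕ → ℝ) (N : ℕ) (M : Matrix (Fin (N + 1)) (Fin (N + 1)) ℂ)
    (i i' j : Fin (N + 1)) (hi : (i : ℕ) = i' + 1) :
    (Tg W N * M) i j = ((W N i / W N i' : ℝ) : ℂ) * M i' j := by
  rw [Matrix.mul_apply, sum_eq_single i']
  · unfold Tg
    rw [if_pos hi]
  · intro k _ hk
    unfold Tg
    rw [if_neg, zero_mul]
    intro h
    apply hk
    apply Fin.ext
    omega
  · intro h; exact absurd (mem_univ _) h

lemma resolvent_mulg {W : ℕ → ℕ → ℝ} (hW : ∀ N i, 0 < W N i) (N : ℕ) {z : ℂ} (hz : z ≠ 0) :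
    (z • (1 : Matrix (Fin (N + 1)) (Fin (N + 1)) ℂ) - Tg W N) * Rg W N z = 1 := by
  ext i j
  rw [sub_mul, smul_mul_assoc, one_mul, Matrix.sub_apply, Matrix.smul_apply]
  by_cases hi : (i : ℕ) = 0
  · rw [Tg_mul_apply_zero _ _ _ _ _ hi]
    unfold Rg
    by_cases hij : i = j
    · subst hij
      have hw := (hW N i).ne'
      rw [if_pos le_rfl, Matrix.one_apply_eq, div_self hw]
      simp [hz]
    · have : ¬ (j : ℕ) ≤ i := by
        intro h
        apply hij
        apply Fin.ext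
        omega
      rw [if_neg this, Matrix.one_apply_ne hij]
      simp
  · obtain ⟨i', hi'⟩ : ∃ i' : Fin (N + 1), (i : ℕ) = i' + 1 := by
      have := i.isLt
      exact ⟨⟨i - 1, by omega⟩, by simp only; omega⟩
    rw [Tg_mul_apply_succ _ _ _ _ _ _ hi']
    have hwi := (hW N i).ne'
    have hwi' := (hW N i').ne'
    have hwj := (hW N j).ne'
    unfold Rg
    by_cases hij : i = j
    · subst hij
      rw [if_pos le_rfl, Matrix.one_apply_eq, if_neg (by omega), div_self hwi]
      simp [hz]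
    · rw [Matrix.one_apply_ne hij]
      by_cases hle : (j : ℕ) ≤ i
      · have hne : (i : ℕ) ≠ j := fun h => hij (Fin.ext h)
        have hle' : (j : ℕ) ≤ i' := by omega
        rw [if_pos hle, if_pos hle']
        have e : (i : ℕ) - j + 1 = ((i' : ℕ) - j + 1) + 1 := by omega
        rw [e, pow_succ (z⁻¹) ((i' : ℕ) - j + 1), smul_eq_mul]
        have e2 : ((W N i / W N i' : ℝ) : ℂ) * ((z⁻¹) ^ ((i' : ℕ) - j + 1) *
            ((W N i' / W N j : ℝ) : ℂ)) =
            (z⁻¹) ^ ((i' : ℕ) - j + 1) * ((W N i / W N j : ℝ) : ℂ) := by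
          have : (W N i / W N j) = (W N i / W N i') * (W N i' / W N j) := by
            field_simp
          rw [this]; push_cast; ring
        rw [e2]
        have e3 : z * (z⁻¹ ^ ((i' : ℕ) - j + 1) * z⁻¹ * ((W N i / W N j : ℝ) : ℂ))
            = (z * z⁻¹) * (z⁻¹ ^ ((i' : ℕ) - j + 1) * ((W N i / W N j : ℝ) : ℂ)) := by ring
        rw [e3, mul_inv_cancel₀ hz, one_mul, sub_self]
      · rw [if_neg hle, if_neg (by omega)]
        simp

lemma Tg_pow {W : ℕ → ℕ → ℝ} (hW : ∀ N i, 0 < W N i) (N k : ℕ) (i j : Fin (N + 1)) :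
    (Tg W N ^ k) i j =
      if (i : ℕ) = j + k then ((W N i / W N j : ℝ) : ℂ) else 0 := by
  induction k generalizing i j with
  | zero =>
    rw [pow_zero]
    by_cases hij : i = j
    · subst hij
      rw [Matrix.one_apply_eq, if_pos (by simp), div_self (hW N i).ne']
      simp
    · rw [Matrix.one_apply_ne hij, if_neg]
      intro h
      exact hij (Fin.ext (by omega))
  | succ k ih =>
    rw [pow_succ']
    by_cases hi : (i : ℕ) = 0
    · rw [Tg_mul_apply_zero _ _ _ _ _ hi, if_neg (by omega)]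
    · obtain ⟨i', hi'⟩ : ∃ i' : Fin (N + 1), (i : ℕ) = i' + 1 := by
        have := i.isLt
        exact ⟨⟨i - 1, by omega⟩, by simp only; omega⟩
      rw [Tg_mul_apply_succ _ _ _ _ _ _ hi', ih]
      have hwi' := (hW N i').ne'
      have hwj := (hW N j).ne'
      by_cases h : (i : ℕ) = j + (k + 1)
      · rw [if_pos h, if_pos (by omega)]
        have : (W N i / W N j) = (W N i / W N i') * (W N i' / W N j) := by
          field_simp
        rw [this]; push_cast; ring
      · rw [if_neg h, if_neg (by omega), mul_zero]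


/-- the direct sum of the blocks with the weights `W` -/
lemma exists_operatorg {W : ℕ → ℕ → ℝ} (hW : ∀ N i, 0 < W N i) {C : ℝ} (hC : 0 ≤ C)
    (hK : ∀ δ : ℝ, 0 < δ → δ ≤ 1 → ∀ N : ℕ,
      KB (fun i j : Fin (N + 1) => k1 δ i j * (W N i / W N j)) (C * δ⁻¹)) :
    ∃ T : HS.{u} →L[ℂ] HS.{u}, spectrum ℂ T ⊆ Metric.closedBall 0 1 ∧
      (∀ z : ℂ, 1 < ‖z‖ → ‖z‖ ≤ 2 → ‖resolvent T z‖ ≤ C / (‖z‖ - 1)) ∧
      ∀ n : ℕ, W n n / W n 0 ≤ ‖T ^ n‖ := by
  -- blocks of `T`
  have hTN : ∀ N : ℕ, ‖toEuclideanCLM (n := Fin (N + 1)) (𝕜 := ℂ) (Tg W N)‖ ≤ 4 * C := by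
    intro N
    have h1 := (hK 1 one_pos le_rfl N).smul (c := 4) (by norm_num)
    rw [inv_one, mul_one] at h1
    refine norm_clm_le (by positivity) h1 ?_
    intro i j
    have hk1 := k1_nonneg (δ := 1) one_pos i j
    have hw1 := hW N i
    have hw2 := hW N j
    unfold Tg
    split_ifs with h
    · rw [Complex.norm_real, Real.norm_of_nonneg (by positivity)]
      have : k1 1 (i : ℕ) j = 1 / 4 := by
        unfold k1
        rw [if_pos (by omega), h]
        have : (j : ℕ) + 1 - j + 1 = 2 := by omega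
        rw [this]; norm_num
      rw [this]
      linarith
    · rw [norm_zero]; positivity
  set T : HS.{u} →L[ℂ] HS.{u} := lp.mapCLM 2
    (fun i : ULift.{u} ℕ => (toEuclideanCLM (n := Fin (i.down + 1)) (𝕜 := ℂ) (Tg W i.down)))
    (by positivity) (fun i => hTN i.down) with hT
  have hTapp : ∀ (x : HS.{u}) (i : ULift.{u} ℕ),
      (T x) i = toEuclideanCLM (n := Fin (i.down + 1)) (𝕜 := ℂ) (Tg W i.down) (x i) := by
    intro x i; rfl
  have hTpow : ∀ (n : ℕ) (x : HS.{u}) (i : ULift.{u} ℕ),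
      ((T ^ n) x) i = toEuclideanCLM (n := Fin (i.down + 1)) (𝕜 := ℂ) (Tg W i.down ^ n) (x i) := by
    intro n
    induction n with
    | zero => intro x i; rw [pow_zero, pow_zero, map_one]; rfl
    | succ n ih =>
      intro x i
      rw [pow_succ', pow_succ', map_mul, mul_apply_eq_comp,
        mul_apply_eq_comp, hTapp, ih]
  -- the inverse of `z - T`
  have hinv : ∀ z : ℂ, 1 < ‖z‖ → ∃ R : HS.{u} →L[ℂ] HS.{u},
      ‖R‖ ≤ C * (min (‖z‖ - 1) 1)⁻¹ ∧
      (algebraMap ℂ (HS.{u} →L[ℂ] HS.{u}) z - T) * R = 1 ∧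
      R * (algebraMap ℂ (HS.{u} →L[ℂ] HS.{u}) z - T) = 1 := by
    intro z hz
    have hz0 : z ≠ 0 := by
      rintro rfl
      simp at hz
      linarith
    set δ := min (‖z‖ - 1) 1 with hδ_def
    have hδ : 0 < δ := lt_min (by linarith) one_pos
    have hδ1 : δ ≤ 1 := min_le_right _ _
    have hδz : 1 + δ ≤ ‖z‖ := by have := min_le_left (‖z‖ - 1) 1; linarith
    have hRN : ∀ N : ℕ, ‖toEuclideanCLM (n := Fin (N + 1)) (𝕜 := ℂ) (Rg W N z)‖ ≤
        C * δ⁻¹ := by
      intro N
      refine norm_clm_le (by positivity) (hK δ hδ hδ1 N) ?_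
      intro i j
      have hw1 := hW N i
      have hw2 := hW N j
      unfold Rg k1
      split_ifs with h
      · rw [norm_mul, norm_pow, norm_inv, Complex.norm_real, Real.norm_of_nonneg (by positivity)]
        apply mul_le_mul_of_nonneg_right _ (by positivity)
        apply pow_le_pow_left₀ (by positivity)
        exact inv_anti₀ (by positivity) hδz
      · simp
    set R : HS.{u} →L[ℂ] HS.{u} := lp.mapCLM 2
      (fun i : ULift.{u} ℕ => (toEuclideanCLM (n := Fin (i.down + 1)) (𝕜 := ℂ) (Rg W i.down z)))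
      (by positivity) (fun i => hRN i.down) with hR
    have hRapp : ∀ (x : HS.{u}) (i : ULift.{u} ℕ),
        (R x) i = toEuclideanCLM (n := Fin (i.down + 1)) (𝕜 := ℂ) (Rg W i.down z) (x i) := by
      intro x i; rfl
    have hzapp : ∀ (x : HS.{u}) (i : ULift.{u} ℕ),
        ((algebraMap ℂ (HS.{u} →L[ℂ] HS.{u}) z - T) x) i
        = toEuclideanCLM (n := Fin (i.down + 1)) (𝕜 := ℂ) (z • 1 - Tg W i.down) (x i) := by
      intro x i
      rw [map_sub, map_smul, map_one, _root_.sub_apply, Algebra.algebraMap_eq_smul_one]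
      rfl
    refine ⟨R, lp.norm_mapCLM_le _ _ _ _, ?_, ?_⟩
    · ext1 x
      apply lp.ext
      funext i
      rw [mul_apply_eq_comp, hzapp, hRapp, ← mul_apply_eq_comp, ← map_mul,
        resolvent_mulg hW _ hz0, map_one]
      rfl
    · ext1 x
      apply lp.ext
      funext i
      rw [mul_apply_eq_comp, hRapp, hzapp, ← mul_apply_eq_comp, ← map_mul,
        mul_eq_one_comm.mp (resolvent_mulg hW _ hz0), map_one]
      rfl
  refine ⟨T, ?_, ?_, ?_⟩
  · intro z hz
    rw [mem_closedBall_zero_iff]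
    by_contra hlt
    push Not at hlt
    obtain ⟨R, _, h1, h2⟩ := hinv z hlt
    exact hz (isUnit_iff_exists.mpr ⟨R, h1, h2⟩)
  · intro z hz hz2
    obtain ⟨R, hR, h1, h2⟩ := hinv z hz
    have hres : resolvent T z = R := by
      unfold resolvent
      exact Ring.inverse_unit (⟨_, R, h1, h2⟩ : (HS.{u} →L[ℂ] HS.{u})ˣ)
    rw [hres]
    have hmin : min (‖z‖ - 1) 1 = ‖z‖ - 1 := min_eq_left (by linarith)
    rw [hmin] at hR
    have hpos : 0 < ‖z‖ - 1 := by linarith
    rw [div_eq_mul_inv]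
    exact hR
  · intro n
    have h1 : ‖toEuclideanCLM (n := Fin (n + 1)) (𝕜 := ℂ) (Tg W n ^ n)‖ ≤ ‖T ^ n‖ := by
      apply ContinuousLinearMap.opNorm_le_bound _ (norm_nonneg _)
      intro x
      set X : HS.{u} := lp.single 2 (ULift.up n) x with hX
      have hXn : ‖X‖ = ‖x‖ := lp.norm_single (by norm_num) _ _
      have h2 : ((T ^ n) X) (ULift.up n)
          = toEuclideanCLM (n := Fin (n + 1)) (𝕜 := ℂ) (Tg W n ^ n) x := by
        rw [hTpow]
        congr 1
        rw [hX]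
        exact lp.single_apply_self _ _ _
      rw [← h2, ← hXn]
      exact le_trans (lp.norm_apply_le_norm (by norm_num) _ _) ((T ^ n).le_opNorm X)
    refine le_trans ?_ h1
    refine le_trans ?_ (entry_le_norm (Tg W n ^ n) (Fin.last n) 0)
    rw [Tg_pow hW, if_pos (by simp)]
    rw [Complex.norm_real]
    simp only [Fin.val_last, Fin.val_zero]
    exact le_abs_self _

end Pool.Agent.Helper57.KR
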