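import Pool.Agent.Helper57.KR.K5

/-!
# The sharp kernel estimates
-/

set_option autoImplicit false

open scoped BigOperators
open Finset

namespace Pool.Agent.Helper57.KR

open Pool.Agent.Helper65.RG

/-- the sharp one-sided kernel estimate -/
lemma kbS {φ : ℕ → ℝ} {B δ θ : ℝ} {N : ℕ} (hφ : ∀ i, 0 < φ i) (hθ0 : 0 < θ) (hθ1 : θ < 1)
    (hd : ∀ l : ℝ, 1 ≤ l → ∀ i j : ℕ, (i : ℝ) + 1 ≤ l * ((j : ℝ) + 1) → φ i ≤ l * φ j)
    (hB0 : 0 ≤ B)
    (hB : ∀ i, i ≤ N → φ i ^ 2 * ∑ j ∈ range (i + 1), (φ j ^ 2)⁻¹ ≤ B * ((i : ℝ) + 1))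
    (hδ : 0 < δ) :
    KB (fun i j : Fin (N + 1) => k1 δ i j * (φ i / φ j))
      (1 / θ * δ⁻¹ + √B / (2 * ((1 - θ) * Real.log (1 + δ)))) := by
  have hθi : 1 ≤ 1 / θ := by rw [le_div_iff₀ hθ0]; linarith
  have h1 : KB (fun i j : Fin (N + 1) =>
      if θ * (((i : ℕ) : ℝ) + 1) ≤ ((j : ℕ) : ℝ) + 1 then k1 δ i j * (φ i / φ j) else 0)
      (1 / θ * δ⁻¹) := by
    refine ((kb1 hδ N).smul (c := 1 / θ) (by positivity)).mono ?_ le_rfl
    intro i j
    have hk := k1_nonneg hδ (i : ℕ) j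
    split_ifs with h
    · have h2 : φ i / φ j ≤ 1 / θ := by
        rw [div_le_iff₀ (hφ _)]
        apply hd _ hθi
        rw [div_mul_eq_mul_div, le_div_iff₀ hθ0]
        linarith
      calc k1 δ i j * (φ i / φ j) ≤ k1 δ i j * (1 / θ) := mul_le_mul_of_nonneg_left h2 hk
        _ = 1 / θ * k1 δ i j := by ring
    · positivity
  set σ : ℝ := Real.log (1 + δ) with hσ
  have hσ0 : 0 < σ := Real.log_pos (by linarith)
  set τ : ℝ := (1 - θ) * σ with hτ
  have hτ0 : 0 < τ := mul_pos (by linarith) hσ0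
  have h2 : KB (fun i j : Fin (N + 1) =>
      if θ * (((i : ℕ) : ℝ) + 1) ≤ ((j : ℕ) : ℝ) + 1 then 0 else k1 δ i j * (φ i / φ j))
      (√B / (2 * τ)) := by
    refine kb_hs (by positivity) (fun i j => le_rfl) ?_
    set Q : ℝ := Real.exp (-(2 * τ)) with hQ
    have hQ0 : 0 < Q := Real.exp_pos _
    have hQ1 : Q < 1 := by rw [hQ, Real.exp_lt_one_iff]; linarith
    have hqe : (1 + δ)⁻¹ = Real.exp (-σ) := by
      rw [Real.exp_neg, hσ, Real.exp_log (by linarith)]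
    have hterm : ∀ i j : Fin (N + 1),
        (if θ * (((i : ℕ) : ℝ) + 1) ≤ ((j : ℕ) : ℝ) + 1 then 0 else k1 δ i j * (φ i / φ j)) ^ 2 ≤
        if (j : ℕ) ≤ i then Q ^ ((i : ℕ) + 1) * φ i ^ 2 * (φ j ^ 2)⁻¹ else 0 := by
      intro i j
      have p1 := hφ i
      have p2 := hφ j
      by_cases hij : (j : ℕ) ≤ i
      · rw [if_pos hij]
        split_ifs with h
        · rw [zero_pow two_ne_zero]
          positivity
        · have e : (k1 δ i j * (φ i / φ j)) ^ 2 =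
              Real.exp (-σ) ^ (((i : ℕ) - j + 1) * 2) * (φ i ^ 2 * (φ j ^ 2)⁻¹) := by
            unfold k1
            rw [if_pos hij, mul_pow, ← pow_mul, div_pow, div_eq_mul_inv, hqe]
          have e2 : Real.exp (-σ) ^ (((i : ℕ) - j + 1) * 2) ≤ Q ^ ((i : ℕ) + 1) := by
            rw [hQ, ← Real.exp_nat_mul, ← Real.exp_nat_mul]
            apply Real.exp_le_exp.2
            push_cast [Nat.cast_sub hij]
            push Not at h
            rw [hτ]
            nlinarith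
          rw [e, mul_assoc]
          exact mul_le_mul_of_nonneg_right e2 (by positivity)
      · rw [if_neg hij]
        have : k1 δ i j = 0 := by
          unfold k1
          rw [if_neg hij]
        rw [this]
        simp
    calc ∑ i : Fin (N + 1), ∑ j : Fin (N + 1),
          (if θ * (((i : ℕ) : ℝ) + 1) ≤ ((j : ℕ) : ℝ) + 1 then 0 else k1 δ i j * (φ i / φ j)) ^ 2
        ≤ ∑ i : Fin (N + 1), ∑ j : Fin (N + 1),
          (if (j : ℕ) ≤ i then Q ^ ((i : ℕ) + 1) * φ i ^ 2 * (φ j ^ 2)⁻¹ else 0) :=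
          sum_le_sum fun i _ => sum_le_sum fun j _ => hterm i j
      _ ≤ ∑ i : Fin (N + 1), B * (Q ^ ((i : ℕ) + 1) * (((i : ℕ) : ℝ) + 1)) := by
          refine sum_le_sum fun i _ => ?_
          have hi : (i : ℕ) ≤ N := by have := i.isLt; omega
          rw [sum_fin_le (f := fun j => Q ^ ((i : ℕ) + 1) * φ i ^ 2 * (φ j ^ 2)⁻¹) hi, ← mul_sum]
          have := mul_le_mul_of_nonneg_left (hB i hi) (pow_pos hQ0 ((i : ℕ) + 1)).le
          calc Q ^ ((i : ℕ) + 1) * φ i ^ 2 * ∑ j ∈ range ((i : ℕ) + 1), (φ j ^ 2)⁻¹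
              = Q ^ ((i : ℕ) + 1) * (φ i ^ 2 * ∑ j ∈ range ((i : ℕ) + 1), (φ j ^ 2)⁻¹) := by ring
            _ ≤ Q ^ ((i : ℕ) + 1) * (B * (((i : ℕ) : ℝ) + 1)) := this
            _ = _ := by ring
      _ = B * ∑ k ∈ range (N + 1), Q ^ (k + 1) * ((k : ℝ) + 1) := by
          rw [← mul_sum, Fin.sum_univ_eq_sum_range (fun k => Q ^ (k + 1) * ((k : ℝ) + 1)) (N + 1)]
      _ ≤ B * (1 / (2 * τ) ^ 2) := by
          apply mul_le_mul_of_nonneg_left _ hB0
          have h3 := arith_geom hQ0.le hQ1.le (N + 1)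
          set X := ∑ k ∈ range (N + 1), Q ^ (k + 1) * ((k : ℝ) + 1) with hX
          have hX0 : 0 ≤ X := sum_nonneg fun k _ => by positivity
          have h4 : (2 * τ) ^ 2 * Q ≤ (1 - Q) ^ 2 := by
            have hsinh : τ ≤ Real.sinh τ := Real.self_le_sinh_iff.2 hτ0.le
            have e1 : 1 - Q = 2 * Real.exp (-τ) * Real.sinh τ := by
              rw [Real.sinh_eq, hQ]
              have e3 : Real.exp (-τ) * Real.exp τ = 1 := by rw [← Real.exp_add]; simp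
              have e4 : Real.exp (-τ) * Real.exp (-τ) = Real.exp (-(2 * τ)) := by
                rw [← Real.exp_add]; congr 1; ring
              rw [← e4]
              linear_combination (-1 : ℝ) * e3
            have e2 : Q = Real.exp (-τ) ^ 2 := by
              rw [hQ, ← Real.exp_nat_mul]; congr 1; push_cast; ring
            rw [e1, e2]
            calc (2 * τ) ^ 2 * Real.exp (-τ) ^ 2 = (2 * Real.exp (-τ) * τ) ^ 2 := by ring
              _ ≤ (2 * Real.exp (-τ) * Real.sinh τ) ^ 2 := by gcongr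
          have h5 : (2 * τ) ^ 2 * X ≤ 1 := by
            have : Q * ((2 * τ) ^ 2 * X) ≤ Q * 1 := by
              calc Q * ((2 * τ) ^ 2 * X) = ((2 * τ) ^ 2 * Q) * X := by ring
                _ ≤ (1 - Q) ^ 2 * X := by gcongr
                _ ≤ Q := h3
                _ = Q * 1 := by ring
            exact le_of_mul_le_mul_left this hQ0
          rw [le_div_iff₀ (by positivity)]
          linarith
      _ = (√B / (2 * τ)) ^ 2 := by
          rw [div_pow, Real.sq_sqrt hB0]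
          ring
  have h3 := (h1.add h2).mono (K := fun i j : Fin (N + 1) => k1 δ i j * (φ i / φ j))
    (D := 1 / θ * δ⁻¹ + √B / (2 * τ)) ?_ le_rfl
  · exact h3
  · intro i j
    split_ifs <;> simp

/-- block diagonal kernels -/
lemma kb_block {ι : Type*} [Fintype ι] {K1 K2 : ι → ι → ℝ} {κ : ℝ} (h1 : KB K1 κ) (h2 : KB K2 κ)
    (hκ : 0 ≤ κ) (p : ι → Prop) [DecidablePred p] :
    KB (fun i j => if p i ∧ p j then K1 i j else if ¬ p i ∧ ¬ p j then K2 i j else 0) κ := by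
  intro x y hx hy
  have a1 := h1 (fun i => if p i then x i else 0) (fun i => if p i then y i else 0)
    (fun i => by split_ifs; exacts [hx i, le_rfl]) (fun i => by split_ifs; exacts [hy i, le_rfl])
  have a2 := h2 (fun i => if p i then 0 else x i) (fun i => if p i then 0 else y i)
    (fun i => by split_ifs; exacts [le_rfl, hx i]) (fun i => by split_ifs; exacts [le_rfl, hy i])
  have hsq : ∀ z : ι → ℝ, ∑ i, z i ^ 2 = ∑ i, (if p i then z i else 0) ^ 2 +
      ∑ i, (if p i then 0 else z i) ^ 2 := by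
    intro z
    rw [← sum_add_distrib]
    refine sum_congr rfl fun i _ => ?_
    split_ifs <;> ring
  have e : ∑ i, ∑ j, (if p i ∧ p j then K1 i j else if ¬ p i ∧ ¬ p j then K2 i j else 0) *
      x j * y i = ∑ i, ∑ j, K1 i j * (if p j then x j else 0) * (if p i then y i else 0) +
      ∑ i, ∑ j, K2 i j * (if p j then 0 else x j) * (if p i then 0 else y i) := by
    rw [← sum_add_distrib]
    refine sum_congr rfl fun i _ => ?_
    rw [← sum_add_distrib]
    refine sum_congr rfl fun j _ => ?_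
    by_cases hi : p i <;> by_cases hj : p j <;> simp [hi, hj]
  rw [e, hsq x, hsq y]
  set A := ∑ i, (if p i then x i else 0) ^ 2
  set B := ∑ i, (if p i then y i else 0) ^ 2
  set A' := ∑ i, (if p i then 0 else x i) ^ 2
  set B' := ∑ i, (if p i then 0 else y i) ^ 2
  have hA : 0 ≤ A := sum_nonneg fun i _ => sq_nonneg _
  have hB : 0 ≤ B := sum_nonneg fun i _ => sq_nonneg _
  have hA' : 0 ≤ A' := sum_nonneg fun i _ => sq_nonneg _
  have hB' : 0 ≤ B' := sum_nonneg fun i _ => sq_nonneg _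
  have hcs : √A * √B + √A' * √B' ≤ √(A + A') * √(B + B') := by
    rw [← Real.sqrt_mul (show 0 ≤ A + A' by positivity) (B + B')]
    apply Real.le_sqrt_of_sq_le
    have q1 := Real.sq_sqrt hA
    have q2 := Real.sq_sqrt hB
    have q3 := Real.sq_sqrt hA'
    have q4 := Real.sq_sqrt hB'
    set a := √A
    set b := √B
    set a' := √A'
    set b' := √B'
    rw [← q1, ← q2, ← q3, ← q4]
    nlinarith [sq_nonneg (a * b' - a' * b)]
  calc _ ≤ κ * (√A * √B) + κ * (√A' * √B') := add_le_add a1 a2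
    _ = κ * (√A * √B + √A' * √B') := by ring
    _ ≤ _ := mul_le_mul_of_nonneg_left hcs hκ

lemma quad_geom {δ : ℝ} (hδ : 0 < δ) (hδ1 : δ ≤ 1) (K : ℕ) :
    ∑ k ∈ range K, ((k : ℝ) + 1) ^ 2 * ((1 + δ)⁻¹) ^ (k + 1) ≤ 8 / δ ^ 3 := by
  set q : ℝ := (1 + δ)⁻¹ with hq
  have hq0 : 0 < q := by positivity
  have hq1 : q ≤ 1 := inv_le_one_of_one_le₀ (by linarith)
  have hq2 : 1 / 2 ≤ q := by
    rw [hq, one_div]
    exact inv_anti₀ (by positivity) (by linarith)
  have e : 1 - q = δ * q := by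
    rw [hq]
    field_simp
    ring
  set A := ∑ k ∈ range K, ((k : ℝ) + 1) ^ 2 * q ^ (k + 1) with hA
  set X := ∑ k ∈ range K, q ^ (k + 1) * ((k : ℝ) + 1) with hX
  have hA0 : 0 ≤ A := sum_nonneg fun k _ => by positivity
  have h1 : ∀ K : ℕ, (1 - q) * ∑ k ∈ range K, ((k : ℝ) + 1) ^ 2 * q ^ (k + 1) +
      (K : ℝ) ^ 2 * q ^ (K + 1) = ∑ k ∈ range K, (2 * (k : ℝ) + 1) * q ^ (k + 1) := by
    intro K
    induction K with
    | zero => simp
    | succ K ih =>
      rw [sum_range_succ, sum_range_succ (n := K) (f := fun k => (2 * (k : ℝ) + 1) * q ^ (k + 1)),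
        ← ih]
      push_cast
      ring
  have h2 : ∑ k ∈ range K, (2 * (k : ℝ) + 1) * q ^ (k + 1) ≤ 2 * X := by
    rw [hX, mul_sum]
    refine sum_le_sum fun k _ => ?_
    have : 0 < q ^ (k + 1) := by positivity
    nlinarith
  have h3 := arith_geom hq0.le hq1 K
  have h4 : (1 - q) ^ 3 * A ≤ 2 * q := by
    have h5 : (1 - q) * A ≤ 2 * X := by
      have := h1 K
      have h6 : 0 ≤ (K : ℝ) ^ 2 * q ^ (K + 1) := by positivity
      linarith
    calc (1 - q) ^ 3 * A = (1 - q) ^ 2 * ((1 - q) * A) := by ring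
      _ ≤ (1 - q) ^ 2 * (2 * X) := by gcongr
      _ = 2 * ((1 - q) ^ 2 * X) := by ring
      _ ≤ 2 * q := by linarith
  rw [e] at h4
  have h5 : δ ^ 3 * A * q ^ 2 ≤ 2 := by
    have : q * (δ ^ 3 * A * q ^ 2) ≤ q * 2 := by
      calc q * (δ ^ 3 * A * q ^ 2) = (δ * q) ^ 3 * A := by ring
        _ ≤ 2 * q := h4
        _ = q * 2 := by ring
    exact le_of_mul_le_mul_left this hq0
  have h6 : 1 / 4 ≤ q ^ 2 := by nlinarith
  have h7 : δ ^ 3 * A * (1 / 4) ≤ δ ^ 3 * A * q ^ 2 := by gcongr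
  rw [le_div_iff₀ (by positivity)]
  linarith

lemma kb_crude {δ : ℝ} (hδ : 0 < δ) (hδ1 : δ ≤ 1) (N : ℕ) :
    KB (fun i j : Fin (N + 1) => k1 δ i j * ((((i : ℕ) - (j : ℕ) : ℕ) : ℝ) + 1) ^ 2)
      (8 / δ ^ 3) := by
  have hd : 0 ≤ 8 / δ ^ 3 := by positivity
  have hkey : ∀ i j : ℕ, k1 δ i j * (((i - j : ℕ) : ℝ) + 1) ^ 2 =
      if j ≤ i then (fun k : ℕ => ((k : ℝ) + 1) ^ 2 * ((1 + δ)⁻¹) ^ (k + 1)) (i - j) else 0 := by
    intro i j
    unfold k1
    split_ifs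
    · ring
    · ring
  have := KB.schur (ι := Fin (N + 1))
    (K := fun i j => k1 δ i j * ((((i : ℕ) - (j : ℕ) : ℕ) : ℝ) + 1) ^ 2) (h := fun _ => 1)
    (A := 8 / δ ^ 3) (B := 8 / δ ^ 3) (fun _ => one_pos)
    (fun i j => by have := k1_nonneg hδ (i : ℕ) j; positivity) hd hd ?_ ?_
  · rwa [Real.mul_self_sqrt hd] at this
  · intro i
    simp only [mul_one, hkey]
    rw [Fin.sum_univ_eq_sum_range (fun j => if j ≤ (i : ℕ) then
      ((((i : ℕ) - j : ℕ) : ℝ) + 1) ^ 2 * ((1 + δ)⁻¹) ^ ((i : ℕ) - j + 1) else 0) (N + 1)]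
    exact sum_row (g := fun k => ((k : ℝ) + 1) ^ 2 * ((1 + δ)⁻¹) ^ (k + 1)) (quad_geom hδ hδ1)
      (by have := i.isLt; omega)
  · intro j
    simp only [mul_one, hkey]
    rw [Fin.sum_univ_eq_sum_range (fun i => if (j : ℕ) ≤ i then
      (((i - (j : ℕ) : ℕ) : ℝ) + 1) ^ 2 * ((1 + δ)⁻¹) ^ (i - (j : ℕ) + 1) else 0) (N + 1)]
    exact sum_col (g := fun k => ((k : ℝ) + 1) ^ 2 * ((1 + δ)⁻¹) ^ (k + 1)) (quad_geom hδ hδ1)
      (by have := j.isLt; omega)

/-- the kernel with the weights `φ i / φ (N - i)` -/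
lemma kbWS {φ : ℕ → ℝ} {Φ B2 C δ : ℝ} {N : ℕ} (hφ : ∀ i, 0 < φ i)
    (hconst : ∀ i, N ≤ 2 * i → φ i = Φ) (hC : 0 ≤ C)
    (hA : KB (fun i j : Fin (N + 1) => k1 δ i j * (φ i / φ j)) (C * δ⁻¹))
    (hB2 : Φ ^ 2 * ∑ j ∈ range (N + 1), (φ j ^ 2)⁻¹ ≤ B2 * ((N : ℝ) + 1))
    (hnear : ∀ i j, j ≤ i → i ≤ N → 2 * j ≤ N → N < 2 * i → 4 * (i - j + 2) < N + 1 →
      (Φ / φ j) * (Φ / φ (N - i)) ≤ 16)
    (hδ : 0 < δ) (hδ1 : δ ≤ 1) :
    KB (fun i j : Fin (N + 1) => k1 δ i j * ((φ i / φ (N - i)) / (φ j / φ (N - j))))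
      ((C + 4 * B2 + 16) * δ⁻¹) := by
  have hΦ : 0 < Φ := by rw [← hconst N (by omega)]; exact hφ N
  have hR : KB (fun i j : Fin (N + 1) => k1 δ i j * (φ (N - j) / φ (N - i))) (C * δ⁻¹) := by
    have h2 := (hA.transpose).reindex (Fin.revPerm)
    simp only [Fin.revPerm_apply] at h2
    refine h2.mono ?_ le_rfl
    intro i j
    have hi := i.isLt
    have hj := j.isLt
    simp only [Fin.val_rev]
    have e1 : N + 1 - ((i : ℕ) + 1) = N - i := by omega
    have e2 : N + 1 - ((j : ℕ) + 1) = N - j := by omega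
    rw [e1, e2]
    unfold k1
    by_cases h : (j : ℕ) ≤ i
    · rw [if_pos h, if_pos (by omega)]
      have e3 : N - (j : ℕ) - (N - i) = i - j := by omega
      rw [e3]
    · rw [if_neg h, if_neg (by omega), zero_mul]
  have hAB := kb_block hA hR (by positivity) (fun i : Fin (N + 1) => 2 * (i : ℕ) ≤ N)
  set D : ℝ := 4 / (δ * ((N : ℝ) + 1)) * Φ ^ 2 with hD
  have hDp : 0 ≤ D := by positivity
  have hCC : KB (fun i j : Fin (N + 1) => D * ((φ (N - i))⁻¹ * (φ j)⁻¹)) (4 * B2 * δ⁻¹) := by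
    have h1 := (KB.rankOne (K := fun i j : Fin (N + 1) => (φ (N - i))⁻¹ * (φ j)⁻¹)
      (u := fun i : Fin (N + 1) => (φ (N - i))⁻¹) (v := fun j : Fin (N + 1) => (φ j)⁻¹)
      (fun i j => le_rfl)).smul hDp
    refine h1.mono (fun i j => le_rfl) ?_
    have e1 : ∑ i : Fin (N + 1), ((φ (N - i))⁻¹) ^ 2 = ∑ j ∈ range (N + 1), (φ j ^ 2)⁻¹ := by
      rw [← Equiv.sum_comp Fin.revPerm,
        ← Fin.sum_univ_eq_sum_range (fun j => (φ j ^ 2)⁻¹) (N + 1)]
      refine sum_congr rfl fun i _ => ?_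
      rw [Fin.revPerm_apply, Fin.val_rev]
      have : N - (N + 1 - ((i : ℕ) + 1)) = i := by have := i.isLt; omega
      rw [this, inv_pow]
    have e2 : ∑ i : Fin (N + 1), ((φ i)⁻¹) ^ 2 = ∑ j ∈ range (N + 1), (φ j ^ 2)⁻¹ := by
      rw [← Fin.sum_univ_eq_sum_range (fun j => (φ j ^ 2)⁻¹) (N + 1)]
      refine sum_congr rfl fun i _ => ?_
      rw [inv_pow]
    rw [e1, e2, Real.mul_self_sqrt (sum_nonneg fun i _ => by positivity)]
    calc D * ∑ j ∈ range (N + 1), (φ j ^ 2)⁻¹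
        = 4 / (δ * ((N : ℝ) + 1)) * (Φ ^ 2 * ∑ j ∈ range (N + 1), (φ j ^ 2)⁻¹) := by
          rw [hD]; ring
      _ ≤ 4 / (δ * ((N : ℝ) + 1)) * (B2 * ((N : ℝ) + 1)) := by gcongr
      _ = 4 * B2 * δ⁻¹ := by field_simp
  have hS := (hAB.add hCC).add ((kb1 hδ N).smul (c := 16) (by norm_num))
  refine hS.mono ?_ (le_of_eq (by ring))
  intro i j
  have p1 := hφ i
  have p2 := hφ j
  have p3 := hφ (N - i)
  have p4 := hφ (N - j)
  have hk := k1_nonneg hδ (i : ℕ) j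
  have hi := i.isLt
  have hj := j.isLt
  have e0 : (φ i / φ (N - i)) / (φ j / φ (N - j)) = (φ i / φ j) * (φ (N - j) / φ (N - i)) := by
    field_simp
  rw [e0]
  have t3 : 0 ≤ D * ((φ (N - i))⁻¹ * (φ j)⁻¹) := by positivity
  have t4 : 0 ≤ 16 * k1 δ i j := by positivity
  have t5 : 0 ≤ k1 δ i j * (φ i / φ j) := by positivity
  have t6 : 0 ≤ k1 δ i j * (φ (N - j) / φ (N - i)) := by positivity
  by_cases hij : (j : ℕ) ≤ i
  swap
  · have hk0 : k1 δ i j = 0 := by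
      unfold k1
      rw [if_neg hij]
    rw [hk0] at t5 t6 ⊢
    split_ifs <;> simp <;> linarith
  by_cases h1 : 2 * (i : ℕ) ≤ N
  · rw [if_pos ⟨h1, by omega⟩]
    rw [hconst (N - i) (by omega), hconst (N - j) (by omega), div_self hΦ.ne', mul_one]
    have t3' : 0 ≤ D * (Φ⁻¹ * (φ j)⁻¹) := by positivity
    linarith
  by_cases h3 : 2 * (j : ℕ) ≤ N
  · rw [if_neg (by rintro ⟨h4, _⟩; exact h1 h4), if_neg (by rintro ⟨_, h4⟩; exact h4 h3), zero_add]
    have f1 : φ i = Φ := hconst i (by omega)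
    have f2 : φ (N - j) = Φ := hconst (N - j) (by omega)
    have e1 : (φ i / φ j) * (φ (N - j) / φ (N - i)) = (Φ / φ j) * (Φ / φ (N - i)) := by
      rw [f1, f2]
    rw [e1]
    by_cases h4 : N + 1 ≤ 4 * ((i : ℕ) - j + 2)
    · have h5 : k1 δ i j ≤ 4 / (δ * ((N : ℝ) + 1)) := by
        unfold k1
        rw [if_pos hij]
        refine (decay1 hδ hδ1 _).trans ?_
        have h6 : ((N : ℝ) + 1) ≤ 4 * (1 + (((i : ℕ) - j + 1 : ℕ) : ℝ)) := by
          have : ((N + 1 : ℕ) : ℝ) ≤ ((4 * ((i : ℕ) - j + 2) : ℕ) : ℝ) := by exact_mod_cast h4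
          push_cast at this ⊢
          linarith
        have h7 : 0 < 1 + (((i : ℕ) - j + 1 : ℕ) : ℝ) := by positivity
        rw [← mul_inv, div_eq_mul_inv, inv_le_iff_one_le_mul₀ (by positivity)]
        have h8 : 4 * (δ * ((N : ℝ) + 1))⁻¹ * (δ * (1 + (((i : ℕ) - j + 1 : ℕ) : ℝ))) =
            (4 * (1 + (((i : ℕ) - j + 1 : ℕ) : ℝ))) / ((N : ℝ) + 1) := by
          field_simp
        rw [h8, le_div_iff₀ (by positivity), one_mul]
        exact h6
      have : k1 δ i j * ((Φ / φ j) * (Φ / φ (N - i))) ≤ D * ((φ (N - i))⁻¹ * (φ j)⁻¹) := by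
        calc k1 δ i j * ((Φ / φ j) * (Φ / φ (N - i)))
            ≤ (4 / (δ * ((N : ℝ) + 1))) * ((Φ / φ j) * (Φ / φ (N - i))) :=
              mul_le_mul_of_nonneg_right h5 (by positivity)
          _ = _ := by
            rw [hD, div_eq_mul_inv Φ, div_eq_mul_inv Φ]; ring
      linarith
    · have h5 := hnear i j hij (by omega) h3 (by omega) (by omega)
      have : k1 δ i j * ((Φ / φ j) * (Φ / φ (N - i))) ≤ 16 * k1 δ i j := by
        calc k1 δ i j * ((Φ / φ j) * (Φ / φ (N - i))) ≤ k1 δ i j * 16 :=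
              mul_le_mul_of_nonneg_left h5 hk
          _ = _ := by ring
      linarith
  · rw [if_neg (by rintro ⟨h4, _⟩; exact h1 h4), if_pos ⟨h1, h3⟩]
    rw [hconst i (by omega), hconst j (by omega), div_self hΦ.ne', one_mul]
    have t3' : 0 ≤ D * ((φ (N - i))⁻¹ * Φ⁻¹) := by positivity
    linarith

end Pool.Agent.Helper57.KR
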