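import Pool.Agent.Helper57.KR.Main

/-!
# The power saving for Kreiss bounded operators on Hilbert spaces
-/

set_option autoImplicit false

namespace Pool.Agent.Helper57.KR

open Finset Filter Topology Pool.Agent.Helper65.RG

universe u

variable {H : Type u} [NormedAddCommGroup H] [InnerProductSpace ℂ H] [CompleteSpace H]

/-- the Plancherel estimate after the limit `L → ∞` -/
lemma lim_step {c : ℝ} (hc : 0 ≤ c) {T : H →L[ℂ] H} (hs : spectrum ℂ T ⊆ Metric.closedBall 0 1)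
    (hT : ∀ z : ℂ, 1 < ‖z‖ → ‖z‖ ≤ 2 → ‖resolvent T z‖ ≤ c / (‖z‖ - 1)) {r : ℝ} (h1 : 1 < r)
    (h2 : r ≤ 2) {M : ℝ} (hM : ∀ n : ℕ, ‖T ^ n‖ ≤ M * (1 + (n : ℝ)))
    (cs : ℕ → ℝ) {m : ℕ} (hcs : ∀ j, m ≤ j → cs j = 0) (x : H) :
    ∑ i ∈ Ico m (2 * m), bb cs r i ^ 2 * ‖(T ^ i) x‖ ^ 2 ≤
      2 * (c / (r - 1)) ^ 2 * ∑ i ∈ range m, cs i ^ 2 * ‖(T ^ i) x‖ ^ 2 := by
  set P := ∑ j ∈ range m, cs j * r ^ j with hP
  have hr0 : 0 < r := by linarith
  have hbb : ∀ L, m ≤ L + 1 → bb cs r L = P / r ^ (L + 1) := by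
    intro L hL
    unfold bb
    congr 1
    rw [hP]
    symm
    apply sum_subset
    · intro j hj
      rw [mem_range] at *
      omega
    · intro j _ hj2
      rw [mem_range, not_lt] at hj2
      rw [hcs j hj2, zero_mul]
  have ha : Tendsto (fun n : ℕ => (1 + (n : ℝ)) / r ^ n) atTop (𝓝 0) := by
    have t1 := tendsto_pow_const_div_const_pow_of_one_lt 1 h1
    have t0 := tendsto_pow_const_div_const_pow_of_one_lt 0 h1
    have := t0.add t1
    simp only [pow_zero, pow_one, add_zero] at this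
    refine this.congr fun n => ?_
    ring
  have hb : Tendsto (fun n : ℕ => (|P| * (M * ‖x‖)) * ((1 + (n : ℝ)) / r ^ n)) atTop (𝓝 0) := by
    simpa using ha.const_mul (|P| * (M * ‖x‖))
  have hc' : Tendsto (fun n : ℕ => |P / r ^ n| * ‖(T ^ n) x‖) atTop (𝓝 0) := by
    refine squeeze_zero (fun n => by positivity) (fun n => ?_) hb
    have h3 : ‖(T ^ n) x‖ ≤ M * (1 + (n : ℝ)) * ‖x‖ :=
      (ContinuousLinearMap.le_opNorm _ _).trans (by gcongr; exact hM n)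
    rw [abs_div, abs_of_pos (show 0 < r ^ n by positivity)]
    calc |P| / r ^ n * ‖(T ^ n) x‖ ≤ |P| / r ^ n * (M * (1 + (n : ℝ)) * ‖x‖) := by gcongr
      _ = _ := by ring
  have hd : Tendsto (fun n : ℕ => (P / r ^ n) ^ 2 * ‖(T ^ n) x‖ ^ 2) atTop (𝓝 0) := by
    have := hc'.pow 2
    simpa [mul_pow, sq_abs] using this
  have hlim : Tendsto (fun n : ℕ => 2 * (c / (r - 1)) ^ 2 *
      (∑ i ∈ range m, cs i ^ 2 * ‖(T ^ i) x‖ ^ 2 + (P / r ^ n) ^ 2 * ‖(T ^ n) x‖ ^ 2)) atTop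
      (𝓝 (2 * (c / (r - 1)) ^ 2 * (∑ i ∈ range m, cs i ^ 2 * ‖(T ^ i) x‖ ^ 2 + 0))) :=
    (hd.const_add _).const_mul _
  rw [add_zero] at hlim
  refine ge_of_tendsto hlim ?_
  filter_upwards [eventually_ge_atTop (2 * m + 1)] with n hn
  obtain ⟨L, rfl⟩ : ∃ L, n = L + 1 := ⟨n - 1, by omega⟩
  have hp := planch hc hs hT h1 h2 cs x L
  rw [hbb L (by omega)] at hp
  have e1 : ∑ i ∈ range (L + 1), cs i ^ 2 * ‖(T ^ i) x‖ ^ 2 =
      ∑ i ∈ range m, cs i ^ 2 * ‖(T ^ i) x‖ ^ 2 := by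
    symm
    apply sum_subset
    · intro j hj
      rw [mem_range] at *
      omega
    · intro j _ hj2
      rw [mem_range, not_lt] at hj2
      rw [hcs j hj2]
      simp
  rw [e1] at hp
  refine le_trans ?_ hp
  apply sum_le_sum_of_subset_of_nonneg
  · intro j hj
    rw [mem_Ico] at hj
    rw [mem_range]
    omega
  · intro j _ _
    positivity

lemma pow_le_nine {m : ℕ} (hm : 1 ≤ m) : (1 + 1 / (m : ℝ)) ^ (2 * m) ≤ 9 := by
  have hm0 : (0 : ℝ) < m := by exact_mod_cast hm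
  have h1 : 1 + 1 / (m : ℝ) ≤ Real.exp (1 / m) := by
    have := Real.add_one_le_exp (1 / (m : ℝ))
    linarith
  calc (1 + 1 / (m : ℝ)) ^ (2 * m) ≤ Real.exp (1 / m) ^ (2 * m) := by gcongr
    _ = Real.exp 1 ^ 2 := by
      rw [← Real.exp_nat_mul, ← Real.exp_nat_mul]
      congr 1
      push_cast
      field_simp
    _ ≤ 3 ^ 2 := by
      have := Real.exp_one_lt_d9
      gcongr
      linarith
    _ = 9 := by norm_num

/-- the key inequality for the weights -/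
lemma key {c : ℝ} (hc : 0 ≤ c) {T : H →L[ℂ] H} (hs : spectrum ℂ T ⊆ Metric.closedBall 0 1)
    (hT : ∀ z : ℂ, 1 < ‖z‖ → ‖z‖ ≤ 2 → ‖resolvent T z‖ ≤ c / (‖z‖ - 1))
    {M : ℝ} (hM : ∀ n : ℕ, ‖T ^ n‖ ≤ M * (1 + (n : ℝ))) (x : H) {m : ℕ} (hm : 1 ≤ m) :
    (∑ j ∈ range m, (‖(T ^ j) x‖ ^ 2)⁻¹) ^ 2 * ∑ i ∈ Ico m (2 * m), ‖(T ^ i) x‖ ^ 2 ≤
      162 * c ^ 2 * (m : ℝ) ^ 2 * ∑ j ∈ range m, (‖(T ^ j) x‖ ^ 2)⁻¹ := by
  have hm0 : (0 : ℝ) < m := by exact_mod_cast hm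
  have hm1 : (1 : ℝ) ≤ m := by exact_mod_cast hm
  set r : ℝ := 1 + 1 / (m : ℝ) with hr
  have h1 : 1 < r := by
    have : 0 < 1 / (m : ℝ) := by positivity
    linarith
  have h2 : r ≤ 2 := by
    have : 1 / (m : ℝ) ≤ 1 := by
      rw [div_le_one hm0]
      exact hm1
    linarith
  set cs : ℕ → ℝ := fun j => if j < m then (‖(T ^ j) x‖ ^ 2)⁻¹ else 0 with hcsd
  have hcs0 : ∀ j, 0 ≤ cs j := by
    intro j
    simp only [hcsd]
    split_ifs
    · positivity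
    · exact le_rfl
  have hcs : ∀ j, m ≤ j → cs j = 0 := by
    intro j hj
    simp only [hcsd]
    rw [if_neg (by omega)]
  have hL := lim_step hc hs hT h1 h2 hM cs hcs x
  set S := ∑ j ∈ range m, (‖(T ^ j) x‖ ^ 2)⁻¹ with hS
  have hS0 : 0 ≤ S := sum_nonneg fun j _ => by positivity
  have e1 : ∑ i ∈ range m, cs i ^ 2 * ‖(T ^ i) x‖ ^ 2 = S := by
    refine sum_congr rfl fun j hj => ?_
    simp only [hcsd]
    rw [if_pos (mem_range.1 hj)]
    by_cases h0 : ‖(T ^ j) x‖ = 0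
    · rw [h0]; simp
    · field_simp
  have e2 : c / (r - 1) = c * m := by
    rw [hr, add_sub_cancel_left, div_div_eq_mul_div, div_one]
  have e3 : ∀ i ∈ Ico m (2 * m), S / 9 ≤ bb cs r i := by
    intro i hi
    rw [mem_Ico] at hi
    unfold bb
    have f1 : S ≤ ∑ j ∈ range (i + 1), cs j * r ^ j := by
      calc S = ∑ j ∈ range m, cs j := by
            refine sum_congr rfl fun j hj => ?_
            simp only [hcsd]
            rw [if_pos (mem_range.1 hj)]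
        _ ≤ ∑ j ∈ range m, cs j * r ^ j := by
            refine sum_le_sum fun j _ => ?_
            have : 1 ≤ r ^ j := one_le_pow₀ h1.le
            exact le_mul_of_one_le_right (hcs0 j) this
        _ ≤ ∑ j ∈ range (i + 1), cs j * r ^ j := by
            apply sum_le_sum_of_subset_of_nonneg
            · intro j hj
              rw [mem_range] at *
              omega
            · intro j _ _
              have := hcs0 j
              positivity
    have f2 : r ^ (i + 1) ≤ 9 :=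
      (pow_le_pow_right₀ h1.le (by omega)).trans (pow_le_nine hm)
    have f3 : 0 < r ^ (i + 1) := by positivity
    gcongr
  rw [e1, e2] at hL
  have h3 : (S / 9) ^ 2 * ∑ i ∈ Ico m (2 * m), ‖(T ^ i) x‖ ^ 2 ≤ 2 * (c * m) ^ 2 * S := by
    refine le_trans ?_ hL
    rw [mul_sum]
    refine sum_le_sum fun i hi => ?_
    have := e3 i hi
    gcongr
  have h4 : S ^ 2 * ∑ i ∈ Ico m (2 * m), ‖(T ^ i) x‖ ^ 2 =
      81 * ((S / 9) ^ 2 * ∑ i ∈ Ico m (2 * m), ‖(T ^ i) x‖ ^ 2) := by ring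
  rw [h4]
  calc 81 * ((S / 9) ^ 2 * ∑ i ∈ Ico m (2 * m), ‖(T ^ i) x‖ ^ 2) ≤ 81 * (2 * (c * m) ^ 2 * S) := by
        gcongr
    _ = 162 * c ^ 2 * (m : ℝ) ^ 2 * S := by ring

/-- the exponent gained -/
noncomputable def gain (c : ℝ) : ℝ := Real.log (1 + 1 / (162 * c ^ 2)) / (2 * Real.log 2)

lemma gain_pos {c : ℝ} (hc : 0 < c) : 0 < gain c := by
  unfold gain
  have h1 : 0 < Real.log (1 + 1 / (162 * c ^ 2)) := Real.log_pos (by
    have : 0 < 1 / (162 * c ^ 2) := by positivity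
    linarith)
  have h2 : 0 < Real.log 2 := Real.log_pos (by norm_num)
  positivity

lemma gain_lt_one {c : ℝ} (hc : 1 ≤ c) : gain c < 1 := by
  unfold gain
  have h2 : 0 < Real.log 2 := Real.log_pos (by norm_num)
  rw [div_lt_one (by positivity)]
  have h3 : 1 + 1 / (162 * c ^ 2) < 2 := by
    have : 1 / (162 * c ^ 2) < 1 := by
      rw [div_lt_one (by positivity)]
      nlinarith
    linarith
  have h4 : Real.log (1 + 1 / (162 * c ^ 2)) < Real.log 2 :=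
    Real.log_lt_log (by positivity) h3
  linarith

lemma two_rpow_gain {c : ℝ} (hc : 0 < c) : (2 : ℝ) ^ (2 * gain c) = 1 + 1 / (162 * c ^ 2) := by
  have h2 : 0 < Real.log 2 := Real.log_pos (by norm_num)
  unfold gain
  rw [Real.rpow_def_of_pos (by norm_num)]
  have : Real.log 2 * (2 * (Real.log (1 + 1 / (162 * c ^ 2)) / (2 * Real.log 2))) =
      Real.log (1 + 1 / (162 * c ^ 2)) := by
    field_simp
  rw [this, Real.exp_log (by positivity)]

/-- the power saving for each vector -/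
lemma vec_bound {c : ℝ} (hc : 1 ≤ c) {T : H →L[ℂ] H} (hs : spectrum ℂ T ⊆ Metric.closedBall 0 1)
    (hT : ∀ z : ℂ, 1 < ‖z‖ → ‖z‖ ≤ 2 → ‖resolvent T z‖ ≤ c / (‖z‖ - 1))
    {M : ℝ} (hM : ∀ n : ℕ, ‖T ^ n‖ ≤ M * (1 + (n : ℝ))) (x : H) (n : ℕ) :
    ‖(T ^ n) x‖ ≤ 13 * c * (1 + (n : ℝ)) ^ (1 - gain c) * ‖x‖ := by
  have hc0 : 0 < c := by linarith
  rcases Nat.eq_zero_or_pos n with h0 | hn
  · subst h0
    simp only [pow_zero, Nat.cast_zero, add_zero, Real.one_rpow, mul_one]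
    have : ‖((1 : H →L[ℂ] H)) x‖ = 1 * ‖x‖ := by simp
    rw [this]
    gcongr
    linarith
  · obtain ⟨k, hk1, hk2⟩ : ∃ k, 2 ^ k ≤ n ∧ n < 2 ^ (k + 1) :=
      ⟨Nat.log 2 n, Nat.pow_log_le_self 2 (by omega), Nat.lt_pow_succ_log_self (by norm_num) n⟩
    have hz : ∀ i j, i ≤ j → ‖(T ^ i) x‖ = 0 → ‖(T ^ j) x‖ = 0 := by
      intro i j hij h
      obtain ⟨d, rfl⟩ := Nat.exists_eq_add_of_le hij
      rw [norm_eq_zero] at h ⊢
      rw [add_comm, pow_add]
      show (T ^ d) ((T ^ i) x) = 0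
      rw [h, map_zero]
    have hB : (0 : ℝ) < 162 * c ^ 2 := by positivity
    have hg := seq_growth (w := fun i => ‖(T ^ i) x‖) hB hz
      (fun m hm => key hc0.le hs hT hM x hm) k n hk1 hk2
    simp only [pow_zero] at hg
    rw [← two_rpow_gain hc0] at hg
    have hx : ‖((1 : H →L[ℂ] H)) x‖ = ‖x‖ := by simp
    rw [hx] at hg
    -- divide
    have hA : 0 < ((2 : ℝ) ^ (2 * gain c)) ^ k := by positivity
    set s : ℝ := ((2 : ℝ) ^ k) ^ (1 - gain c) with hsd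
    have hs2 : ((2 : ℝ) ^ (2 * gain c)) ^ k * s ^ 2 = (4 : ℝ) ^ k := by
      rw [hsd, ← Real.rpow_natCast 2 k, ← Real.rpow_natCast _ k, ← Real.rpow_natCast _ 2,
        ← Real.rpow_mul (by norm_num), ← Real.rpow_mul (by norm_num), ← Real.rpow_mul (by norm_num),
        ← Real.rpow_add (by norm_num), ← Real.rpow_natCast 4 k,
        show (4 : ℝ) = 2 ^ (2 : ℝ) by norm_num, ← Real.rpow_mul (by norm_num)]
      congr 1
      push_cast
      ring
    have hle : ‖(T ^ n) x‖ ^ 2 ≤ (162 * c ^ 2) * s ^ 2 * ‖x‖ ^ 2 := by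
      refine le_of_mul_le_mul_left ?_ hA
      refine hg.trans (le_of_eq ?_)
      rw [← hs2]
      ring
    have hs0 : 0 ≤ s := by positivity
    have h13 : ‖(T ^ n) x‖ ^ 2 ≤ (13 * c * s * ‖x‖) ^ 2 := by
      refine hle.trans ?_
      have : (13 * c * s * ‖x‖) ^ 2 = 169 * (c ^ 2 * s ^ 2 * ‖x‖ ^ 2) := by ring
      rw [this]
      have h0 : 0 ≤ c ^ 2 * s ^ 2 * ‖x‖ ^ 2 := by positivity
      nlinarith
    have h14 : ‖(T ^ n) x‖ ≤ 13 * c * s * ‖x‖ :=
      le_of_sq_le_sq h13 (by positivity)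
    refine h14.trans ?_
    have hs1 : s ≤ (1 + (n : ℝ)) ^ (1 - gain c) := by
      rw [hsd]
      apply Real.rpow_le_rpow (by positivity)
      · have : ((2 ^ k : ℕ) : ℝ) ≤ (n : ℝ) := by exact_mod_cast hk1
        push_cast at this
        linarith
      · have := gain_lt_one hc
        linarith
    gcongr

/-- the power saving -/
theorem power_saving {c : ℝ} (hc : 1 ≤ c) {T : H →L[ℂ] H}
    (hs : spectrum ℂ T ⊆ Metric.closedBall 0 1)
    (hT : ∀ z : ℂ, 1 < ‖z‖ → ‖z‖ ≤ 2 → ‖resolvent T z‖ ≤ c / (‖z‖ - 1)) (n : ℕ) :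
    ‖T ^ n‖ ≤ 13 * c * (1 + (n : ℝ)) ^ (1 - gain c) := by
  have hR : ResolventCondition 1 T := by
    refine ⟨hs, c, by linarith, ?_⟩
    intro z hz1 hz2
    rw [Real.rpow_one]
    exact hT z hz1 hz2
  obtain ⟨M, hM⟩ := upper hR
  have hM' : ∀ n : ℕ, ‖T ^ n‖ ≤ M * (1 + (n : ℝ)) := by
    intro n
    have := hM n
    rwa [Real.rpow_one] at this
  refine ContinuousLinearMap.opNorm_le_bound _ (by positivity) fun x => ?_
  exact vec_bound hc hs hT hM' x n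

end Pool.Agent.Helper57.KR
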