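import Pool.Agent.Helper57.KR.K3
import Pool.Agent.Helper57.KR.Fin

/-!
# The sharp upper bound
-/

set_option autoImplicit false

namespace Pool.Agent.Helper57.KR

open Finset Filter Topology Pool.Agent.Helper65.RG

universe u

variable {H : Type u} [NormedAddCommGroup H] [InnerProductSpace ℂ H] [CompleteSpace H]

/-- the sharp upper bound -/
theorem upper_sharp {c η : ℝ} (hη0 : 0 < η) (hη1 : η < 1) (hc : 4 / η ≤ c) {T : H →L[ℂ] H}
    (hs : spectrum ℂ T ⊆ Metric.closedBall 0 1)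
    (hT : ∀ z : ℂ, 1 < ‖z‖ → ‖z‖ ≤ 2 → ‖resolvent T z‖ ≤ c / (‖z‖ - 1)) (n : ℕ) :
    ‖T ^ n‖ ≤ 27 * c * (1 + (n : ℝ)) ^ (1 - (1 - η) / (4 * c ^ 2)) := by
  have hηc : 4 ≤ η * c := by
    rw [div_le_iff₀ hη0] at hc
    linarith
  have hc4 : 4 ≤ c := by
    have : (4 : ℝ) ≤ 4 / η := by rw [le_div_iff₀ hη0]; nlinarith
    linarith
  have hc0 : 0 < c := by linarith
  set ε : ℝ := (1 - η) / (4 * c ^ 2) with hε
  have hε0 : 0 < ε := div_pos (by linarith) (by positivity)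
  have hε2 : ε ≤ η ^ 2 / 64 := by
    rw [hε, div_le_div_iff₀ (by positivity) (by norm_num)]
    have h16 : 16 ≤ (η * c) ^ 2 := by nlinarith
    have e : η ^ 2 * (4 * c ^ 2) = 4 * (η * c) ^ 2 := by ring
    rw [e]
    linarith
  have hε1 : ε < 1 := by nlinarith
  set κ : ℝ := η / 32 with hκ
  have hκ0 : 0 < κ := by positivity
  have hκ1 : κ ≤ 1 / 16 := by rw [hκ]; linarith
  have hlog : 1 - 1 / κ ≤ Real.log κ := by
    rw [one_div]
    exact Real.one_sub_inv_le_log_of_pos hκ0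
  have hinv : 1 / κ = 32 / η := by rw [hκ]; field_simp
  have hprod : ε * (32 / η) ≤ η / 2 := by
    calc ε * (32 / η) ≤ η ^ 2 / 64 * (32 / η) := by gcongr
      _ = η / 2 := by field_simp; norm_num
  have hκε : 1 - η / 2 ≤ κ ^ ε := by
    rw [Real.rpow_def_of_pos hκ0]
    have h2 := Real.add_one_le_exp (Real.log κ * ε)
    have h3 : (1 - 1 / κ) * ε ≤ Real.log κ * ε := by gcongr
    rw [hinv] at h3
    nlinarith
  have hcε : 4 * c ^ 2 * ε ≤ (1 - 8 * κ) ^ 2 * κ ^ ε := by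
    have e1 : 4 * c ^ 2 * ε = 1 - η := by rw [hε]; field_simp
    have e2 : 1 - 8 * κ = 1 - η / 4 := by rw [hκ]; ring
    rw [e1, e2]
    have h2 : 1 - η / 2 ≤ (1 - η / 4) ^ 2 := by nlinarith
    calc 1 - η ≤ (1 - η / 2) * (1 - η / 2) := by nlinarith
      _ ≤ (1 - η / 4) ^ 2 * κ ^ ε := by
        apply mul_le_mul h2 hκε (by linarith) (by positivity)
  have hG : (2 / κ ^ 2) ^ ε ≤ 3 := by
    rw [Real.rpow_def_of_pos (by positivity)]
    have h2 : Real.log (2 / κ ^ 2) ≤ 64 / η := by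
      rw [Real.log_div (by norm_num) (by positivity), Real.log_pow]
      have h3 : Real.log 2 ≤ 1 := by
        have := Real.log_two_lt_d9
        linarith
      have e : 64 / η = 2 * (1 / κ) := by rw [hinv]; ring
      rw [e]
      push_cast
      linarith
    have h3 : Real.log (2 / κ ^ 2) * ε ≤ 1 := by
      calc Real.log (2 / κ ^ 2) * ε ≤ 64 / η * ε := by gcongr
        _ = 2 * (ε * (32 / η)) := by ring
        _ ≤ 1 := by linarith
    calc Real.exp (Real.log (2 / κ ^ 2) * ε) ≤ Real.exp 1 := Real.exp_le_exp.2 h3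
      _ ≤ 3 := by have := Real.exp_one_lt_d9; linarith
  have hR : ResolventCondition 1 T := by
    refine ⟨hs, c, by linarith, ?_⟩
    intro z hz1 hz2
    rw [Real.rpow_one]
    exact hT z hz1 hz2
  obtain ⟨M, hM⟩ := upper hR
  have hM' : ∀ n : ℕ, ‖T ^ n‖ ≤ M * (1 + (n : ℝ)) := by
    intro n
    have := hM n
    rwa [Real.rpow_one] at this
  refine ContinuousLinearMap.opNorm_le_bound _ (by positivity) fun x => ?_
  rcases Nat.eq_zero_or_pos n with h0 | hn
  · subst h0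
    simp only [pow_zero, Nat.cast_zero, add_zero, Real.one_rpow, mul_one]
    have : ‖((1 : H →L[ℂ] H)) x‖ = 1 * ‖x‖ := by simp
    rw [this]
    gcongr
    linarith
  · by_cases hz : ∃ i, i ≤ n ∧ ‖(T ^ i) x‖ = 0
    · obtain ⟨i, hi, h⟩ := hz
      have : ‖(T ^ n) x‖ = 0 := by
        obtain ⟨d, rfl⟩ := Nat.exists_eq_add_of_le hi
        rw [norm_eq_zero] at h ⊢
        rw [add_comm, pow_add]
        show (T ^ d) ((T ^ i) x) = 0
        rw [h, map_zero]
      rw [this]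
      positivity
    · push Not at hz
      have hpos : ∀ i, i ≤ n → 0 < ‖(T ^ i) x‖ := fun i hi =>
        lt_of_le_of_ne (norm_nonneg _) (Ne.symm (hz i hi))
      have hKP := KP_of_orbit hc0.le hs hT hM' x n hpos
      have hU := upperw hc0 hKP hpos hκ0 hκ1 hε0 hε1 hcε hn
      simp only [pow_zero] at hU
      have hx : ‖((1 : H →L[ℂ] H)) x‖ = ‖x‖ := by simp
      rw [hx] at hU
      refine hU.trans ?_
      rw [add_comm (1 : ℝ) (n : ℝ)]
      calc 9 * c * (2 / κ ^ 2) ^ ε * ((n : ℝ) + 1) ^ (1 - ε) * ‖x‖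
          ≤ 9 * c * 3 * ((n : ℝ) + 1) ^ (1 - ε) * ‖x‖ := by gcongr
        _ = _ := by ring

end Pool.Agent.Helper57.KR
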