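import Pool.Agent.Helper57.KR.Gen

/-!
# The kernel estimate for doubling weights
-/

set_option autoImplicit false

open scoped BigOperators
open Finset

namespace Pool.Agent.Helper57.KR

open Pool.Agent.Helper65.RG

/-- the Hilbert–Schmidt bound -/
lemma kb_hs {ι : Type*} [Fintype ι] {K L : ι → ι → ℝ} {κ : ℝ} (hκ : 0 ≤ κ)
    (hK : ∀ i j, K i j ≤ L i j) (hL : ∑ i, ∑ j, L i j ^ 2 ≤ κ ^ 2) : KB K κ := by
  intro x y hx hy
  have h1 := cs (ι := ι × ι) (fun p => L p.1 p.2) (fun p => y p.1 * x p.2)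
  have e1 : ∑ p : ι × ι, L p.1 p.2 ^ 2 = ∑ i, ∑ j, L i j ^ 2 := Fintype.sum_prod_type _
  have e2 : ∑ p : ι × ι, (y p.1 * x p.2) ^ 2 = (∑ i, y i ^ 2) * ∑ i, x i ^ 2 := by
    rw [Fintype.sum_prod_type, sum_mul_sum]
    refine sum_congr rfl fun i _ => sum_congr rfl fun j _ => ?_
    ring
  calc ∑ i, ∑ j, K i j * x j * y i ≤ ∑ p : ι × ι, L p.1 p.2 * (y p.1 * x p.2) := by
        rw [Fintype.sum_prod_type]
        refine sum_le_sum fun i _ => sum_le_sum fun j _ => ?_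
        have := mul_le_mul_of_nonneg_right (hK i j) (mul_nonneg (hy i) (hx j))
        linarith
    _ ≤ √(∑ p : ι × ι, L p.1 p.2 ^ 2) * √(∑ p : ι × ι, (y p.1 * x p.2) ^ 2) := h1
    _ ≤ κ * √(∑ p : ι × ι, (y p.1 * x p.2) ^ 2) := by
        apply mul_le_mul_of_nonneg_right _ (Real.sqrt_nonneg _)
        rw [e1]
        exact (Real.sqrt_le_sqrt hL).trans (Real.sqrt_sq hκ).le
    _ = κ * (√(∑ i, x i ^ 2) * √(∑ i, y i ^ 2)) := by
        rw [e2, Real.sqrt_mul (sum_nonneg fun i _ => sq_nonneg _)]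
        ring

lemma arith_geom {q : ℝ} (hq0 : 0 ≤ q) (hq1 : q ≤ 1) (K : ℕ) :
    (1 - q) ^ 2 * ∑ k ∈ range K, q ^ (k + 1) * ((k : ℝ) + 1) ≤ q := by
  have h : (1 - q) ^ 2 * ∑ k ∈ range K, q ^ (k + 1) * ((k : ℝ) + 1) =
      q - (K + 1) * q ^ (K + 1) + K * q ^ (K + 2) := by
    induction K with
    | zero => simp
    | succ K ih =>
      rw [sum_range_succ, mul_add, ih]
      push_cast
      ring
  rw [h]
  have h1 : q ^ (K + 2) ≤ q ^ (K + 1) := pow_le_pow_of_le_one hq0 hq1 (by omega)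
  have h2 : 0 ≤ q ^ (K + 1) := by positivity
  have h3 : (K : ℝ) * q ^ (K + 2) ≤ K * q ^ (K + 1) :=
    mul_le_mul_of_nonneg_left h1 (Nat.cast_nonneg K)
  nlinarith

lemma sum_fin_le {f : ℕ → ℝ} {N i : ℕ} (hi : i ≤ N) :
    ∑ j : Fin (N + 1), (if (j : ℕ) ≤ i then f j else 0) = ∑ j ∈ range (i + 1), f j := by
  rw [Fin.sum_univ_eq_sum_range (fun j => if j ≤ i then f j else 0) (N + 1)]
  symm
  have h1 : ∑ j ∈ range (i + 1), f j = ∑ j ∈ range (i + 1), (if j ≤ i then f j else 0) := by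
    refine sum_congr rfl fun j hj => ?_
    rw [mem_range] at hj
    rw [if_pos (by omega)]
  rw [h1]
  apply sum_subset
  · intro j hj
    rw [mem_range] at *
    omega
  · intro j _ hj
    rw [mem_range] at hj
    rw [if_neg (by omega)]

/-- the one-sided kernel -/
lemma kbA {φ : ℕ → ℝ} {B δ : ℝ} {N : ℕ} (hφ : ∀ i, 0 < φ i)
    (hd : ∀ i j, i + 1 ≤ 2 * (j + 1) → φ i ≤ 2 * φ j) (hB0 : 0 ≤ B)
    (hB : ∀ i, i ≤ N → φ i ^ 2 * ∑ j ∈ range (i + 1), (φ j ^ 2)⁻¹ ≤ B * ((i : ℝ) + 1))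
    (hδ : 0 < δ) (hδ1 : δ ≤ 1) :
    KB (fun i j : Fin (N + 1) => k1 δ i j * (φ i / φ j)) ((2 + √(2 * B)) * δ⁻¹) := by
  have h1 : KB (fun i j : Fin (N + 1) =>
      if (i : ℕ) + 1 ≤ 2 * (j + 1) then k1 δ i j * (φ i / φ j) else 0) (2 * δ⁻¹) := by
    refine ((kb1 hδ N).smul (c := 2) (by norm_num)).mono ?_ le_rfl
    intro i j
    have hk := k1_nonneg hδ (i : ℕ) j
    split_ifs with h
    · have h2 : φ i / φ j ≤ 2 := by
        rw [div_le_iff₀ (hφ _)]
        exact hd i j h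
      calc k1 δ i j * (φ i / φ j) ≤ k1 δ i j * 2 := mul_le_mul_of_nonneg_left h2 hk
        _ = 2 * k1 δ i j := by ring
    · positivity
  have h2 : KB (fun i j : Fin (N + 1) =>
      if (i : ℕ) + 1 ≤ 2 * (j + 1) then 0 else k1 δ i j * (φ i / φ j)) (√(2 * B) * δ⁻¹) := by
    refine kb_hs (by positivity) (fun i j => le_rfl) ?_
    set q : ℝ := (1 + δ)⁻¹ with hq
    have hq0 : 0 < q := by positivity
    have hq1 : q ≤ 1 := inv_le_one_of_one_le₀ (by linarith)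
    have hterm : ∀ i j : Fin (N + 1),
        (if (i : ℕ) + 1 ≤ 2 * (j + 1) then 0 else k1 δ i j * (φ i / φ j)) ^ 2 ≤
        if (j : ℕ) ≤ i then q ^ ((i : ℕ) + 1) * φ i ^ 2 * (φ j ^ 2)⁻¹ else 0 := by
      intro i j
      have p1 := hφ i
      have p2 := hφ j
      by_cases hij : (j : ℕ) ≤ i
      · rw [if_pos hij]
        split_ifs with h
        · rw [zero_pow two_ne_zero]
          positivity
        · have e : (k1 δ i j * (φ i / φ j)) ^ 2 =
              q ^ (((i : ℕ) - j + 1) * 2) * (φ i ^ 2 * (φ j ^ 2)⁻¹) := by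
            unfold k1
            rw [if_pos hij, mul_pow, ← pow_mul, div_pow, div_eq_mul_inv]
          have e2 : q ^ (((i : ℕ) - j + 1) * 2) ≤ q ^ ((i : ℕ) + 1) :=
            pow_le_pow_of_le_one hq0.le hq1 (by omega)
          rw [e, mul_assoc]
          exact mul_le_mul_of_nonneg_right e2 (by positivity)
      · rw [if_neg hij]
        have : k1 δ i j = 0 := by
          unfold k1
          rw [if_neg hij]
        rw [this]
        simp
    calc ∑ i : Fin (N + 1), ∑ j : Fin (N + 1),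
          (if (i : ℕ) + 1 ≤ 2 * (j + 1) then 0 else k1 δ i j * (φ i / φ j)) ^ 2
        ≤ ∑ i : Fin (N + 1), ∑ j : Fin (N + 1),
          (if (j : ℕ) ≤ i then q ^ ((i : ℕ) + 1) * φ i ^ 2 * (φ j ^ 2)⁻¹ else 0) :=
          sum_le_sum fun i _ => sum_le_sum fun j _ => hterm i j
      _ ≤ ∑ i : Fin (N + 1), B * (q ^ ((i : ℕ) + 1) * (((i : ℕ) : ℝ) + 1)) := by
          refine sum_le_sum fun i _ => ?_
          have hi : (i : ℕ) ≤ N := by have := i.isLt; omega
          rw [sum_fin_le (f := fun j => q ^ ((i : ℕ) + 1) * φ i ^ 2 * (φ j ^ 2)⁻¹) hi, ← mul_sum]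
          have := mul_le_mul_of_nonneg_left (hB i hi) (pow_pos hq0 ((i : ℕ) + 1)).le
          calc q ^ ((i : ℕ) + 1) * φ i ^ 2 * ∑ j ∈ range ((i : ℕ) + 1), (φ j ^ 2)⁻¹
              = q ^ ((i : ℕ) + 1) * (φ i ^ 2 * ∑ j ∈ range ((i : ℕ) + 1), (φ j ^ 2)⁻¹) := by ring
            _ ≤ q ^ ((i : ℕ) + 1) * (B * (((i : ℕ) : ℝ) + 1)) := this
            _ = _ := by ring
      _ = B * ∑ k ∈ range (N + 1), q ^ (k + 1) * ((k : ℝ) + 1) := by
          rw [← mul_sum, Fin.sum_univ_eq_sum_range (fun k => q ^ (k + 1) * ((k : ℝ) + 1)) (N + 1)]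
      _ ≤ B * (2 * (δ⁻¹) ^ 2) := by
          apply mul_le_mul_of_nonneg_left _ hB0
          have h3 := arith_geom hq0.le hq1 (N + 1)
          have e3 : 1 - q = δ * q := by
            rw [hq]
            field_simp
            ring
          rw [e3] at h3
          set X := ∑ k ∈ range (N + 1), q ^ (k + 1) * ((k : ℝ) + 1) with hX
          have h4 : δ ^ 2 * q * X ≤ 1 := by
            have : q * (δ ^ 2 * q * X) ≤ q * 1 := by
              calc q * (δ ^ 2 * q * X) = (δ * q) ^ 2 * X := by ring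
                _ ≤ q := h3
                _ = q * 1 := by ring
            exact le_of_mul_le_mul_left this hq0
          have hq2 : 1 / 2 ≤ q := by
            rw [hq, one_div]
            exact inv_anti₀ (by positivity) (by linarith)
          have hX0 : 0 ≤ X := sum_nonneg fun k _ => by positivity
          have h5 : δ ^ 2 * X ≤ 2 := by
            have : δ ^ 2 * X * (1 / 2) ≤ δ ^ 2 * X * q := by gcongr
            nlinarith
          calc X = (δ ^ 2 * X) * (δ⁻¹) ^ 2 := by field_simp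
            _ ≤ 2 * (δ⁻¹) ^ 2 := by gcongr
      _ = (√(2 * B) * δ⁻¹) ^ 2 := by
          rw [mul_pow, Real.sq_sqrt (by positivity)]
          ring
  have h3 := (h1.add h2).mono (K := fun i j : Fin (N + 1) => k1 δ i j * (φ i / φ j))
    (D := (2 + √(2 * B)) * δ⁻¹) ?_ (le_of_eq (by ring))
  · exact h3
  · intro i j
    split_ifs <;> simp

/-- the kernel with the weights `φ i / φ (N - i)` -/
lemma kbW {φ : ℕ → ℝ} {B B2 δ : ℝ} {N : ℕ} (hφ : ∀ i, 0 < φ i) (hm : ∀ i j, i ≤ j → φ i ≤ φ j)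
    (hd : ∀ i j, i + 1 ≤ 2 * (j + 1) → φ i ≤ 2 * φ j)
    (hd4 : ∀ i j, i + 1 ≤ 4 * (j + 1) → φ i ≤ 4 * φ j) (hB0 : 0 ≤ B)
    (hB : ∀ i, i ≤ N → φ i ^ 2 * ∑ j ∈ range (i + 1), (φ j ^ 2)⁻¹ ≤ B * ((i : ℝ) + 1))
    (hB2 : φ N ^ 2 * ∑ j ∈ range (N + 1), (φ j ^ 2)⁻¹ ≤ B2 * ((N : ℝ) + 1))
    (hδ : 0 < δ) (hδ1 : δ ≤ 1) :
    KB (fun i j : Fin (N + 1) => k1 δ i j * ((φ i / φ (N - i)) / (φ j / φ (N - j))))
      ((24 + 4 * √(2 * B) + 4 * B2) * δ⁻¹) := by
  have hA := kbA (N := N) hφ hd hB0 hB hδ hδ1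
  have hR : KB (fun i j : Fin (N + 1) => k1 δ i j * (φ (N - j) / φ (N - i)))
      ((2 + √(2 * B)) * δ⁻¹) := by
    have h2 := (hA.transpose).reindex (Fin.revPerm)
    simp only [Fin.revPerm_apply] at h2
    refine h2.mono ?_ le_rfl
    intro i j
    have hi := i.isLt
    have hj := j.isLt
    simp only [Fin.val_rev]
    have e1 : N + 1 - ((i : ℕ) + 1) = N - i := by omega
    have e2 : N + 1 - ((j : ℕ) + 1) = N - j := by omega
    rw [e1, e2]
    unfold k1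
    by_cases h : (j : ℕ) ≤ i
    · rw [if_pos h, if_pos (by omega)]
      have e3 : N - (j : ℕ) - (N - i) = i - j := by omega
      rw [e3]
    · rw [if_neg h, if_neg (by omega), zero_mul]
  set D : ℝ := 4 / (δ * ((N : ℝ) + 1)) * φ N ^ 2 with hD
  have hDp : 0 ≤ D := by positivity
  have hC : KB (fun i j : Fin (N + 1) => D * ((φ (N - i))⁻¹ * (φ j)⁻¹)) (4 * B2 * δ⁻¹) := by
    have h1 := (KB.rankOne (K := fun i j : Fin (N + 1) => (φ (N - i))⁻¹ * (φ j)⁻¹)
      (u := fun i : Fin (N + 1) => (φ (N - i))⁻¹) (v := fun j : Fin (N + 1) => (φ j)⁻¹)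
      (fun i j => le_rfl)).smul hDp
    refine h1.mono (fun i j => le_rfl) ?_
    have e1 : ∑ i : Fin (N + 1), ((φ (N - i))⁻¹) ^ 2 = ∑ j ∈ range (N + 1), (φ j ^ 2)⁻¹ := by
      rw [← Equiv.sum_comp Fin.revPerm,
        ← Fin.sum_univ_eq_sum_range (fun j => (φ j ^ 2)⁻¹) (N + 1)]
      refine sum_congr rfl fun i _ => ?_
      rw [Fin.revPerm_apply, Fin.val_rev]
      have : N - (N + 1 - ((i : ℕ) + 1)) = i := by have := i.isLt; omega
      rw [this, inv_pow]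
    have e2 : ∑ i : Fin (N + 1), ((φ i)⁻¹) ^ 2 = ∑ j ∈ range (N + 1), (φ j ^ 2)⁻¹ := by
      rw [← Fin.sum_univ_eq_sum_range (fun j => (φ j ^ 2)⁻¹) (N + 1)]
      refine sum_congr rfl fun i _ => ?_
      rw [inv_pow]
    rw [e1, e2, Real.mul_self_sqrt (sum_nonneg fun i _ => by positivity)]
    calc D * ∑ j ∈ range (N + 1), (φ j ^ 2)⁻¹
        = 4 / (δ * ((N : ℝ) + 1)) * (φ N ^ 2 * ∑ j ∈ range (N + 1), (φ j ^ 2)⁻¹) := by
          rw [hD]; ring
      _ ≤ 4 / (δ * ((N : ℝ) + 1)) * (B2 * ((N : ℝ) + 1)) := by gcongr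
      _ = 4 * B2 * δ⁻¹ := by field_simp
  have hS := (((hA.smul (c := 2) (by norm_num)).add (hR.smul (c := 2) (by norm_num))).add
    hC).add ((kb1 hδ N).smul (c := 16) (by norm_num))
  refine hS.mono ?_ (le_of_eq (by ring))
  intro i j
  have p1 := hφ i
  have p2 := hφ j
  have p3 := hφ (N - i)
  have p4 := hφ (N - j)
  have hk := k1_nonneg hδ (i : ℕ) j
  have hi := i.isLt
  have hj := j.isLt
  have e0 : (φ i / φ (N - i)) / (φ j / φ (N - j)) = (φ i / φ j) * (φ (N - j) / φ (N - i)) := by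
    field_simp
  rw [e0]
  have t1 : 0 ≤ 2 * (k1 δ i j * (φ i / φ j)) := by positivity
  have t2 : 0 ≤ 2 * (k1 δ i j * (φ (N - j) / φ (N - i))) := by positivity
  have t3 : 0 ≤ D * ((φ (N - i))⁻¹ * (φ j)⁻¹) := by positivity
  have t4 : 0 ≤ 16 * k1 δ i j := by positivity
  by_cases hij : (j : ℕ) ≤ i
  swap
  · have : k1 δ i j = 0 := by
      unfold k1
      rw [if_neg hij]
    rw [this] at *
    linarith
  by_cases h1 : 2 * (i : ℕ) ≤ N
  · have h2 : φ (N - j) / φ (N - i) ≤ 2 := by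
      rw [div_le_iff₀ p3]
      exact hd _ _ (by omega)
    have : k1 δ i j * ((φ i / φ j) * (φ (N - j) / φ (N - i))) ≤
        2 * (k1 δ i j * (φ i / φ j)) := by
      calc k1 δ i j * ((φ i / φ j) * (φ (N - j) / φ (N - i)))
          = (k1 δ i j * (φ i / φ j)) * (φ (N - j) / φ (N - i)) := by ring
        _ ≤ (k1 δ i j * (φ i / φ j)) * 2 := mul_le_mul_of_nonneg_left h2 (by positivity)
        _ = _ := by ring
    linarith
  by_cases h3 : N ≤ 2 * (j : ℕ)
  · have h2 : φ i / φ j ≤ 2 := by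
      rw [div_le_iff₀ p2]
      exact hd _ _ (by omega)
    have : k1 δ i j * ((φ i / φ j) * (φ (N - j) / φ (N - i))) ≤
        2 * (k1 δ i j * (φ (N - j) / φ (N - i))) := by
      calc k1 δ i j * ((φ i / φ j) * (φ (N - j) / φ (N - i)))
          = (k1 δ i j * (φ (N - j) / φ (N - i))) * (φ i / φ j) := by ring
        _ ≤ (k1 δ i j * (φ (N - j) / φ (N - i))) * 2 := mul_le_mul_of_nonneg_left h2 (by positivity)
        _ = _ := by ring
    linarith
  by_cases h4 : N + 1 ≤ 4 * ((i : ℕ) - j + 2)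
  · have h5 : k1 δ i j ≤ 4 / (δ * ((N : ℝ) + 1)) := by
      unfold k1
      rw [if_pos hij]
      refine (decay1 hδ hδ1 _).trans ?_
      have h6 : ((N : ℝ) + 1) ≤ 4 * (1 + (((i : ℕ) - j + 1 : ℕ) : ℝ)) := by
        have : ((N + 1 : ℕ) : ℝ) ≤ ((4 * ((i : ℕ) - j + 2) : ℕ) : ℝ) := by exact_mod_cast h4
        push_cast at this ⊢
        linarith
      have h7 : 0 < 1 + (((i : ℕ) - j + 1 : ℕ) : ℝ) := by positivity
      rw [← mul_inv, div_eq_mul_inv, inv_le_iff_one_le_mul₀ (by positivity)]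
      have h8 : 4 * (δ * ((N : ℝ) + 1))⁻¹ * (δ * (1 + (((i : ℕ) - j + 1 : ℕ) : ℝ))) =
          (4 * (1 + (((i : ℕ) - j + 1 : ℕ) : ℝ))) / ((N : ℝ) + 1) := by
        field_simp
      rw [h8, le_div_iff₀ (by positivity), one_mul]
      exact h6
    have h6 : (φ i / φ j) * (φ (N - j) / φ (N - i)) ≤ φ N ^ 2 * ((φ (N - i))⁻¹ * (φ j)⁻¹) := by
      have q1 : φ i ≤ φ N := hm _ _ (by omega)
      have q2 : φ (N - j) ≤ φ N := hm _ _ (by omega)
      calc (φ i / φ j) * (φ (N - j) / φ (N - i))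
          = (φ i * φ (N - j)) * ((φ (N - i))⁻¹ * (φ j)⁻¹) := by
            rw [div_eq_mul_inv, div_eq_mul_inv]; ring
        _ ≤ (φ N * φ N) * ((φ (N - i))⁻¹ * (φ j)⁻¹) := by
            apply mul_le_mul_of_nonneg_right _ (by positivity)
            exact mul_le_mul q1 q2 p4.le (hφ N).le
        _ = _ := by ring
    have : k1 δ i j * ((φ i / φ j) * (φ (N - j) / φ (N - i))) ≤
        D * ((φ (N - i))⁻¹ * (φ j)⁻¹) := by
      calc k1 δ i j * ((φ i / φ j) * (φ (N - j) / φ (N - i)))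
          ≤ (4 / (δ * ((N : ℝ) + 1))) * (φ N ^ 2 * ((φ (N - i))⁻¹ * (φ j)⁻¹)) :=
            mul_le_mul h5 h6 (by positivity) (by positivity)
        _ = _ := by rw [hD]; ring
    linarith
  · have h5 : φ i / φ j ≤ 4 := by
      rw [div_le_iff₀ p2]
      exact hd4 _ _ (by omega)
    have h6 : φ (N - j) / φ (N - i) ≤ 4 := by
      rw [div_le_iff₀ p3]
      exact hd4 _ _ (by omega)
    have : k1 δ i j * ((φ i / φ j) * (φ (N - j) / φ (N - i))) ≤ 16 * k1 δ i j := by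
      calc k1 δ i j * ((φ i / φ j) * (φ (N - j) / φ (N - i)))
          ≤ k1 δ i j * (4 * 4) := by
            apply mul_le_mul_of_nonneg_left _ hk
            exact mul_le_mul h5 h6 (by positivity) (by norm_num)
        _ = _ := by ring
    linarith

end Pool.Agent.Helper57.KR
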