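import Pool.Agent.Helper57.KR.Main
import Pool.Agent.Helper57.KR.Ker

/-!
# The kernel inequality for the norms of an orbit
-/

set_option autoImplicit false

namespace Pool.Agent.Helper57.KR

open Finset Filter Topology Pool.Agent.Helper65.RG

universe u

section

variable {H : Type u} [NormedAddCommGroup H] [InnerProductSpace ℂ H] [CompleteSpace H]

/-- the Plancherel estimate, finite form with the sharp constant -/
lemma planch2 {c : ℝ} (hc : 0 ≤ c) {T : H →L[ℂ] H} (hs : spectrum ℂ T ⊆ Metric.closedBall 0 1)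
    (hT : ∀ z : ℂ, 1 < ‖z‖ → ‖z‖ ≤ 2 → ‖resolvent T z‖ ≤ c / (‖z‖ - 1)) {r : ℝ} (h1 : 1 < r)
    (h2 : r ≤ 2) (cs : ℕ → ℝ) (x : H) (L : ℕ) :
    ∑ i ∈ range (L + 1), bb cs r i ^ 2 * ‖(T ^ i) x‖ ^ 2 ≤
      (c / (r - 1)) ^ 2 * (∑ i ∈ range (L + 1), cs i ^ 2 * ‖(T ^ i) x‖ ^ 2 +
        2 * (|bb cs r L| * ‖(T ^ (L + 1)) x‖) * ∑ i ∈ range (L + 1), |cs i| * ‖(T ^ i) x‖ +
        (|bb cs r L| * ‖(T ^ (L + 1)) x‖) ^ 2) := by
  have hr : r ≠ 0 := by linarith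
  obtain ⟨ζ, hζ⟩ : ∃ ζ : ℂ, IsPrimitiveRoot ζ (L + 1) :=
    ⟨_, Complex.isPrimitiveRoot_exp (L + 1) (by omega)⟩
  have hζn : ‖ζ‖ = 1 := hζ.norm'_eq_one (by omega)
  have p1 := parseval hζ le_rfl (fun i => (bb cs r i : ℂ) • (T ^ i) x)
  have p2 := parseval hζ le_rfl (fun i => (cs i : ℂ) • (T ^ i) x)
  have hA : 0 ≤ c / (r - 1) := div_nonneg hc (by linarith)
  set e : ℝ := |bb cs r L| * ‖(T ^ (L + 1)) x‖ with he
  have he0 : 0 ≤ e := by positivity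
  set P1 : ℝ := ∑ i ∈ range (L + 1), |cs i| * ‖(T ^ i) x‖ with hP1
  have hk : ∀ k ∈ range (L + 1),
      ‖∑ i ∈ range (L + 1), (ζ ^ (k * i)) • ((bb cs r i : ℂ) • (T ^ i) x)‖ ^ 2 ≤
      (c / (r - 1)) ^ 2 * (‖∑ i ∈ range (L + 1), (ζ ^ (k * i)) • ((cs i : ℂ) • (T ^ i) x)‖ ^ 2 +
        (2 * e * P1 + e ^ 2)) := by
    intro k _
    have hω : ‖ζ ^ k‖ = 1 := by rw [norm_pow, hζn, one_pow]
    have hi := ident (c := cs) hr T x (ζ ^ k) L
    have hb := res_bound hs hT h1 h2 hω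
      (∑ i ∈ range (L + 1), (ζ ^ k) ^ i • ((bb cs r i : ℂ) • (T ^ i) x))
    rw [hi] at hb
    simp only [← pow_mul] at hb
    set q := ∑ i ∈ range (L + 1), (ζ ^ (k * i)) • ((bb cs r i : ℂ) • (T ^ i) x) with hq
    set p := ∑ i ∈ range (L + 1), (ζ ^ (k * i)) • ((cs i : ℂ) • (T ^ i) x) with hp
    have h3 : ‖p - ζ ^ (k * (L + 1)) • ((bb cs r L : ℂ) • (T ^ (L + 1)) x)‖ ≤ ‖p‖ + e := by
      refine (norm_sub_le _ _).trans ?_
      rw [norm_smul, norm_smul, norm_pow, hζn, one_pow, one_mul, Complex.norm_real,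
        Real.norm_eq_abs]
    have h5 : ‖p‖ ≤ P1 := by
      rw [hp, hP1]
      refine (norm_sum_le _ _).trans (sum_le_sum fun i _ => ?_)
      rw [norm_smul, norm_smul, norm_pow, hζn, one_pow, one_mul, Complex.norm_real,
        Real.norm_eq_abs]
    have h4 : ‖q‖ ≤ c / (r - 1) * (‖p‖ + e) := hb.trans (by gcongr)
    calc ‖q‖ ^ 2 ≤ (c / (r - 1) * (‖p‖ + e)) ^ 2 := by gcongr
      _ = (c / (r - 1)) ^ 2 * (‖p‖ ^ 2 + (2 * e * ‖p‖ + e ^ 2)) := by ring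
      _ ≤ (c / (r - 1)) ^ 2 * (‖p‖ ^ 2 + (2 * e * P1 + e ^ 2)) := by gcongr
  have hsum := sum_le_sum hk
  rw [p1, ← mul_sum, sum_add_distrib, p2, sum_const, card_range, nsmul_eq_mul] at hsum
  have hN : (0 : ℝ) < ((L + 1 : ℕ) : ℝ) := by positivity
  have e1 : ∀ (f : ℕ → ℝ), ∑ i ∈ range (L + 1), ‖(f i : ℂ) • (T ^ i) x‖ ^ 2 =
      ∑ i ∈ range (L + 1), f i ^ 2 * ‖(T ^ i) x‖ ^ 2 := by
    intro f
    refine sum_congr rfl fun i _ => ?_
    rw [norm_smul, Complex.norm_real, Real.norm_eq_abs, mul_pow, sq_abs]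
  rw [e1, e1] at hsum
  refine le_of_mul_le_mul_left ?_ hN
  refine hsum.trans (le_of_eq ?_)
  ring

/-- the Plancherel estimate after the limit `L → ∞` -/
lemma lim2 {c : ℝ} (hc : 0 ≤ c) {T : H →L[ℂ] H} (hs : spectrum ℂ T ⊆ Metric.closedBall 0 1)
    (hT : ∀ z : ℂ, 1 < ‖z‖ → ‖z‖ ≤ 2 → ‖resolvent T z‖ ≤ c / (‖z‖ - 1)) {r : ℝ} (h1 : 1 < r)
    (h2 : r ≤ 2) {M : ℝ} (hM : ∀ n : ℕ, ‖T ^ n‖ ≤ M * (1 + (n : ℝ)))
    (cs : ℕ → ℝ) {m : ℕ} (hcs : ∀ j, m ≤ j → cs j = 0) (x : H) :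
    ∑ i ∈ range m, bb cs r i ^ 2 * ‖(T ^ i) x‖ ^ 2 ≤
      (c / (r - 1)) ^ 2 * ∑ i ∈ range m, cs i ^ 2 * ‖(T ^ i) x‖ ^ 2 := by
  set P := ∑ j ∈ range m, cs j * r ^ j with hP
  set P1 := ∑ j ∈ range m, |cs j| * ‖(T ^ j) x‖ with hP1
  have hr0 : 0 < r := by linarith
  have hbb : ∀ L, m ≤ L + 1 → bb cs r L = P / r ^ (L + 1) := by
    intro L hL
    unfold bb
    congr 1
    rw [hP]
    symm
    apply sum_subset
    · intro j hj
      rw [mem_range] at *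
      omega
    · intro j _ hj2
      rw [mem_range, not_lt] at hj2
      rw [hcs j hj2, zero_mul]
  have ha : Tendsto (fun n : ℕ => (1 + (n : ℝ)) / r ^ n) atTop (𝓝 0) := by
    have t1 := tendsto_pow_const_div_const_pow_of_one_lt 1 h1
    have t0 := tendsto_pow_const_div_const_pow_of_one_lt 0 h1
    have := t0.add t1
    simp only [pow_zero, pow_one, add_zero] at this
    refine this.congr fun n => ?_
    ring
  have hb : Tendsto (fun n : ℕ => (|P| * (M * ‖x‖)) * ((1 + (n : ℝ)) / r ^ n)) atTop (𝓝 0) := by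
    simpa using ha.const_mul (|P| * (M * ‖x‖))
  have hc' : Tendsto (fun n : ℕ => |P / r ^ n| * ‖(T ^ n) x‖) atTop (𝓝 0) := by
    refine squeeze_zero (fun n => by positivity) (fun n => ?_) hb
    have h3 : ‖(T ^ n) x‖ ≤ M * (1 + (n : ℝ)) * ‖x‖ :=
      (ContinuousLinearMap.le_opNorm _ _).trans (by gcongr; exact hM n)
    rw [abs_div, abs_of_pos (show 0 < r ^ n by positivity)]
    calc |P| / r ^ n * ‖(T ^ n) x‖ ≤ |P| / r ^ n * (M * (1 + (n : ℝ)) * ‖x‖) := by gcongr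
      _ = _ := by ring
  have hd : Tendsto (fun n : ℕ => ∑ i ∈ range m, cs i ^ 2 * ‖(T ^ i) x‖ ^ 2 +
      2 * (|P / r ^ n| * ‖(T ^ n) x‖) * P1 + (|P / r ^ n| * ‖(T ^ n) x‖) ^ 2) atTop
      (𝓝 (∑ i ∈ range m, cs i ^ 2 * ‖(T ^ i) x‖ ^ 2 + 2 * 0 * P1 + 0 ^ 2)) :=
    (((hc'.const_mul 2).mul_const P1).const_add _).add (hc'.pow 2)
  have hlim := hd.const_mul ((c / (r - 1)) ^ 2)
  have e0 : ∑ i ∈ range m, cs i ^ 2 * ‖(T ^ i) x‖ ^ 2 + 2 * 0 * P1 + 0 ^ 2 =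
      ∑ i ∈ range m, cs i ^ 2 * ‖(T ^ i) x‖ ^ 2 := by ring
  rw [e0] at hlim
  refine ge_of_tendsto hlim ?_
  filter_upwards [eventually_ge_atTop (m + 1)] with n hn
  obtain ⟨L, rfl⟩ : ∃ L, n = L + 1 := ⟨n - 1, by omega⟩
  have hp := planch2 hc hs hT h1 h2 cs x L
  rw [hbb L (by omega)] at hp
  have hsub : ∀ f : ℕ → ℝ, (∀ j, m ≤ j → f j = 0) →
      ∑ i ∈ range (L + 1), f i = ∑ i ∈ range m, f i := by
    intro f hf
    symm
    apply sum_subset
    · intro j hj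
      rw [mem_range] at *
      omega
    · intro j _ hj2
      rw [mem_range, not_lt] at hj2
      exact hf j hj2
  rw [hsub (fun i => cs i ^ 2 * ‖(T ^ i) x‖ ^ 2) (fun j hj => by simp [hcs j hj]),
    hsub (fun i => |cs i| * ‖(T ^ i) x‖) (fun j hj => by simp [hcs j hj])] at hp
  refine le_trans ?_ hp
  apply sum_le_sum_of_subset_of_nonneg
  · intro j hj
    rw [mem_range] at *
    omega
  · intro j _ _
    positivity

end

/-- the kernel inequality with constant `c` for the weights `w` on `{0, …, n}` -/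
def KP (c : ℝ) (n : ℕ) (w : ℕ → ℝ) : Prop := ∀ δ : ℝ, 0 < δ → δ ≤ 1 →
  KB (fun i j : Fin (n + 1) => k1 δ i j * (w i / w j)) (c / δ)

lemma KP_of_orbit {H : Type u} [NormedAddCommGroup H] [InnerProductSpace ℂ H] [CompleteSpace H]
    {c : ℝ} (hc : 0 ≤ c) {T : H →L[ℂ] H} (hs : spectrum ℂ T ⊆ Metric.closedBall 0 1)
    (hT : ∀ z : ℂ, 1 < ‖z‖ → ‖z‖ ≤ 2 → ‖resolvent T z‖ ≤ c / (‖z‖ - 1))
    {M : ℝ} (hM : ∀ n : ℕ, ‖T ^ n‖ ≤ M * (1 + (n : ℝ))) (x : H) (n : ℕ)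
    (hpos : ∀ i, i ≤ n → 0 < ‖(T ^ i) x‖) : KP c n (fun i => ‖(T ^ i) x‖) := by
  intro δ hδ hδ1 X Y hX hY
  set w : ℕ → ℝ := fun i => ‖(T ^ i) x‖ with hw
  set cs : ℕ → ℝ := fun j => if h : j < n + 1 then X ⟨j, h⟩ / w j else 0 with hcs
  have hcs0 : ∀ j, n + 1 ≤ j → cs j = 0 := by
    intro j hj
    simp only [hcs]
    rw [dif_neg (by omega)]
  have hL := lim2 hc hs hT (r := 1 + δ) (by linarith) (by linarith) hM cs hcs0 x
  rw [add_sub_cancel_left] at hL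
  have e1 : ∑ i ∈ range (n + 1), cs i ^ 2 * ‖(T ^ i) x‖ ^ 2 = ∑ i : Fin (n + 1), X i ^ 2 := by
    rw [← Fin.sum_univ_eq_sum_range (fun i => cs i ^ 2 * ‖(T ^ i) x‖ ^ 2) (n + 1)]
    refine sum_congr rfl fun i _ => ?_
    simp only [hcs]
    rw [dif_pos i.isLt]
    have := hpos i (by have := i.isLt; omega)
    simp only [hw]
    field_simp
  rw [e1] at hL
  rw [← Fin.sum_univ_eq_sum_range (fun i => bb cs (1 + δ) i ^ 2 * ‖(T ^ i) x‖ ^ 2) (n + 1)] at hL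
  have e2 : ∀ i : Fin (n + 1), ∑ j : Fin (n + 1), k1 δ i j * (w i / w j) * X j * Y i =
      (bb cs (1 + δ) i * w i) * Y i := by
    intro i
    have hi : (i : ℕ) ≤ n := by have := i.isLt; omega
    have e3 : ∑ j : Fin (n + 1), k1 δ i j * (w i / w j) * X j * Y i =
        ∑ j : Fin (n + 1), (if (j : ℕ) ≤ i then
          (1 + δ) ^ (j : ℕ) / (1 + δ) ^ ((i : ℕ) + 1) * cs j * (w i * Y i) else 0) := by
      refine sum_congr rfl fun j _ => ?_
      unfold k1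
      split_ifs with h
      · have hj : (j : ℕ) < n + 1 := j.isLt
        have hcj : cs j = X j / w j := by
          simp only [hcs]
          rw [dif_pos hj]
        rw [hcj]
        have hp : (0 : ℝ) < 1 + δ := by linarith
        have hpow : ((1 + δ)⁻¹) ^ ((i : ℕ) - j + 1) = (1 + δ) ^ (j : ℕ) / (1 + δ) ^ ((i : ℕ) + 1) := by
          rw [inv_pow, eq_div_iff (by positivity), inv_mul_eq_div, div_eq_iff (by positivity),
            ← pow_add]
          congr 1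
          omega
        rw [hpow]
        ring
      · ring
    rw [e3, sum_fin_le (f := fun j => (1 + δ) ^ j / (1 + δ) ^ ((i : ℕ) + 1) * cs j * (w i * Y i)) hi]
    unfold bb
    rw [div_mul_eq_mul_div, div_mul_eq_mul_div, sum_mul, sum_mul, sum_div]
    refine sum_congr rfl fun j _ => ?_
    ring
  calc ∑ i : Fin (n + 1), ∑ j : Fin (n + 1), k1 δ i j * (w i / w j) * X j * Y i
      = ∑ i : Fin (n + 1), (bb cs (1 + δ) i * w i) * Y i := sum_congr rfl fun i _ => e2 i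
    _ ≤ √(∑ i : Fin (n + 1), (bb cs (1 + δ) i * w i) ^ 2) * √(∑ i, Y i ^ 2) := cs_le _ _
    _ ≤ (c / δ * √(∑ i, X i ^ 2)) * √(∑ i, Y i ^ 2) := by
        apply mul_le_mul_of_nonneg_right _ (Real.sqrt_nonneg _)
        have h3 : ∑ i : Fin (n + 1), (bb cs (1 + δ) i * w i) ^ 2 ≤ (c / δ) ^ 2 * ∑ i, X i ^ 2 := by
          refine le_trans (le_of_eq ?_) hL
          refine sum_congr rfl fun i _ => ?_
          rw [mul_pow]
        refine (Real.sqrt_le_sqrt h3).trans (le_of_eq ?_)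
        rw [Real.sqrt_mul (by positivity), Real.sqrt_sq (by positivity)]
    _ = _ := by ring
where
  cs_le {ι : Type} [Fintype ι] (x y : ι → ℝ) :
      ∑ i, x i * y i ≤ √(∑ i, x i ^ 2) * √(∑ i, y i ^ 2) := cs x y

/-- restriction to a subset of the indices -/
lemma KB_comp {ι ι' : Type*} [Fintype ι] [Fintype ι'] {K : ι → ι → ℝ} {C : ℝ} (h : KB K C)
    (e : ι' → ι) (he : Function.Injective e) : KB (fun a b => K (e a) (e b)) C := by
  intro x y hx hy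
  set X : ι → ℝ := Function.extend e x 0 with hXd
  set Y : ι → ℝ := Function.extend e y 0 with hYd
  have hXe : ∀ a, X (e a) = x a := fun a => he.extend_apply _ _ _
  have hYe : ∀ a, Y (e a) = y a := fun a => he.extend_apply _ _ _
  have hX0 : ∀ i, i ∉ Set.range e → X i = 0 := by
    intro i hi
    rw [hXd, Function.extend_apply' _ _ _ (by simpa using hi)]
    rfl
  have hY0 : ∀ i, i ∉ Set.range e → Y i = 0 := by
    intro i hi
    rw [hYd, Function.extend_apply' _ _ _ (by simpa using hi)]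
    rfl
  have hXn : ∀ i, 0 ≤ X i := by
    intro i
    by_cases hi : i ∈ Set.range e
    · obtain ⟨a, rfl⟩ := hi
      rw [hXe]; exact hx a
    · rw [hX0 i hi]
  have hYn : ∀ i, 0 ≤ Y i := by
    intro i
    by_cases hi : i ∈ Set.range e
    · obtain ⟨a, rfl⟩ := hi
      rw [hYe]; exact hy a
    · rw [hY0 i hi]
  have key : ∀ F : ι → ℝ, (∀ i, i ∉ Set.range e → F i = 0) → ∑ i, F i = ∑ a, F (e a) := by
    intro F hF
    have h1 : ∑ a, F (e a) = ∑ i ∈ univ.map ⟨e, he⟩, F i := by rw [sum_map]; rfl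
    rw [h1]
    symm
    apply sum_subset (subset_univ _)
    intro i _ hi
    apply hF
    rintro ⟨a, rfl⟩
    exact hi (mem_map.2 ⟨a, mem_univ _, rfl⟩)
  have h1 := h X Y hXn hYn
  rw [key (fun i => X i ^ 2) (fun i hi => by rw [hX0 i hi]; ring),
    key (fun i => Y i ^ 2) (fun i hi => by rw [hY0 i hi]; ring),
    key (fun i => ∑ j, K i j * X j * Y i) (fun i hi => by
      apply sum_eq_zero
      intro j _
      rw [hY0 i hi, mul_zero])] at h1
  have h2 : ∀ a, ∑ j, K (e a) j * X j * Y (e a) = ∑ b, K (e a) (e b) * x b * y a := by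
    intro a
    rw [key (fun j => K (e a) j * X j * Y (e a)) (fun j hj => by rw [hX0 j hj]; ring)]
    refine sum_congr rfl fun b _ => ?_
    rw [hXe, hYe]
  rw [sum_congr rfl (fun a _ => h2 a)] at h1
  simp only [hXe, hYe] at h1
  exact h1

lemma KP.restrict {c : ℝ} {n m : ℕ} {w : ℕ → ℝ} (h : KP c n w) (hm : m ≤ n) : KP c m w := by
  intro δ hδ hδ1
  have := KB_comp (h δ hδ hδ1) (Fin.castLE (by omega : m + 1 ≤ n + 1))
    (Fin.castLE_injective _)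
  simpa using this

lemma KP.rev {c : ℝ} {n : ℕ} {w : ℕ → ℝ} (h : KP c n w) : KP c n (fun i => (w (n - i))⁻¹) := by
  intro δ hδ hδ1
  have h2 := ((h δ hδ hδ1).transpose).reindex (Fin.revPerm)
  simp only [Fin.revPerm_apply] at h2
  refine h2.mono ?_ le_rfl
  intro i j
  have hi := i.isLt
  have hj := j.isLt
  simp only [Fin.val_rev]
  have e1 : n + 1 - ((i : ℕ) + 1) = n - i := by omega
  have e2 : n + 1 - ((j : ℕ) + 1) = n - j := by omega
  rw [e1, e2]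
  have e4 : (w (n - i))⁻¹ / (w (n - j))⁻¹ = w (n - j) / w (n - i) := by
    rw [div_inv_eq_mul, inv_mul_eq_div]
  rw [e4]
  unfold k1
  by_cases h : (j : ℕ) ≤ i
  · rw [if_pos h, if_pos (by omega)]
    have e3 : n - (j : ℕ) - (n - i) = i - j := by omega
    rw [e3]
  · rw [if_neg h, if_neg (by omega), zero_mul]

end Pool.Agent.Helper57.KR
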