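import Pool.Agent.Helper57.KR.K2
import Mathlib.MeasureTheory.Integral.Gamma

/-!
# The integrated test
-/

set_option autoImplicit false

namespace Pool.Agent.Helper57.KR

open Finset Filter Topology Pool.Agent.Helper65.RG

lemma gamma_le {ε : ℝ} (h0 : 0 < ε) (h1 : ε < 1) : Real.Gamma (2 + ε) ≤ 2 ^ ε := by
  have h := Real.Gamma_mul_add_mul_le_rpow_Gamma_mul_rpow_Gamma (s := 2) (t := 3) (a := 1 - ε)
    (b := ε) (by norm_num) (by norm_num) (by linarith) h0 (by ring)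
  have e1 : (1 - ε) * 2 + ε * 3 = 2 + ε := by ring
  have e2 : Real.Gamma 2 = 1 := Real.Gamma_two
  have e3 : Real.Gamma 3 = 2 := by
    have := Real.Gamma_nat_eq_factorial 2
    rw [show (((2 : ℕ) : ℝ)) + 1 = 3 by norm_num] at this
    rw [this]
    norm_num [Nat.factorial]
  rw [e1, e2, e3, Real.one_rpow, one_mul] at h
  exact h

lemma int_le {ε r a b : ℝ} (h0 : 0 < ε) (h1 : ε < 1) (hr : 0 < r) (ha : 0 < a) (hab : a ≤ b) :
    ∫ t in a..b, t ^ (1 + ε) * Real.exp (-(r * t)) ≤ 2 ^ ε / r ^ (2 + ε) := by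
  have h := Real.integral_rpow_mul_exp_neg_mul_Ioi (a := 2 + ε) (r := r) (by linarith) hr
  have e : (2 + ε - 1) = 1 + ε := by ring
  rw [e] at h
  have hpos : 0 < (1 / r) ^ (2 + ε) * Real.Gamma (2 + ε) := by
    have := Real.Gamma_pos_of_pos (show 0 < 2 + ε by linarith)
    positivity
  have hint : MeasureTheory.IntegrableOn (fun t : ℝ => t ^ (1 + ε) * Real.exp (-(r * t)))
      (Set.Ioi 0) := by
    by_contra hc
    rw [MeasureTheory.integral_undef hc] at h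
    linarith
  calc ∫ t in a..b, t ^ (1 + ε) * Real.exp (-(r * t))
      = ∫ t in Set.Ioc a b, t ^ (1 + ε) * Real.exp (-(r * t)) := intervalIntegral.integral_of_le hab
    _ ≤ ∫ t in Set.Ioi 0, t ^ (1 + ε) * Real.exp (-(r * t)) := by
        apply MeasureTheory.setIntegral_mono_set hint
        · refine (MeasureTheory.ae_restrict_iff' measurableSet_Ioi).2
            (Eventually.of_forall fun t ht => ?_)
          have ht' : (0 : ℝ) < t := ht
          show (0 : ℝ) ≤ t ^ (1 + ε) * Real.exp (-(r * t))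
          positivity
        · exact (Set.Ioc_subset_Ioi_self.trans (Set.Ioi_subset_Ioi ha.le)).eventuallyLE
    _ = (1 / r) ^ (2 + ε) * Real.Gamma (2 + ε) := h
    _ ≤ (1 / r) ^ (2 + ε) * 2 ^ ε := by
        have := gamma_le h0 h1
        gcongr
    _ = 2 ^ ε / r ^ (2 + ε) := by
        rw [Real.div_rpow (by norm_num) hr.le, Real.one_rpow]
        ring

/-- the test for one value of `σ` -/
lemma pointwise {c κ σ : ℝ} {n m : ℕ} {w : ℕ → ℝ} (hc : 0 ≤ c) (h : KP c n w)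
    (hw : ∀ i, i ≤ n → 0 < w i) (hκ : 0 < κ) (hκ1 : κ ≤ 1 / 16) (hm1 : 1 ≤ m)
    (hmn : ((m : ℝ) + 1) ≤ κ ^ 2 * ((n : ℝ) + 1))
    (hσ1 : κ / ((m : ℝ) + 1) ≤ σ) (hσ2 : σ ≤ κ / m) :
    (1 - 8 * κ) ^ 2 * ∑ j ∈ range m, (w j ^ 2)⁻¹ ≤ 16 * c ^ 2 * σ ^ 2 *
      ∑ i ∈ Ico 1 (n + 1), ((i : ℝ) + 1) ^ 2 * (w i ^ 2)⁻¹ *
        Real.exp (-(2 * ((i : ℝ) + 1) * σ)) := by
  have hm0 : (0 : ℝ) < m := by exact_mod_cast hm1
  have hm1' : (1 : ℝ) ≤ m := by exact_mod_cast hm1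
  have hσ0 : 0 < σ := lt_of_lt_of_le (by positivity) hσ1
  have hσκ : σ ≤ κ := hσ2.trans (by rw [div_le_iff₀ hm0]; nlinarith)
  have hmn' : m ≤ n := by
    have h2 : κ ^ 2 ≤ 1 := pow_le_one₀ hκ.le (by linarith)
    have h3 : (m : ℝ) + 1 ≤ (n : ℝ) + 1 := by nlinarith [Nat.cast_nonneg (α := ℝ) n]
    have h4 : (m : ℝ) ≤ n := by linarith
    exact_mod_cast h4
  have hexp : Real.exp σ * Real.exp (-σ) = 1 := by rw [← Real.exp_add]; simp
  have hδσ : σ ≤ Real.exp σ - 1 := by have := Real.add_one_le_exp σ; linarith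
  have hδ1 : Real.exp σ - 1 ≤ 1 := by
    have h2 := Real.add_one_le_exp (-σ)
    have h3 := Real.exp_pos σ
    have h4 : Real.exp σ * (1 - σ) ≤ 1 := by
      calc Real.exp σ * (1 - σ) ≤ Real.exp σ * Real.exp (-σ) := by
            apply mul_le_mul_of_nonneg_left _ h3.le; linarith
        _ = 1 := hexp
    nlinarith
  have ht := test hc h hw hm1 hmn' (δ := Real.exp σ - 1) (by linarith) hδ1 (q := Real.exp (-σ))
    (by rw [Real.exp_neg]; congr 1; ring) (t := fun i => (i : ℝ) + 1) (fun i => by positivity)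
  have hq2 : Real.exp (-σ) ^ 2 = Real.exp (-(2 * σ)) := by
    rw [← Real.exp_nat_mul]; congr 1; push_cast; ring
  rw [hq2] at ht
  have hmom := moment hκ (by linarith) hm1 hmn hσ1 hσ2
  set A := ∑ i ∈ Ico m (n + 1), ((i : ℝ) + 1) * Real.exp (-(2 * σ)) ^ (i + 1) with hA
  set S := ∑ j ∈ range m, (w j ^ 2)⁻¹ with hS
  have hS0 : 0 ≤ S := sum_nonneg fun j _ => by positivity
  have hA2 : (1 - 8 * κ) ^ 2 ≤ 16 * σ ^ 4 * A ^ 2 := by
    have h8 : 0 ≤ 1 - 8 * κ := by linarith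
    calc (1 - 8 * κ) ^ 2 ≤ (4 * σ ^ 2 * A) ^ 2 := by gcongr
      _ = _ := by ring
  have hD : ∑ i ∈ Ico m (n + 1), ((i : ℝ) + 1) ^ 2 * Real.exp (-(2 * σ)) ^ (i + 1) * (w i ^ 2)⁻¹ ≤
      ∑ i ∈ Ico 1 (n + 1), ((i : ℝ) + 1) ^ 2 * (w i ^ 2)⁻¹ *
        Real.exp (-(2 * ((i : ℝ) + 1) * σ)) := by
    have e : ∀ i : ℕ, ((i : ℝ) + 1) ^ 2 * Real.exp (-(2 * σ)) ^ (i + 1) * (w i ^ 2)⁻¹ =
        ((i : ℝ) + 1) ^ 2 * (w i ^ 2)⁻¹ * Real.exp (-(2 * ((i : ℝ) + 1) * σ)) := by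
      intro i
      have : Real.exp (-(2 * σ)) ^ (i + 1) = Real.exp (-(2 * ((i : ℝ) + 1) * σ)) := by
        rw [← Real.exp_nat_mul]; congr 1; push_cast; ring
      rw [this]; ring
    simp only [e]
    apply sum_le_sum_of_subset_of_nonneg
    · intro j hj
      rw [mem_Ico] at *
      omega
    · intro j _ _
      positivity
  set D := ∑ i ∈ Ico 1 (n + 1), ((i : ℝ) + 1) ^ 2 * (w i ^ 2)⁻¹ *
        Real.exp (-(2 * ((i : ℝ) + 1) * σ)) with hDd
  have hD0 : 0 ≤ D := sum_nonneg fun j _ => by positivity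
  calc (1 - 8 * κ) ^ 2 * S ≤ 16 * σ ^ 4 * A ^ 2 * S := by gcongr
    _ = 16 * σ ^ 4 * (A ^ 2 * S) := by ring
    _ ≤ 16 * σ ^ 4 * ((c / (Real.exp σ - 1)) ^ 2 * D) := by
        refine mul_le_mul_of_nonneg_left (ht.trans ?_) (by positivity)
        exact mul_le_mul_of_nonneg_left hD (by positivity)
    _ ≤ 16 * σ ^ 4 * ((c / σ) ^ 2 * D) := by
        have h2 : c / (Real.exp σ - 1) ≤ c / σ := div_le_div_of_nonneg_left hc hσ0 hδσ
        have h3 : 0 ≤ c / (Real.exp σ - 1) := div_nonneg hc (by linarith)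
        gcongr
    _ = 16 * c ^ 2 * σ ^ 2 * D := by
        field_simp

/-- summation by parts -/
lemma abel (f s : ℕ → ℝ) (hf : f 1 = 1) (n : ℕ) :
    ∑ i ∈ Ico 1 (n + 1), s i * f (i + 1) = (∑ j ∈ range (n + 1), s j) * f (n + 1) - s 0 +
      ∑ i ∈ Ico 1 (n + 1), (∑ j ∈ range i, s j) * (f i - f (i + 1)) := by
  induction n with
  | zero => simp [hf]
  | succ n ih =>
    rw [sum_Ico_succ_top (by omega), ih, sum_Ico_succ_top (a := 1) (b := n + 1) (by omega),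
      sum_range_succ (n := n + 1)]
    ring

/-- telescoping -/
lemma telesc (f : ℕ → ℝ) {a b : ℕ} (h : a ≤ b) :
    ∑ i ∈ Ico a b, (f i - f (i + 1)) = f a - f b := by
  induction b, h using Nat.le_induction with
  | base => simp
  | succ b h ih =>
    rw [sum_Ico_succ_top h, ih]
    ring

/-- the integrated test -/
lemma integrated {c κ ε : ℝ} {n m1 : ℕ} {w : ℕ → ℝ} (hc : 0 ≤ c) (h : KP c n w)
    (hw : ∀ i, i ≤ n → 0 < w i) (hκ : 0 < κ) (hκ1 : κ ≤ 1 / 16) (h0 : 0 < ε) (h1 : ε < 1)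
    (hm : ∀ k, k < m1 → (((k + 1 : ℕ) : ℝ) + 1) ≤ κ ^ 2 * ((n : ℝ) + 1)) :
    (1 - 8 * κ) ^ 2 * (κ ^ ε / ε) * ∑ k ∈ range m1, (∑ j ∈ range (k + 1), (w j ^ 2)⁻¹) *
        (((k + 1 : ℕ) : ℝ) ^ (-ε) - (((k + 1 : ℕ) : ℝ) + 1) ^ (-ε)) ≤
      4 * c ^ 2 * ∑ i ∈ Ico 1 (n + 1), (w i ^ 2)⁻¹ * ((i : ℝ) + 1) ^ (-ε) := by
  set a : ℕ → ℝ := fun k => κ / (((k : ℕ) : ℝ) + 1) with ha
  have ha0 : ∀ k, 0 < a k := fun k => by simp only [ha]; positivity
  have hanti : ∀ k, a (k + 1) ≤ a k := by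
    intro k
    simp only [ha]
    push_cast
    gcongr
    linarith
  set f : ℝ → ℝ := fun σ => ∑ i ∈ Ico 1 (n + 1), (((i : ℝ) + 1) ^ 2 * (w i ^ 2)⁻¹) *
    (σ ^ (1 + ε) * Real.exp (-(2 * ((i : ℝ) + 1) * σ))) with hf
  have hcont1 : ∀ i : ℕ, Continuous (fun σ : ℝ => σ ^ (1 + ε) *
      Real.exp (-(2 * ((i : ℝ) + 1) * σ))) := by
    intro i
    apply Continuous.mul
    · exact continuous_id.rpow_const (fun x => Or.inr (by linarith))
    · fun_prop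
  have hcont : Continuous f := by
    simp only [hf]
    exact continuous_finsetSum _ fun i _ => continuous_const.mul (hcont1 i)
  have hstep : ∀ k, k < m1 → (1 - 8 * κ) ^ 2 * (κ ^ ε / ε) * ((∑ j ∈ range (k + 1), (w j ^ 2)⁻¹) *
        (((k + 1 : ℕ) : ℝ) ^ (-ε) - (((k + 1 : ℕ) : ℝ) + 1) ^ (-ε))) ≤
      16 * c ^ 2 * ∫ σ in a (k + 1)..a k, f σ := by
    intro k hk
    set S := ∑ j ∈ range (k + 1), (w j ^ 2)⁻¹ with hS
    have hmono := intervalIntegral.integral_mono_on (hanti k)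
      (f := fun σ => ((1 - 8 * κ) ^ 2 * S) * σ ^ (ε - 1)) (g := fun σ => 16 * c ^ 2 * f σ)
      ((intervalIntegral.intervalIntegrable_rpow' (by linarith)).const_mul _)
      ((hcont.const_smul (16 * c ^ 2)).intervalIntegrable _ _) (by
        intro σ hσ
        have hσ0 : 0 < σ := lt_of_lt_of_le (ha0 _) hσ.1
        have hp := pointwise hc h hw hκ hκ1 (m := k + 1) (by omega) (hm k hk) (σ := σ)
          (by have := hσ.1; simp only [ha] at this; exact this)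
          (by have := hσ.2; simp only [ha] at this; push_cast; exact this)
        show ((1 - 8 * κ) ^ 2 * S) * σ ^ (ε - 1) ≤ 16 * c ^ 2 * f σ
        calc ((1 - 8 * κ) ^ 2 * S) * σ ^ (ε - 1) ≤ (16 * c ^ 2 * σ ^ 2 *
              ∑ i ∈ Ico 1 (n + 1), ((i : ℝ) + 1) ^ 2 * (w i ^ 2)⁻¹ *
              Real.exp (-(2 * ((i : ℝ) + 1) * σ))) * σ ^ (ε - 1) := by gcongr
          _ = 16 * c ^ 2 * f σ := by
              have e : σ ^ (1 + ε) = σ ^ 2 * σ ^ (ε - 1) := by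
                rw [show 1 + ε = 2 + (ε - 1) by ring, Real.rpow_add hσ0, Real.rpow_two]
              simp only [hf]
              rw [mul_sum, sum_mul, mul_sum]
              refine sum_congr rfl fun i _ => ?_
              rw [e]
              ring)
    rw [intervalIntegral.integral_const_mul, intervalIntegral.integral_const_mul,
      integral_rpow (Or.inl (by linarith))] at hmono
    refine le_trans (le_of_eq ?_) hmono
    have e1 : a k ^ (ε - 1 + 1) = κ ^ ε * ((k + 1 : ℕ) : ℝ) ^ (-ε) := by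
      simp only [ha]
      rw [sub_add_cancel, Real.div_rpow hκ.le (by positivity), Real.rpow_neg (by positivity)]
      push_cast
      rfl
    have e2 : a (k + 1) ^ (ε - 1 + 1) = κ ^ ε * (((k + 1 : ℕ) : ℝ) + 1) ^ (-ε) := by
      simp only [ha]
      rw [sub_add_cancel, Real.div_rpow hκ.le (by positivity), Real.rpow_neg (by positivity)]
      rfl
    rw [e1, e2, sub_add_cancel]
    ring
  have hsum : ∑ k ∈ range m1, ∫ σ in a (k + 1)..a k, f σ = ∫ σ in a m1..a 0, f σ := by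
    have h2 := intervalIntegral.sum_integral_adjacent_intervals (f := f)
      (μ := MeasureTheory.volume) (a := a) (n := m1)
      (fun k _ => hcont.intervalIntegrable _ _)
    rw [intervalIntegral.integral_symm (a m1) (a 0)] at h2
    have h3 : ∑ k ∈ range m1, ∫ σ in a (k + 1)..a k, f σ =
        - ∑ k ∈ range m1, ∫ σ in a k..a (k + 1), f σ := by
      rw [← sum_neg_distrib]
      refine sum_congr rfl fun k _ => ?_
      rw [intervalIntegral.integral_symm]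
    rw [h3, h2, neg_neg]
  have hm1a : a m1 ≤ a 0 := by
    simp only [ha]
    push_cast
    gcongr
    have : (0 : ℝ) ≤ m1 := Nat.cast_nonneg _
    linarith
  have hint : ∫ σ in a m1..a 0, f σ ≤ ∑ i ∈ Ico 1 (n + 1), (w i ^ 2)⁻¹ * ((i : ℝ) + 1) ^ (-ε) / 4 := by
    simp only [hf]
    rw [intervalIntegral.integral_finsetSum (f := fun (i : ℕ) (σ : ℝ) =>
      (((i : ℝ) + 1) ^ 2 * (w i ^ 2)⁻¹) * (σ ^ (1 + ε) * Real.exp (-(2 * ((i : ℝ) + 1) * σ))))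
      (fun i _ => (continuous_const.mul (hcont1 i)).intervalIntegrable _ _)]
    refine sum_le_sum fun i _ => ?_
    rw [intervalIntegral.integral_const_mul]
    have h2 := int_le (r := 2 * ((i : ℝ) + 1)) h0 h1 (by positivity) (ha0 m1) hm1a
    have h3 : 0 ≤ (((i : ℝ) + 1) ^ 2 * (w i ^ 2)⁻¹) := by positivity
    refine (mul_le_mul_of_nonneg_left h2 h3).trans (le_of_eq ?_)
    have hi : (0 : ℝ) < (i : ℝ) + 1 := by positivity
    rw [Real.mul_rpow (by norm_num) hi.le, Real.rpow_add (by norm_num : (0 : ℝ) < 2),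
      Real.rpow_add hi, Real.rpow_two, Real.rpow_two, Real.rpow_neg hi.le]
    have h5 : (2 : ℝ) ^ ε ≠ 0 := (Real.rpow_pos_of_pos (by norm_num) _).ne'
    have h6 : ((i : ℝ) + 1) ^ ε ≠ 0 := (Real.rpow_pos_of_pos hi _).ne'
    generalize (w i ^ 2)⁻¹ = s
    field_simp
    ring
  calc (1 - 8 * κ) ^ 2 * (κ ^ ε / ε) * ∑ k ∈ range m1, (∑ j ∈ range (k + 1), (w j ^ 2)⁻¹) *
        (((k + 1 : ℕ) : ℝ) ^ (-ε) - (((k + 1 : ℕ) : ℝ) + 1) ^ (-ε))
      = ∑ k ∈ range m1, (1 - 8 * κ) ^ 2 * (κ ^ ε / ε) * ((∑ j ∈ range (k + 1), (w j ^ 2)⁻¹) *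
        (((k + 1 : ℕ) : ℝ) ^ (-ε) - (((k + 1 : ℕ) : ℝ) + 1) ^ (-ε))) := by rw [mul_sum]
    _ ≤ ∑ k ∈ range m1, 16 * c ^ 2 * ∫ σ in a (k + 1)..a k, f σ :=
        sum_le_sum fun k hk => hstep k (mem_range.1 hk)
    _ = 16 * c ^ 2 * ∫ σ in a m1..a 0, f σ := by rw [← mul_sum, hsum]
    _ ≤ 16 * c ^ 2 * ∑ i ∈ Ico 1 (n + 1), (w i ^ 2)⁻¹ * ((i : ℝ) + 1) ^ (-ε) / 4 := by gcongr
    _ = _ := by rw [← sum_div]; ring

/-- the first term is controlled by the sum -/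
lemma first_le {c κ ε : ℝ} {n : ℕ} {w : ℕ → ℝ} (hc : 0 < c) (h : KP c n w)
    (hw : ∀ i, i ≤ n → 0 < w i) (hκ : 0 < κ) (hκ1 : κ ≤ 1 / 16) (h0 : 0 < ε) (h1 : ε < 1)
    (hcε : 4 * c ^ 2 * ε ≤ (1 - 8 * κ) ^ 2 * κ ^ ε) :
    (w 0 ^ 2)⁻¹ ≤ (2 / κ ^ 2) ^ ε * ((n : ℝ) + 1) ^ (-ε) * ∑ j ∈ range (n + 1), (w j ^ 2)⁻¹ := by
  set x : ℝ := κ ^ 2 * ((n : ℝ) + 1) with hx
  have hx0 : 0 < x := by positivity
  have hxn : x ≤ (n : ℝ) + 1 := by
    have h2 : κ ^ 2 ≤ 1 := pow_le_one₀ hκ.le (by linarith)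
    rw [hx]
    nlinarith [Nat.cast_nonneg (α := ℝ) n]
  set m1 : ℕ := ⌊x⌋₊ - 1 with hm1
  have hm : ∀ k, k < m1 → (((k + 1 : ℕ) : ℝ) + 1) ≤ x := by
    intro k hk
    have h2 : k + 1 + 1 ≤ ⌊x⌋₊ := by omega
    have h3 : ((k + 1 + 1 : ℕ) : ℝ) ≤ x := (Nat.le_floor_iff hx0.le).1 h2
    push_cast at h3 ⊢
    exact h3
  have hm1n : m1 + 1 ≤ n + 1 := by
    by_cases h2 : ⌊x⌋₊ = 0
    · omega
    · have h3 : ⌊x⌋₊ ≤ n + 1 := by
        have : ((⌊x⌋₊ : ℕ) : ℝ) ≤ ((n + 1 : ℕ) : ℝ) := by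
          push_cast
          exact (Nat.floor_le hx0.le).trans hxn
        exact_mod_cast this
      omega
  have hI := integrated hc.le h hw hκ hκ1 h0 h1 hm
  set s : ℕ → ℝ := fun j => (w j ^ 2)⁻¹ with hs
  set F : ℕ → ℝ := fun i => (i : ℝ) ^ (-ε) with hF
  have hF1 : F 1 = 1 := by simp [hF]
  have hAb := abel F s hF1 n
  have hs0 : ∀ j, 0 ≤ s j := fun j => by simp only [hs]; positivity
  have hFanti : ∀ i : ℕ, 1 ≤ i → F (i + 1) ≤ F i := by
    intro i hi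
    simp only [hF]
    have hi0 : (0 : ℝ) < i := by exact_mod_cast hi
    apply Real.rpow_le_rpow_of_nonpos hi0 _ (by linarith)
    push_cast
    linarith
  have hsplit : ∑ i ∈ Ico 1 (n + 1), (∑ j ∈ range i, s j) * (F i - F (i + 1)) =
      ∑ i ∈ Ico 1 (m1 + 1), (∑ j ∈ range i, s j) * (F i - F (i + 1)) +
      ∑ i ∈ Ico (m1 + 1) (n + 1), (∑ j ∈ range i, s j) * (F i - F (i + 1)) :=
    (sum_Ico_consecutive _ (by omega) hm1n).symm
  have hR1 : ∑ i ∈ Ico 1 (m1 + 1), (∑ j ∈ range i, s j) * (F i - F (i + 1)) =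
      ∑ k ∈ range m1, (∑ j ∈ range (k + 1), s j) *
        (((k + 1 : ℕ) : ℝ) ^ (-ε) - (((k + 1 : ℕ) : ℝ) + 1) ^ (-ε)) := by
    rw [sum_Ico_eq_sum_range]
    refine sum_congr (by congr 1) fun k _ => ?_
    simp only [hF]
    rw [add_comm 1 k]
    push_cast
    rfl
  have hR2 : ∑ i ∈ Ico (m1 + 1) (n + 1), (∑ j ∈ range i, s j) * (F i - F (i + 1)) ≤
      (∑ j ∈ range (n + 1), s j) * (F (m1 + 1) - F (n + 1)) := by
    rw [← telesc F hm1n, mul_sum]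
    refine sum_le_sum fun i hi => ?_
    rw [mem_Ico] at hi
    apply mul_le_mul_of_nonneg_right
    · apply sum_le_sum_of_subset_of_nonneg
      · intro j hj
        rw [mem_range] at *
        omega
      · intro j _ _
        exact hs0 j
    · have := hFanti i (by omega)
      linarith
  rw [← hR1] at hI
  set R1 := ∑ i ∈ Ico 1 (m1 + 1), (∑ j ∈ range i, s j) * (F i - F (i + 1)) with hR1d
  set R2 := ∑ i ∈ Ico (m1 + 1) (n + 1), (∑ j ∈ range i, s j) * (F i - F (i + 1)) with hR2d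
  set S := ∑ j ∈ range (n + 1), s j with hSd
  have hR1nn : 0 ≤ R1 := by
    rw [hR1d]
    refine sum_nonneg fun i hi => mul_nonneg (sum_nonneg fun j _ => hs0 j) ?_
    rw [mem_Ico] at hi
    have := hFanti i (by omega)
    linarith
  have hI2 : ∑ i ∈ Ico 1 (n + 1), (w i ^ 2)⁻¹ * ((i : ℝ) + 1) ^ (-ε) =
      ∑ i ∈ Ico 1 (n + 1), s i * F (i + 1) := by
    refine sum_congr rfl fun i _ => ?_
    simp only [hs, hF]
    push_cast
    rfl
  rw [hI2, hAb, hsplit] at hI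
  have hC : 4 * c ^ 2 ≤ (1 - 8 * κ) ^ 2 * (κ ^ ε / ε) := by
    rw [← mul_div_assoc, le_div_iff₀ h0]
    exact hcε
  have hfin : s 0 ≤ S * F (m1 + 1) := by
    have h2 : 4 * c ^ 2 * R1 ≤ (1 - 8 * κ) ^ 2 * (κ ^ ε / ε) * R1 := by gcongr
    have h3 : 0 < 4 * c ^ 2 := by positivity
    have h4 : 4 * c ^ 2 * R1 ≤ 4 * c ^ 2 * (S * F (n + 1) - s 0 + (R1 + R2)) := h2.trans hI
    have h5 := le_of_mul_le_mul_left h4 h3
    nlinarith
  have hS0 : 0 ≤ S := sum_nonneg fun j _ => hs0 j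
  have hx2 : x / 2 ≤ ((m1 + 1 : ℕ) : ℝ) := by
    by_cases h2 : ⌊x⌋₊ = 0
    · have h3 : x < 1 := by
        have := Nat.lt_floor_add_one x
        rw [h2] at this
        simpa using this
      have h4 : (0 : ℝ) ≤ m1 := Nat.cast_nonneg _
      push_cast
      linarith
    · have h3 : m1 + 1 = ⌊x⌋₊ := by omega
      rw [h3]
      have h4 := Nat.lt_floor_add_one x
      have h5 : (1 : ℝ) ≤ (⌊x⌋₊ : ℝ) := by exact_mod_cast Nat.one_le_iff_ne_zero.2 h2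
      linarith
  have hFm : F (m1 + 1) ≤ (2 / κ ^ 2) ^ ε * ((n : ℝ) + 1) ^ (-ε) := by
    simp only [hF]
    have h2 : ((m1 + 1 : ℕ) : ℝ) ^ (-ε) ≤ (x / 2) ^ (-ε) :=
      Real.rpow_le_rpow_of_nonpos (by positivity) hx2 (by linarith)
    refine h2.trans (le_of_eq ?_)
    have e : x / 2 = (2 / κ ^ 2)⁻¹ * ((n : ℝ) + 1) := by
      rw [hx]
      field_simp
    rw [e, Real.mul_rpow (by positivity) (by positivity), Real.inv_rpow (by positivity),
      ← Real.rpow_neg (by positivity), neg_neg]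
  calc s 0 ≤ S * F (m1 + 1) := hfin
    _ ≤ S * ((2 / κ ^ 2) ^ ε * ((n : ℝ) + 1) ^ (-ε)) := by gcongr
    _ = _ := by ring

/-- the crossed test -/
lemma cross {c : ℝ} {n m : ℕ} {w : ℕ → ℝ} (hc : 0 < c) (h : KP c n w)
    (hw : ∀ i, i ≤ n → 0 < w i) (hm1 : 1 ≤ m) (hm : 2 * m ≤ n + 1) :
    (∑ j ∈ range m, (w j ^ 2)⁻¹) * ∑ i ∈ Ico (n + 1 - m) (n + 1), w i ^ 2 ≤
      (3 * c * ((n : ℝ) + 1)) ^ 2 := by
  have hn : (0 : ℝ) < (n : ℝ) + 1 := by positivity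
  set δ : ℝ := 1 / ((n : ℝ) + 1) with hδ
  have hδ0 : 0 < δ := by positivity
  have hδ1 : δ ≤ 1 := by
    rw [hδ, div_le_one hn]
    have : (0 : ℝ) ≤ n := Nat.cast_nonneg _
    linarith
  set q : ℝ := (1 + δ)⁻¹ with hq
  have hq0 : 0 < q := by positivity
  have hq1 : q ≤ 1 := inv_le_one_of_one_le₀ (by linarith)
  have hqn : 1 / 3 ≤ q ^ (n + 1) := by
    rw [hq, inv_pow, ← one_div]
    apply one_div_le_one_div_of_le (by positivity)
    have h2 : 1 + δ ≤ Real.exp δ := by have := Real.add_one_le_exp δ; linarith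
    calc (1 + δ) ^ (n + 1) ≤ Real.exp δ ^ (n + 1) := by gcongr
      _ = Real.exp 1 := by
          rw [← Real.exp_nat_mul]
          congr 1
          rw [hδ]
          push_cast
          field_simp
      _ ≤ 3 := by have := Real.exp_one_lt_d9; linarith
  set S := ∑ j ∈ range m, (w j ^ 2)⁻¹ with hS
  set U := ∑ i ∈ Ico (n + 1 - m) (n + 1), w i ^ 2 with hU
  have hSpos : 0 < S := by
    refine sum_pos (fun j hj => ?_) ⟨0, mem_range.2 (by omega)⟩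
    have := hw j (by rw [mem_range] at hj; omega)
    positivity
  have hUpos : 0 < U := by
    refine sum_pos (fun j hj => ?_) ⟨n, mem_Ico.2 ⟨by omega, by omega⟩⟩
    have := hw j (by rw [mem_Ico] at hj; omega)
    positivity
  have h1 := h δ hδ0 hδ1 (fun j : Fin (n + 1) => if (j : ℕ) < m then (w j)⁻¹ else 0)
    (fun i : Fin (n + 1) => if n + 1 - m ≤ (i : ℕ) then w i else 0)
    (fun j => by
      split_ifs
      · have := hw j (by have := j.isLt; omega)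
        positivity
      · exact le_rfl)
    (fun i => by
      split_ifs
      · have := hw i (by have := i.isLt; omega)
        positivity
      · exact le_rfl)
  have e1 : ∑ j : Fin (n + 1), (if (j : ℕ) < m then (w j)⁻¹ else 0) ^ 2 = S := by
    have : ∀ j : Fin (n + 1), (if (j : ℕ) < m then (w j)⁻¹ else 0) ^ 2 =
        if (j : ℕ) < m then (w j ^ 2)⁻¹ else 0 := by
      intro j
      split_ifs
      · rw [inv_pow]
      · ring
    simp only [this]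
    exact sum_fin_lt (f := fun j => (w j ^ 2)⁻¹) (by omega)
  have e2 : ∑ i : Fin (n + 1), (if n + 1 - m ≤ (i : ℕ) then w i else 0) ^ 2 = U := by
    have : ∀ i : Fin (n + 1), (if n + 1 - m ≤ (i : ℕ) then w i else 0) ^ 2 =
        if n + 1 - m ≤ (i : ℕ) then w i ^ 2 else 0 := by
      intro i
      split_ifs
      · rfl
      · ring
    simp only [this]
    exact sum_fin_ge (f := fun i => w i ^ 2)
  have e3 : 1 / 3 * (U * S) ≤ ∑ i : Fin (n + 1), ∑ j : Fin (n + 1), k1 δ i j * (w i / w j) *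
      (if (j : ℕ) < m then (w j)⁻¹ else 0) *
      (if n + 1 - m ≤ (i : ℕ) then w i else 0) := by
    have hAS : 1 / 3 * (U * S) = ∑ i : Fin (n + 1), ∑ j : Fin (n + 1),
        1 / 3 * ((if n + 1 - m ≤ (i : ℕ) then w i ^ 2 else 0) *
          (if (j : ℕ) < m then (w j ^ 2)⁻¹ else 0)) := by
      simp only [← mul_sum]
      rw [← sum_mul, sum_fin_ge (f := fun i => w i ^ 2),
        sum_fin_lt (f := fun j => (w j ^ 2)⁻¹) (by omega)]
    rw [hAS]
    refine sum_le_sum fun i _ => sum_le_sum fun j _ => ?_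
    split_ifs with a b b
    · have hi := hw i (by have := i.isLt; omega)
      have hj := hw j (by have := j.isLt; omega)
      have ek : k1 δ i j = q ^ ((i : ℕ) - j + 1) := by
        unfold k1
        rw [if_pos (by omega), hq]
      rw [ek]
      have e5 : q ^ ((i : ℕ) - j + 1) * (w i / w j) * (w j)⁻¹ * w i =
          q ^ ((i : ℕ) - j + 1) * (w i ^ 2 * (w j ^ 2)⁻¹) := by
        field_simp
      rw [e5]
      have e6 : 1 / 3 ≤ q ^ ((i : ℕ) - j + 1) :=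
        hqn.trans (pow_le_pow_of_le_one hq0.le hq1 (by have := i.isLt; omega))
      gcongr
    · simp
    · simp
    · simp
  rw [e1, e2] at h1
  have h2 : 1 / 3 * (U * S) ≤ c / δ * (√S * √U) := e3.trans h1
  have hcδ : c / δ = c * ((n : ℝ) + 1) := by rw [hδ]; field_simp
  rw [hcδ] at h2
  have hs : 0 < √S := Real.sqrt_pos.2 hSpos
  have hu : 0 < √U := Real.sqrt_pos.2 hUpos
  have h3 : √S * √U ≤ 3 * c * ((n : ℝ) + 1) := by
    have h4 : (√S * √U) * (√S * √U) ≤ (√S * √U) * (3 * c * ((n : ℝ) + 1)) := by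
      calc (√S * √U) * (√S * √U) = (√U * √U) * (√S * √S) := by ring
        _ = U * S := by rw [Real.mul_self_sqrt hSpos.le, Real.mul_self_sqrt hUpos.le]
        _ ≤ 3 * (c * ((n : ℝ) + 1) * (√S * √U)) := by linarith
        _ = _ := by ring
    exact le_of_mul_le_mul_left h4 (by positivity)
  calc S * U = (√S * √U) ^ 2 := by
        rw [mul_pow, Real.sq_sqrt hSpos.le, Real.sq_sqrt hUpos.le]
    _ ≤ _ := by gcongr

/-- the upper bound for the weights -/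
lemma upperw {c κ ε : ℝ} {n : ℕ} {w : ℕ → ℝ} (hc : 0 < c) (h : KP c n w)
    (hw : ∀ i, i ≤ n → 0 < w i) (hκ : 0 < κ) (hκ1 : κ ≤ 1 / 16) (h0 : 0 < ε) (h1 : ε < 1)
    (hcε : 4 * c ^ 2 * ε ≤ (1 - 8 * κ) ^ 2 * κ ^ ε) (hn : 1 ≤ n) :
    w n ≤ 9 * c * (2 / κ ^ 2) ^ ε * ((n : ℝ) + 1) ^ (1 - ε) * w 0 := by
  obtain ⟨m, hm1, hm2, hm3⟩ : ∃ m : ℕ, 1 ≤ m ∧ 2 * m ≤ n + 1 ∧ n + 1 ≤ 3 * m :=
    ⟨(n + 1) / 2, by omega, by omega, by omega⟩
  obtain ⟨k, rfl⟩ : ∃ k, m = k + 1 := ⟨m - 1, by omega⟩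
  have hw0 := hw 0 (by omega)
  have hwn := hw n le_rfl
  have hr : KP c k w := h.restrict (by omega)
  have hA := first_le hc hr (fun i hi => hw i (by omega)) hκ hκ1 h0 h1 hcε
  have hv : KP c k (fun i => (w (n - i))⁻¹) := h.rev.restrict (by omega)
  have hB := first_le hc hv (fun i hi => inv_pos.2 (hw _ (by omega))) hκ hκ1 h0 h1 hcε
  have hC := cross hc h hw (m := k + 1) (by omega) hm2
  set G := (2 / κ ^ 2) ^ ε * ((k : ℝ) + 1) ^ (-ε) with hG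
  have hG0 : 0 ≤ G := by positivity
  have e1 : ∀ i, (((w (n - i))⁻¹) ^ 2)⁻¹ = w (n - i) ^ 2 := fun i => by rw [inv_pow, inv_inv]
  simp only [e1, Nat.sub_zero, inv_pow, inv_inv] at hB
  have e2 : ∑ j ∈ range (k + 1), w (n - j) ^ 2 = ∑ i ∈ Ico (n + 1 - (k + 1)) (n + 1), w i ^ 2 := by
    rw [range_eq_Ico, sum_Ico_reflect (fun i => w i ^ 2) 0 (by omega)]
    rfl
  rw [e2] at hB
  set S := ∑ j ∈ range (k + 1), (w j ^ 2)⁻¹ with hS
  set U := ∑ i ∈ Ico (n + 1 - (k + 1)) (n + 1), w i ^ 2 with hU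
  have hS0 : 0 ≤ S := sum_nonneg fun j _ => by positivity
  have hU0 : 0 ≤ U := sum_nonneg fun j _ => by positivity
  have h2 : (w n / w 0) ^ 2 ≤ (G * (3 * c * ((n : ℝ) + 1))) ^ 2 := by
    calc (w n / w 0) ^ 2 = (w 0 ^ 2)⁻¹ * w n ^ 2 := by rw [div_pow, div_eq_inv_mul]
      _ ≤ (G * S) * (G * U) := by gcongr
      _ = G ^ 2 * (S * U) := by ring
      _ ≤ G ^ 2 * (3 * c * ((n : ℝ) + 1)) ^ 2 := by gcongr
      _ = _ := by ring
  have h3 : w n / w 0 ≤ G * (3 * c * ((n : ℝ) + 1)) :=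
    le_of_sq_le_sq' h2 (by positivity)
  have h4 : ((k : ℝ) + 1) ^ (-ε) ≤ 3 * ((n : ℝ) + 1) ^ (-ε) := by
    have h5 : ((n : ℝ) + 1) / 3 ≤ (k : ℝ) + 1 := by
      have : ((n + 1 : ℕ) : ℝ) ≤ ((3 * (k + 1) : ℕ) : ℝ) := by exact_mod_cast hm3
      push_cast at this
      linarith
    have h6 : ((k : ℝ) + 1) ^ (-ε) ≤ (((n : ℝ) + 1) / 3) ^ (-ε) :=
      Real.rpow_le_rpow_of_nonpos (by positivity) h5 (by linarith)
    refine h6.trans ?_
    have e : ((n : ℝ) + 1) / 3 = 3⁻¹ * ((n : ℝ) + 1) := by ring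
    rw [e, Real.mul_rpow (by positivity) (by positivity), Real.inv_rpow (by positivity),
      ← Real.rpow_neg (by positivity), neg_neg]
    have h7 : (3 : ℝ) ^ ε ≤ 3 := by
      calc (3 : ℝ) ^ ε ≤ 3 ^ (1 : ℝ) := Real.rpow_le_rpow_of_exponent_le (by norm_num) h1.le
        _ = 3 := Real.rpow_one 3
    gcongr
  rw [div_le_iff₀ hw0] at h3
  refine h3.trans ?_
  have e3 : ((n : ℝ) + 1) ^ (1 - ε) = ((n : ℝ) + 1) ^ (-ε) * ((n : ℝ) + 1) := by
    rw [show 1 - ε = -ε + 1 by ring, Real.rpow_add (by positivity), Real.rpow_one]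
  rw [e3]
  calc G * (3 * c * ((n : ℝ) + 1)) * w 0
      = (2 / κ ^ 2) ^ ε * ((k : ℝ) + 1) ^ (-ε) * (3 * c * ((n : ℝ) + 1)) * w 0 := by rw [hG]
    _ ≤ (2 / κ ^ 2) ^ ε * (3 * ((n : ℝ) + 1) ^ (-ε)) * (3 * c * ((n : ℝ) + 1)) * w 0 := by gcongr
    _ = _ := by ring
where
  le_of_sq_le_sq' {a b : ℝ} (h : a ^ 2 ≤ b ^ 2) (hb : 0 ≤ b) : a ≤ b :=
    le_of_sq_le_sq_aux h hb
  le_of_sq_le_sq_aux {a b : ℝ} (h : a ^ 2 ≤ b ^ 2) (hb : 0 ≤ b) : a ≤ b :=
    abs_le_of_sq_le_sq' h hb |>.2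

end Pool.Agent.Helper57.KR
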