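import Pool.Agent.Helper57.KR.Ker

/-!
# The weights for the sharp example
-/

set_option autoImplicit false

open scoped BigOperators
open Finset

namespace Pool.Agent.Helper57.KR

open Pool.Agent.Helper65.RG

/-- the square of the weight -/
noncomputable def FG (ε m x : ℝ) : ℝ := min (x ^ 2) (m ^ (1 + ε) * x ^ (1 - ε))

noncomputable def xg (M : ℝ) (i : ℕ) : ℝ := min ((i : ℝ) + 1) M

noncomputable def pg (ε m M : ℝ) (i : ℕ) : ℝ := √(FG ε m (xg M i))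

lemma sum_inv_sq' (n : ℕ) : ∑ j ∈ range n, (((j : ℝ) + 1) ^ 2)⁻¹ ≤ 2 := by
  have h : ∀ n : ℕ, ∑ j ∈ range (n + 1), (((j : ℝ) + 1) ^ 2)⁻¹ ≤ 2 - ((n : ℝ) + 1)⁻¹ := by
    intro n
    induction n with
    | zero => norm_num
    | succ n ih =>
      rw [sum_range_succ]
      have : (((n + 1 : ℕ) : ℝ) + 1) ^ 2 = ((n : ℝ) + 2) ^ 2 := by push_cast; ring
      rw [this]
      have h2 : (((n : ℝ) + 2) ^ 2)⁻¹ ≤ ((n : ℝ) + 1)⁻¹ - ((n : ℝ) + 2)⁻¹ := by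
        have e : ((n : ℝ) + 1)⁻¹ - ((n : ℝ) + 2)⁻¹ = (((n : ℝ) + 1) * ((n : ℝ) + 2))⁻¹ := by
          field_simp
          ring
        rw [e]
        apply inv_anti₀ (by positivity)
        nlinarith [Nat.cast_nonneg (α := ℝ) n]
      have e2 : (((n + 1 : ℕ) : ℝ) + 1)⁻¹ = ((n : ℝ) + 2)⁻¹ := by push_cast; congr 1; ring
      rw [e2]
      linarith
  rcases n with _ | n
  · simp
  · have := h n
    have h3 : 0 < ((n : ℝ) + 1)⁻¹ := by positivity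
    linarith

section

variable {ε m M : ℝ} (h0 : 0 < ε) (h1 : ε < 1) (hm : 2 ≤ m) (hM : 1 ≤ M)

lemma FG_le_sq {x : ℝ} : FG ε m x ≤ x ^ 2 := min_le_left _ _

lemma FG_le_pow {x : ℝ} : FG ε m x ≤ m ^ (1 + ε) * x ^ (1 - ε) := min_le_right _ _

include h0 h1 hm

lemma FG_pos {x : ℝ} (hx : 0 < x) : 0 < FG ε m x := by
  unfold FG
  exact lt_min (by positivity) (by positivity)

lemma FG_mono {x y : ℝ} (hx : 0 < x) (hxy : x ≤ y) : FG ε m x ≤ FG ε m y := by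
  unfold FG
  apply min_le_min
  · gcongr
  · apply mul_le_mul_of_nonneg_left _ (by positivity)
    exact Real.rpow_le_rpow hx.le hxy (by linarith)

lemma FG_dbl {l x : ℝ} (hl : 1 ≤ l) (hx : 0 < x) : FG ε m (l * x) ≤ l ^ 2 * FG ε m x := by
  have hl0 : 0 < l := by linarith
  unfold FG
  rw [mul_min_of_nonneg _ _ (by positivity : (0 : ℝ) ≤ l ^ 2)]
  apply min_le_min
  · rw [mul_pow]
  · rw [Real.mul_rpow hl0.le hx.le]
    have h3 : l ^ (1 - ε) ≤ l ^ (2 : ℝ) := Real.rpow_le_rpow_of_exponent_le hl (by linarith)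
    have h4 : l ^ (2 : ℝ) = l ^ 2 := by
      rw [← Real.rpow_natCast]
      norm_num
    rw [h4] at h3
    calc m ^ (1 + ε) * (l ^ (1 - ε) * x ^ (1 - ε))
        = l ^ (1 - ε) * (m ^ (1 + ε) * x ^ (1 - ε)) := by ring
      _ ≤ l ^ 2 * (m ^ (1 + ε) * x ^ (1 - ε)) := by gcongr

/-- `F x ≤ m x` -/
lemma FG_le_mul {x : ℝ} (hx : 0 < x) : FG ε m x ≤ m * x := by
  have hm0 : 0 < m := by linarith
  unfold FG
  rcases le_total x m with h | h
  · refine (min_le_left _ _).trans ?_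
    nlinarith
  · refine (min_le_right _ _).trans ?_
    have e1 : m ^ (1 + ε) = m * m ^ ε := by
      rw [Real.rpow_add hm0, Real.rpow_one]
    have e2 : x ^ (1 - ε) * x ^ ε = x := by
      rw [← Real.rpow_add hx]
      simp
    have h3 : m ^ ε ≤ x ^ ε := Real.rpow_le_rpow hm0.le h h0.le
    calc m ^ (1 + ε) * x ^ (1 - ε) = m * (x ^ (1 - ε) * m ^ ε) := by rw [e1]; ring
      _ ≤ m * (x ^ (1 - ε) * x ^ ε) := by gcongr
      _ = m * x := by rw [e2]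

omit h0 h1 hm in
lemma sq_split {x : ℝ} (hx : 0 < x) : x ^ 2 = x ^ (1 + ε) * x ^ (1 - ε) := by
  rw [← Real.rpow_add hx, ← Real.rpow_natCast]
  congr 1
  push_cast
  ring

lemma FG_eq_sq {x : ℝ} (hx : 0 < x) (hxm : x ≤ m) : FG ε m x = x ^ 2 := by
  unfold FG
  apply min_eq_left
  rw [sq_split (ε := ε) hx]
  have : x ^ (1 + ε) ≤ m ^ (1 + ε) := Real.rpow_le_rpow hx.le hxm (by linarith)
  gcongr

include hM

omit h0 h1 hm in
lemma xg_pos (i : ℕ) : 0 < xg M i := by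
  unfold xg
  exact lt_min (by positivity) (by linarith)

omit h0 h1 hm hM in
lemma xg_mono {i j : ℕ} (h : i ≤ j) : xg M i ≤ xg M j := by
  unfold xg
  apply min_le_min_right
  have : (i : ℝ) ≤ j := by exact_mod_cast h
  linarith

omit h0 h1 hm in
lemma xg_dbl {l : ℝ} (hl : 1 ≤ l) {i j : ℕ} (h : (i : ℝ) + 1 ≤ l * ((j : ℝ) + 1)) :
    xg M i ≤ l * xg M j := by
  unfold xg
  rw [mul_min_of_nonneg _ _ (by linarith : (0 : ℝ) ≤ l)]
  apply min_le_min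
  · exact h
  · nlinarith

lemma pg_pos (i : ℕ) : 0 < pg ε m M i := Real.sqrt_pos.2 (FG_pos h0 h1 hm (xg_pos hM i))

lemma pg_sq (i : ℕ) : pg ε m M i ^ 2 = FG ε m (xg M i) :=
  Real.sq_sqrt (FG_pos h0 h1 hm (xg_pos hM i)).le

lemma pg_mono (i j : ℕ) (h : i ≤ j) : pg ε m M i ≤ pg ε m M j :=
  Real.sqrt_le_sqrt (FG_mono h0 h1 hm (xg_pos hM i) (xg_mono h))

lemma pg_dbl (l : ℝ) (hl : 1 ≤ l) (i j : ℕ) (h : (i : ℝ) + 1 ≤ l * ((j : ℝ) + 1)) :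
    pg ε m M i ≤ l * pg ε m M j := by
  have h2 : FG ε m (xg M i) ≤ l ^ 2 * FG ε m (xg M j) :=
    (FG_mono h0 h1 hm (xg_pos hM i) (xg_dbl hM hl h)).trans
      (FG_dbl h0 h1 hm hl (xg_pos hM j))
  unfold pg
  calc √(FG ε m (xg M i)) ≤ √(l ^ 2 * FG ε m (xg M j)) := Real.sqrt_le_sqrt h2
    _ = l * √(FG ε m (xg M j)) := by
      rw [Real.sqrt_mul (by positivity), Real.sqrt_sq (by positivity)]

/-- the weight is constant above `M` -/
lemma pg_const (i : ℕ) (h : M ≤ (i : ℝ) + 1) : pg ε m M i = √(FG ε m M) := by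
  unfold pg xg
  rw [min_eq_right h]

/-- the reciprocal of the square of the weight -/
lemma inv_FG_le (j : ℕ) :
    (FG ε m (xg M j))⁻¹ ≤ (((j : ℝ) + 1) ^ 2)⁻¹ +
      (if m < (j : ℝ) + 1 ∧ (j : ℝ) + 1 ≤ M then
        (m ^ (1 + ε))⁻¹ * (1 + (j : ℝ)) ^ (-(1 - ε)) else 0) + (FG ε m M)⁻¹ := by
  have hj : (0 : ℝ) < (j : ℝ) + 1 := by positivity
  have hF : 0 < FG ε m M := FG_pos h0 h1 hm (by linarith)
  have hif : 0 ≤ (if m < (j : ℝ) + 1 ∧ (j : ℝ) + 1 ≤ M then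
        (m ^ (1 + ε))⁻¹ * (1 + (j : ℝ)) ^ (-(1 - ε)) else 0) := by
    split_ifs
    · positivity
    · exact le_rfl
  have hsq : 0 ≤ (((j : ℝ) + 1) ^ 2)⁻¹ := by positivity
  have hFi : 0 ≤ (FG ε m M)⁻¹ := by positivity
  rcases le_total ((j : ℝ) + 1) M with h | h
  · have ex : xg M j = (j : ℝ) + 1 := min_eq_left h
    rw [ex]
    rcases le_or_gt ((j : ℝ) + 1) m with h2 | h2
    · rw [FG_eq_sq h0 h1 hm hj h2]
      linarith
    · rw [if_pos ⟨h2, h⟩]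
      have e3 : (m ^ (1 + ε) * ((j : ℝ) + 1) ^ (1 - ε))⁻¹ =
          (m ^ (1 + ε))⁻¹ * (1 + (j : ℝ)) ^ (-(1 - ε)) := by
        rw [mul_inv, add_comm (1 : ℝ) (j : ℝ), Real.rpow_neg hj.le]
      rw [← e3]
      have e4 : (FG ε m ((j : ℝ) + 1))⁻¹ ≤ (((j : ℝ) + 1) ^ 2)⁻¹ +
          (m ^ (1 + ε) * ((j : ℝ) + 1) ^ (1 - ε))⁻¹ := by
        unfold FG
        have q1 : 0 ≤ (m ^ (1 + ε) * ((j : ℝ) + 1) ^ (1 - ε))⁻¹ := by positivity
        rcases min_choice (((j : ℝ) + 1) ^ 2) (m ^ (1 + ε) * ((j : ℝ) + 1) ^ (1 - ε)) with h5 | h5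
        · rw [h5]; linarith
        · rw [h5]; linarith
      linarith
  · have ex : xg M j = M := min_eq_right h
    rw [ex]
    linarith

/-- the sum of the middle terms -/
lemma mid_sumg (n : ℕ) :
    ∑ j ∈ range n, (if m < (j : ℝ) + 1 ∧ (j : ℝ) + 1 ≤ M then
        (m ^ (1 + ε))⁻¹ * (1 + (j : ℝ)) ^ (-(1 - ε)) else 0) ≤
      (m ^ (1 + ε))⁻¹ * ((min (n : ℝ) M) ^ ε / ε) := by
  set K : ℕ := min n ⌊M⌋₊ with hK
  have hKn : K ≤ n := min_le_left _ _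
  have hKM : (K : ℝ) ≤ min (n : ℝ) M := by
    apply le_min
    · exact_mod_cast hKn
    · exact (Nat.cast_le.2 (min_le_right n ⌊M⌋₊)).trans (Nat.floor_le (by linarith))
  calc ∑ j ∈ range n, (if m < (j : ℝ) + 1 ∧ (j : ℝ) + 1 ≤ M then
        (m ^ (1 + ε))⁻¹ * (1 + (j : ℝ)) ^ (-(1 - ε)) else 0)
      ≤ ∑ j ∈ range K, (m ^ (1 + ε))⁻¹ * (1 + (j : ℝ)) ^ (-(1 - ε)) := by
        have h2 : ∑ j ∈ range n, (if m < (j : ℝ) + 1 ∧ (j : ℝ) + 1 ≤ M then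
            (m ^ (1 + ε))⁻¹ * (1 + (j : ℝ)) ^ (-(1 - ε)) else 0) =
            ∑ j ∈ range K, (if m < (j : ℝ) + 1 ∧ (j : ℝ) + 1 ≤ M then
            (m ^ (1 + ε))⁻¹ * (1 + (j : ℝ)) ^ (-(1 - ε)) else 0) := by
          symm
          apply sum_subset
          · intro j hj
            rw [mem_range] at *
            omega
          · intro j hj hj2
            rw [mem_range] at hj hj2
            rw [if_neg]
            rintro ⟨_, h4⟩
            apply hj2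
            have h5 : j + 1 ≤ ⌊M⌋₊ := Nat.le_floor (by push_cast; exact h4)
            rw [hK]
            exact lt_min hj (by omega)
        rw [h2]
        refine sum_le_sum fun j _ => ?_
        split_ifs
        · exact le_rfl
        · positivity
    _ = (m ^ (1 + ε))⁻¹ * ∑ j ∈ range K, (1 + (j : ℝ)) ^ (-(1 - ε)) := by rw [mul_sum]
    _ ≤ (m ^ (1 + ε))⁻¹ * ((K : ℝ) ^ (1 - (1 - ε)) / (1 - (1 - ε))) := by
        apply mul_le_mul_of_nonneg_left _ (by positivity)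
        exact sum_small (by linarith) (by linarith) K
    _ = (m ^ (1 + ε))⁻¹ * ((K : ℝ) ^ ε / ε) := by rw [sub_sub_cancel]
    _ ≤ (m ^ (1 + ε))⁻¹ * ((min (n : ℝ) M) ^ ε / ε) := by
        gcongr

lemma sum_pg (n : ℕ) :
    ∑ j ∈ range n, (pg ε m M j ^ 2)⁻¹ ≤ 2 +
      (∑ j ∈ range n, (if m < (j : ℝ) + 1 ∧ (j : ℝ) + 1 ≤ M then
        (m ^ (1 + ε))⁻¹ * (1 + (j : ℝ)) ^ (-(1 - ε)) else 0)) + n * (FG ε m M)⁻¹ := by
  calc ∑ j ∈ range n, (pg ε m M j ^ 2)⁻¹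
      ≤ ∑ j ∈ range n, ((((j : ℝ) + 1) ^ 2)⁻¹ +
      (if m < (j : ℝ) + 1 ∧ (j : ℝ) + 1 ≤ M then
        (m ^ (1 + ε))⁻¹ * (1 + (j : ℝ)) ^ (-(1 - ε)) else 0) + (FG ε m M)⁻¹) := by
        refine sum_le_sum fun j _ => ?_
        rw [pg_sq h0 h1 hm hM]
        exact inv_FG_le h0 h1 hm hM j
    _ ≤ _ := by
        rw [sum_add_distrib, sum_add_distrib, sum_const, card_range, nsmul_eq_mul]
        have := sum_inv_sq' n
        linarith

/-- first bound -/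
lemma beta1g (i : ℕ) :
    pg ε m M i ^ 2 * ∑ j ∈ range (i + 1), (pg ε m M j ^ 2)⁻¹ ≤
      (1 / ε + 2 * m + 1) * ((i : ℝ) + 1) := by
  have hx := xg_pos hM i
  have hxi : xg M i ≤ (i : ℝ) + 1 := min_le_left _ _
  have hxM : xg M i ≤ M := min_le_right _ _
  have hF : 0 < FG ε m M := FG_pos h0 h1 hm (by linarith)
  have hFx : 0 < FG ε m (xg M i) := FG_pos h0 h1 hm hx
  have hi : (0 : ℝ) < (i : ℝ) + 1 := by positivity
  have hs := sum_pg h0 h1 hm hM (i + 1)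
  have hmid := mid_sumg h0 h1 hm hM (i + 1)
  have hmin : (min (((i + 1 : ℕ) : ℝ)) M) ^ ε ≤ ((i : ℝ) + 1) ^ ε := by
    apply Real.rpow_le_rpow (le_min (by positivity) (by linarith)) _ h0.le
    refine (min_le_left _ _).trans ?_
    push_cast
    exact le_rfl
  rw [pg_sq h0 h1 hm hM]
  set F := FG ε m (xg M i) with hFd
  set A := m ^ (1 + ε) with hA
  have hA0 : 0 < A := by positivity
  have c1 : F * 2 ≤ 2 * m * ((i : ℝ) + 1) := by
    have h2 : F ≤ m * ((i : ℝ) + 1) := (FG_le_mul h0 h1 hm hx).trans (by gcongr)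
    linarith
  have c2 : F * (A⁻¹ * (((i : ℝ) + 1) ^ ε / ε)) ≤ 1 / ε * ((i : ℝ) + 1) := by
    have h2 : F ≤ A * ((i : ℝ) + 1) ^ (1 - ε) := by
      refine FG_le_pow.trans ?_
      apply mul_le_mul_of_nonneg_left _ hA0.le
      exact Real.rpow_le_rpow hx.le hxi (by linarith)
    have e : ((i : ℝ) + 1) ^ (1 - ε) * ((i : ℝ) + 1) ^ ε = (i : ℝ) + 1 := by
      rw [← Real.rpow_add hi]
      simp
    calc F * (A⁻¹ * (((i : ℝ) + 1) ^ ε / ε))
        ≤ (A * ((i : ℝ) + 1) ^ (1 - ε)) * (A⁻¹ * (((i : ℝ) + 1) ^ ε / ε)) := by gcongr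
      _ = (((i : ℝ) + 1) ^ (1 - ε) * ((i : ℝ) + 1) ^ ε) / ε := by field_simp
      _ = _ := by rw [e]; ring
  have c3 : F * (((i + 1 : ℕ) : ℝ) * (FG ε m M)⁻¹) ≤ 1 * ((i : ℝ) + 1) := by
    have h2 : F ≤ FG ε m M := FG_mono h0 h1 hm hx hxM
    calc F * (((i + 1 : ℕ) : ℝ) * (FG ε m M)⁻¹)
        ≤ FG ε m M * (((i + 1 : ℕ) : ℝ) * (FG ε m M)⁻¹) := by gcongr
      _ = 1 * ((i : ℝ) + 1) := by
          push_cast
          field_simp
  calc F * ∑ j ∈ range (i + 1), (pg ε m M j ^ 2)⁻¹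
      ≤ F * (2 + A⁻¹ * (((i : ℝ) + 1) ^ ε / ε) + ((i + 1 : ℕ) : ℝ) * (FG ε m M)⁻¹) := by
        apply mul_le_mul_of_nonneg_left _ hFx.le
        refine hs.trans ?_
        have : A⁻¹ * ((min (((i + 1 : ℕ) : ℝ)) M) ^ ε / ε) ≤
            A⁻¹ * (((i : ℝ) + 1) ^ ε / ε) := by gcongr
        linarith
    _ = F * 2 + F * (A⁻¹ * (((i : ℝ) + 1) ^ ε / ε)) +
        F * (((i + 1 : ℕ) : ℝ) * (FG ε m M)⁻¹) := by ring
    _ ≤ 2 * m * ((i : ℝ) + 1) + 1 / ε * ((i : ℝ) + 1) + 1 * ((i : ℝ) + 1) := by linarith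
    _ = _ := by ring

/-- second bound, when `M ≤ m` -/
lemma beta2a (N : ℕ) (hMm : M ≤ m) (hMN : M ^ 2 ≤ (N : ℝ) + 1) :
    FG ε m M * ∑ j ∈ range (N + 1), (pg ε m M j ^ 2)⁻¹ ≤ 3 * ((N : ℝ) + 1) := by
  have hF : 0 < FG ε m M := FG_pos h0 h1 hm (by linarith)
  have hs := sum_pg h0 h1 hm hM (N + 1)
  have hX0 : ∑ j ∈ range (N + 1), (if m < (j : ℝ) + 1 ∧ (j : ℝ) + 1 ≤ M then
        (m ^ (1 + ε))⁻¹ * (1 + (j : ℝ)) ^ (-(1 - ε)) else 0) = 0 := by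
    apply sum_eq_zero
    intro j _
    rw [if_neg]
    rintro ⟨h5, h6⟩
    linarith
  rw [hX0, add_zero] at hs
  have hF2 : FG ε m M ≤ (N : ℝ) + 1 := FG_le_sq.trans hMN
  calc FG ε m M * ∑ j ∈ range (N + 1), (pg ε m M j ^ 2)⁻¹
      ≤ FG ε m M * (2 + ((N + 1 : ℕ) : ℝ) * (FG ε m M)⁻¹) :=
        mul_le_mul_of_nonneg_left hs hF.le
    _ = 2 * FG ε m M + ((N : ℝ) + 1) := by
        push_cast
        field_simp
    _ ≤ _ := by linarith

/-- second bound -/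
lemma beta2b (N : ℕ) :
    FG ε m M * ∑ j ∈ range (N + 1), (pg ε m M j ^ 2)⁻¹ ≤
      2 * m * M + M / ε + ((N : ℝ) + 1) := by
  have hM0 : 0 < M := by linarith
  have hF : 0 < FG ε m M := FG_pos h0 h1 hm hM0
  have hs := sum_pg h0 h1 hm hM (N + 1)
  have hmid := mid_sumg h0 h1 hm hM (N + 1)
  set A := m ^ (1 + ε) with hA
  have hA0 : 0 < A := by positivity
  have c1 : FG ε m M * 2 ≤ 2 * m * M := by
    have h2 : FG ε m M ≤ m * M := FG_le_mul h0 h1 hm hM0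
    linarith
  have c2 : FG ε m M * (A⁻¹ * (M ^ ε / ε)) ≤ M / ε := by
    have e : M ^ (1 - ε) * M ^ ε = M := by
      rw [← Real.rpow_add hM0]
      simp
    calc FG ε m M * (A⁻¹ * (M ^ ε / ε))
        ≤ (A * M ^ (1 - ε)) * (A⁻¹ * (M ^ ε / ε)) := by
          apply mul_le_mul_of_nonneg_right FG_le_pow (by positivity)
      _ = (M ^ (1 - ε) * M ^ ε) / ε := by field_simp
      _ = _ := by rw [e]
  calc FG ε m M * ∑ j ∈ range (N + 1), (pg ε m M j ^ 2)⁻¹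
      ≤ FG ε m M * (2 + A⁻¹ * (M ^ ε / ε) + ((N + 1 : ℕ) : ℝ) * (FG ε m M)⁻¹) := by
        apply mul_le_mul_of_nonneg_left _ hF.le
        refine hs.trans ?_
        have h3 : (min (((N + 1 : ℕ) : ℝ)) M) ^ ε ≤ M ^ ε :=
          Real.rpow_le_rpow (le_min (by positivity) (by linarith)) (min_le_right _ _) h0.le
        have : A⁻¹ * ((min (((N + 1 : ℕ) : ℝ)) M) ^ ε / ε) ≤ A⁻¹ * (M ^ ε / ε) := by gcongr
        linarith
    _ = FG ε m M * 2 + FG ε m M * (A⁻¹ * (M ^ ε / ε)) + ((N : ℝ) + 1) := by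
        push_cast
        field_simp
    _ ≤ _ := by linarith

lemma pg_zero : pg ε m M 0 = 1 := by
  have ex : xg M 0 = 1 := by
    unfold xg
    rw [min_eq_left (by push_cast; linarith)]
    simp
  unfold pg
  rw [ex, FG_eq_sq h0 h1 hm one_pos (by linarith)]
  simp

end

end Pool.Agent.Helper57.KR
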