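import Pool.Agent.Helper57.KR.K6

/-!
# The sharp example
-/

set_option autoImplicit false

open scoped BigOperators
open Finset

namespace Pool.Agent.Helper57.KR

open Pool.Agent.Helper65.RG

universe u

/-- the point where the weight becomes constant -/
noncomputable def MN (θ s m : ℝ) (N : ℕ) : ℝ :=
  if (N : ℝ) + 1 ≤ m ^ 2 then √((N : ℝ) + 1) else θ * s * ((N : ℝ) + 1)

section

variable {ε s θ m : ℝ} (hε : ε = s ^ 2) (hs0 : 0 < s) (hs1 : s < 1) (hθ0 : 0 < θ)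
  (hθ1 : θ ≤ 1 / 100) (hm : m = 2 / (θ * s))

include hs0 hs1 hθ0 hθ1 hm

lemma m_ge : 200 ≤ m := by
  rw [hm, le_div_iff₀ (by positivity)]
  have : θ * s ≤ 1 / 100 * 1 := by gcongr
  linarith

lemma mul_m : m * (θ * s) = 2 := by
  rw [hm]
  field_simp

lemma ts_le : θ * s ≤ 1 / 100 := by
  have : θ * s ≤ 1 / 100 * 1 := by gcongr
  linarith

lemma MN_case2 {N : ℕ} (h : ¬ ((N : ℝ) + 1 ≤ m ^ 2)) : 2 * m ≤ MN θ s m N := by
  have hm2 := m_ge hs0 hs1 hθ0 hθ1 hm
  have hmm := mul_m hs0 hs1 hθ0 hθ1 hm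
  unfold MN
  rw [if_neg h]
  push Not at h
  calc 2 * m = m * (θ * s) * m := by rw [hmm]
    _ = θ * s * m ^ 2 := by ring
    _ ≤ θ * s * ((N : ℝ) + 1) := by gcongr

lemma MN_one (N : ℕ) : 1 ≤ MN θ s m N := by
  have hm2 := m_ge hs0 hs1 hθ0 hθ1 hm
  by_cases h : (N : ℝ) + 1 ≤ m ^ 2
  · unfold MN
    rw [if_pos h]
    apply Real.one_le_sqrt.2
    have := Nat.cast_nonneg (α := ℝ) N
    linarith
  · have := MN_case2 hs0 hs1 hθ0 hθ1 hm h
    linarith

lemma MN_half (N : ℕ) : 2 * MN θ s m N ≤ (N : ℝ) + 2 := by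
  have hN := Nat.cast_nonneg (α := ℝ) N
  unfold MN
  split_ifs
  · have h1 := Real.sq_sqrt (show 0 ≤ (N : ℝ) + 1 by positivity)
    nlinarith [sq_nonneg (√((N : ℝ) + 1) - 1)]
  · have := ts_le hs0 hs1 hθ0 hθ1 hm
    nlinarith

lemma MN_quarter {N : ℕ} (h16 : 16 ≤ N + 1) : 4 * MN θ s m N ≤ (N : ℝ) + 1 := by
  have hN := Nat.cast_nonneg (α := ℝ) N
  have h16' : (16 : ℝ) ≤ (N : ℝ) + 1 := by exact_mod_cast h16
  unfold MN
  split_ifs
  · have h1 := Real.sq_sqrt (show 0 ≤ (N : ℝ) + 1 by positivity)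
    have h2 : 4 ≤ √((N : ℝ) + 1) := Real.le_sqrt_of_sq_le (by norm_num; linarith)
    nlinarith
  · have := ts_le hs0 hs1 hθ0 hθ1 hm
    nlinarith

lemma MN_sq {N : ℕ} (h : (N : ℝ) + 1 ≤ m ^ 2) :
    MN θ s m N ≤ m ∧ MN θ s m N ^ 2 = (N : ℝ) + 1 := by
  have hm2 := m_ge hs0 hs1 hθ0 hθ1 hm
  unfold MN
  rw [if_pos h]
  constructor
  · rw [Real.sqrt_le_left (by linarith)]
    exact h
  · exact Real.sq_sqrt (by positivity)

include hε

lemma eps_lt : ε < 1 := by rw [hε]; nlinarith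

lemma eps_pos : 0 < ε := by rw [hε]; positivity

lemma gr (n : ℕ) : (1 + (n : ℝ)) ^ (1 - ε) ≤ FG ε m (MN θ s m n) := by
  have hm2 := m_ge hs0 hs1 hθ0 hθ1 hm
  have h0 := eps_pos hε hs0 hs1 hθ0 hθ1 hm
  have h1 := eps_lt hε hs0 hs1 hθ0 hθ1 hm
  have hM := MN_one hs0 hs1 hθ0 hθ1 hm n
  have hn : (1 : ℝ) ≤ (n : ℝ) + 1 := by
    have := Nat.cast_nonneg (α := ℝ) n
    linarith
  have hn0 : (0 : ℝ) < (n : ℝ) + 1 := by positivity
  rw [add_comm (1 : ℝ) (n : ℝ)]
  by_cases h : (n : ℝ) + 1 ≤ m ^ 2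
  · obtain ⟨h2, h3⟩ := MN_sq hs0 hs1 hθ0 hθ1 hm h
    rw [FG_eq_sq h0 h1 (by linarith) (by linarith) h2, h3]
    calc ((n : ℝ) + 1) ^ (1 - ε) ≤ ((n : ℝ) + 1) ^ (1 : ℝ) :=
          Real.rpow_le_rpow_of_exponent_le hn (by linarith)
      _ = (n : ℝ) + 1 := Real.rpow_one _
  · have h2 := MN_case2 hs0 hs1 hθ0 hθ1 hm h
    have hMe : MN θ s m n = θ * s * ((n : ℝ) + 1) := by
      unfold MN
      rw [if_neg h]
    have hmm := mul_m hs0 hs1 hθ0 hθ1 hm
    have hts := ts_le hs0 hs1 hθ0 hθ1 hm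
    have hts0 : 0 < θ * s := by positivity
    set M := MN θ s m n with hMd
    have hM0 : 0 < M := by linarith
    have hm0 : 0 < m := by linarith
    have key : ((n : ℝ) + 1) ^ (1 - ε) ≤ m ^ (1 + ε) * M ^ (1 - ε) := by
      have h3 : m ≤ m ^ (1 + ε) := by
        calc m = m ^ (1 : ℝ) := (Real.rpow_one _).symm
          _ ≤ m ^ (1 + ε) := Real.rpow_le_rpow_of_exponent_le (by linarith) (by linarith)
      have h4 : θ * s ≤ (θ * s) ^ (1 - ε) := by
        calc θ * s = (θ * s) ^ (1 : ℝ) := (Real.rpow_one _).symm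
          _ ≤ (θ * s) ^ (1 - ε) :=
            Real.rpow_le_rpow_of_exponent_ge hts0 (by linarith) (by linarith)
      have hp : 0 ≤ ((n : ℝ) + 1) ^ (1 - ε) := by positivity
      calc ((n : ℝ) + 1) ^ (1 - ε) ≤ 2 * ((n : ℝ) + 1) ^ (1 - ε) := by linarith
        _ = m * ((θ * s) * ((n : ℝ) + 1) ^ (1 - ε)) := by rw [← hmm]; ring
        _ ≤ m ^ (1 + ε) * ((θ * s) ^ (1 - ε) * ((n : ℝ) + 1) ^ (1 - ε)) := by gcongr
        _ = m ^ (1 + ε) * M ^ (1 - ε) := by
            rw [hMe, Real.mul_rpow hts0.le hn0.le]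
    unfold FG
    apply le_min
    · refine key.trans ?_
      rw [sq_split (ε := ε) hM0]
      have : m ^ (1 + ε) ≤ M ^ (1 + ε) :=
        Real.rpow_le_rpow (by linarith) (by linarith) (by linarith)
      gcongr
    · exact key

/-- the kernel bound for small `δ` -/
lemma kb_small {C δ : ℝ} (N : ℕ) (hδ : 0 < δ) (hδ1 : δ ≤ 1)
    (hC : 1 / θ + √(1 / ε + 2 * m + 1) * (1 + δ / 2) / (2 * (1 - θ)) + 4 * (5 + θ / s) + 16 ≤ C) :
    KB (fun i j : Fin (N + 1) => k1 δ i j *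
      ((pg ε m (MN θ s m N) i / pg ε m (MN θ s m N) (N - i)) /
        (pg ε m (MN θ s m N) j / pg ε m (MN θ s m N) (N - j)))) (C * δ⁻¹) := by
  have hm2 := m_ge hs0 hs1 hθ0 hθ1 hm
  have hm2' : 2 ≤ m := by linarith
  have h0 := eps_pos hε hs0 hs1 hθ0 hθ1 hm
  have h1 := eps_lt hε hs0 hs1 hθ0 hθ1 hm
  have hM := MN_one hs0 hs1 hθ0 hθ1 hm N
  have hN := Nat.cast_nonneg (α := ℝ) N
  set M := MN θ s m N with hMd
  have hpos := pg_pos h0 h1 hm2' hM
  have hconst : ∀ i : ℕ, M ≤ (i : ℝ) + 1 → pg ε m M i = √(FG ε m M) :=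
    fun i h => pg_const h0 h1 hm2' hM i h
  have hΦ2 : √(FG ε m M) ^ 2 = FG ε m M := Real.sq_sqrt (FG_pos h0 h1 hm2' (by linarith)).le
  have hA := kbS (N := N) hpos hθ0 (by linarith) (fun l hl i j h => pg_dbl h0 h1 hm2' hM l hl i j h)
    (B := 1 / ε + 2 * m + 1) (by positivity) (fun i _ => beta1g h0 h1 hm2' hM i) hδ
  have hlog : 0 < Real.log (1 + δ) := Real.log_pos (by linarith)
  have hlog2 : 2 * δ / (δ + 2) ≤ Real.log (1 + δ) := Real.le_log_one_add_of_nonneg hδ.le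
  have hA' : KB (fun i j : Fin (N + 1) => k1 δ i j * (pg ε m M i / pg ε m M j))
      ((1 / θ + √(1 / ε + 2 * m + 1) * (1 + δ / 2) / (2 * (1 - θ))) * δ⁻¹) := by
    refine hA.mono (fun i j => le_rfl) ?_
    rw [add_mul]
    have hθ' : 0 < 1 - θ := by linarith
    have h2 : √(1 / ε + 2 * m + 1) / (2 * ((1 - θ) * Real.log (1 + δ))) ≤
        √(1 / ε + 2 * m + 1) / (2 * ((1 - θ) * (2 * δ / (δ + 2)))) := by
      gcongr
    have h3 : √(1 / ε + 2 * m + 1) / (2 * ((1 - θ) * (2 * δ / (δ + 2)))) =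
        √(1 / ε + 2 * m + 1) * (1 + δ / 2) / (2 * (1 - θ)) * δ⁻¹ := by
      generalize √(1 / ε + 2 * m + 1) = S
      field_simp
      ring
    linarith
  have hB2 : √(FG ε m M) ^ 2 * ∑ j ∈ range (N + 1), (pg ε m M j ^ 2)⁻¹ ≤
      (5 + θ / s) * ((N : ℝ) + 1) := by
    rw [hΦ2]
    have hts : 0 ≤ θ / s := by positivity
    by_cases h : (N : ℝ) + 1 ≤ m ^ 2
    · obtain ⟨h2, h3⟩ := MN_sq hs0 hs1 hθ0 hθ1 hm h
      have := beta2a h0 h1 hm2' hM N h2 h3.le
      refine this.trans ?_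
      gcongr
      linarith
    · refine (beta2b h0 h1 hm2' hM N).trans (le_of_eq ?_)
      have hMe : M = θ * s * ((N : ℝ) + 1) := by
        rw [hMd]
        unfold MN
        rw [if_neg h]
      have hmm := mul_m hs0 hs1 hθ0 hθ1 hm
      have e1 : 2 * m * M = 4 * ((N : ℝ) + 1) := by
        rw [hMe]
        linear_combination 2 * ((N : ℝ) + 1) * hmm
      have e2 : M / ε = θ / s * ((N : ℝ) + 1) := by
        rw [hMe, hε]
        field_simp
      rw [e1, e2]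
      ring
  have hCnn : 0 ≤ 1 / θ + √(1 / ε + 2 * m + 1) * (1 + δ / 2) / (2 * (1 - θ)) := by
    have : 0 < 1 - θ := by linarith
    positivity
  have hK := kbWS (N := N) (φ := pg ε m M) (Φ := √(FG ε m M)) hpos
    (fun i hi => hconst i (by
      have h2 := MN_half hs0 hs1 hθ0 hθ1 hm N
      have h3 : (N : ℝ) ≤ 2 * i := by exact_mod_cast hi
      linarith)) hCnn hA' hB2 (by
      intro i j hij hiN h2j h2i hnr
      by_cases h16 : 16 ≤ N + 1
      · have hq := MN_quarter hs0 hs1 hθ0 hθ1 hm h16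
        have ej : pg ε m M j = √(FG ε m M) := by
          apply hconst
          have h3 : N + 1 ≤ 4 * (j + 1) := by omega
          have h4 : (N : ℝ) + 1 ≤ 4 * ((j : ℝ) + 1) := by exact_mod_cast h3
          linarith
        have ei : pg ε m M (N - i) = √(FG ε m M) := by
          apply hconst
          have h3 : N + 1 ≤ 4 * (N - i + 1) := by omega
          have h4 : (N : ℝ) + 1 ≤ 4 * (((N - i : ℕ) : ℝ) + 1) := by exact_mod_cast h3
          linarith
        have hΦ0 : √(FG ε m M) ≠ 0 := by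
          rw [← ej]
          exact (hpos j).ne'
        rw [ej, ei, div_self hΦ0]
        norm_num
      · have hN16 : (N : ℝ) + 1 ≤ 16 := by
          have : N + 1 ≤ 16 := by omega
          exact_mod_cast this
        have hNm : (N : ℝ) + 1 ≤ m ^ 2 := by nlinarith
        obtain ⟨h2, h3⟩ := MN_sq hs0 hs1 hθ0 hθ1 hm hNm
        have g1 : ∀ k, 1 ≤ pg ε m M k := by
          intro k
          rw [← pg_zero h0 h1 hm2' hM]
          exact pg_mono h0 h1 hm2' hM 0 k (Nat.zero_le k)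
        have hΦ16 : √(FG ε m M) ^ 2 ≤ 16 := by
          rw [hΦ2]
          refine FG_le_sq.trans ?_
          rw [h3]
          exact hN16
        have hj := g1 j
        have hi := g1 (N - i)
        have hΦ0 : 0 ≤ √(FG ε m M) := Real.sqrt_nonneg _
        calc (√(FG ε m M) / pg ε m M j) * (√(FG ε m M) / pg ε m M (N - i))
            ≤ √(FG ε m M) * √(FG ε m M) := by
              apply mul_le_mul (div_le_self hΦ0 hj) (div_le_self hΦ0 hi) (by positivity) hΦ0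
          _ = √(FG ε m M) ^ 2 := by ring
          _ ≤ 16 := hΦ16) hδ hδ1
  refine hK.mono (fun i j => le_rfl) ?_
  exact mul_le_mul_of_nonneg_right hC (by positivity)

/-- the kernel bound for large `δ` -/
lemma kb_large {C δ : ℝ} (N : ℕ) (hδ : 0 < δ) (hδ1 : δ ≤ 1) (hC : 8 ≤ C * δ ^ 2) :
    KB (fun i j : Fin (N + 1) => k1 δ i j *
      ((pg ε m (MN θ s m N) i / pg ε m (MN θ s m N) (N - i)) /
        (pg ε m (MN θ s m N) j / pg ε m (MN θ s m N) (N - j)))) (C * δ⁻¹) := by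
  have hm2 := m_ge hs0 hs1 hθ0 hθ1 hm
  have hm2' : 2 ≤ m := by linarith
  have h0 := eps_pos hε hs0 hs1 hθ0 hθ1 hm
  have h1 := eps_lt hε hs0 hs1 hθ0 hθ1 hm
  have hM := MN_one hs0 hs1 hθ0 hθ1 hm N
  set M := MN θ s m N with hMd
  have hpos := pg_pos h0 h1 hm2' hM
  refine (kb_crude hδ hδ1 N).mono ?_ ?_
  · intro i j
    have hk := k1_nonneg hδ (i : ℕ) j
    have p2 := hpos j
    have p3 := hpos (N - i)
    have p1 := hpos i
    have p4 := hpos (N - j)
    by_cases hij : (j : ℕ) ≤ i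
    swap
    · have hk0 : k1 δ i j = 0 := by
        unfold k1
        rw [if_neg hij]
      rw [hk0]
      simp
    have hi := i.isLt
    obtain ⟨d, hd⟩ := Nat.exists_eq_add_of_le hij
    have hsub : (i : ℕ) - j = d := by omega
    rw [hsub]
    have e0 : (pg ε m M i / pg ε m M (N - i)) / (pg ε m M j / pg ε m M (N - j)) =
        (pg ε m M i / pg ε m M j) * (pg ε m M (N - j) / pg ε m M (N - i)) := by
      field_simp
    rw [e0]
    have hl : (1 : ℝ) ≤ (d : ℝ) + 1 := by have := Nat.cast_nonneg (α := ℝ) d; linarith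
    have f1 : pg ε m M i / pg ε m M j ≤ (d : ℝ) + 1 := by
      rw [div_le_iff₀ p2]
      apply pg_dbl h0 h1 hm2' hM _ hl
      rw [hd]
      push_cast
      have := Nat.cast_nonneg (α := ℝ) (j : ℕ)
      have := Nat.cast_nonneg (α := ℝ) d
      nlinarith
    have f2 : pg ε m M (N - j) / pg ε m M (N - i) ≤ (d : ℝ) + 1 := by
      rw [div_le_iff₀ p3]
      apply pg_dbl h0 h1 hm2' hM _ hl
      have e : N - (j : ℕ) = (N - i) + d := by omega
      rw [e]
      push_cast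
      have := Nat.cast_nonneg (α := ℝ) (N - (i : ℕ))
      have := Nat.cast_nonneg (α := ℝ) d
      nlinarith
    calc k1 δ i j * ((pg ε m M i / pg ε m M j) * (pg ε m M (N - j) / pg ε m M (N - i)))
        ≤ k1 δ i j * (((d : ℝ) + 1) * ((d : ℝ) + 1)) := by
          apply mul_le_mul_of_nonneg_left _ hk
          exact mul_le_mul f1 f2 (by positivity) (by positivity)
      _ = _ := by ring
  · rw [div_le_iff₀ (by positivity)]
    have : C * δ⁻¹ * δ ^ 3 = C * δ ^ 2 := by field_simp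
    rw [this]
    exact hC

end

end Pool.Agent.Helper57.KR
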