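import Pool.Agent.Helper57.KR.K7

/-!
# The sharp example: the constants
-/

set_option autoImplicit false

open scoped BigOperators
open Finset

namespace Pool.Agent.Helper57.KR

open Pool.Agent.Helper65.RG

universe u

/-- the constants of the example -/
lemma numer {c t r δ : ℝ} (hc : 10 ^ 4 < c) (ht0 : 0 < t) (htc : t ^ 2 * c = 1)
    (hr0 : 0 < r) (hr : r ^ 2 = 1 + 100 * t) (hδ : 0 < δ) (hδ2 : c * δ ^ 2 < 8) :
    1 / t + √(1 / (r / (2 * c)) ^ 2 + 2 * (2 / (t * (r / (2 * c)))) + 1) * (1 + δ / 2) /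
      (2 * (1 - t)) + 4 * (5 + t / (r / (2 * c))) + 16 ≤ c := by
  have hc0 : 0 < c := by linarith
  have ht1 : t < 1 / 100 := by
    have h2 : t ^ 2 * 10 ^ 4 < 1 := by
      calc t ^ 2 * 10 ^ 4 < t ^ 2 * c := by gcongr
        _ = 1 := htc
    nlinarith
  set v : ℝ := 1 / r with hv
  have hv0 : 0 < v := by positivity
  have hvr : v ^ 2 * (1 + 100 * t) = 1 := by
    rw [hv, ← hr]
    field_simp
  have hv1 : v ≤ 1 - 29 * t := by
    have h2 : 0 ≤ 42 - 4959 * t + 84100 * t ^ 2 := by nlinarith [sq_nonneg (1 / 100 - t)]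
    have h3 : 1 ≤ (1 - 29 * t) ^ 2 * (1 + 100 * t) := by
      have e : (1 - 29 * t) ^ 2 * (1 + 100 * t) =
          1 + t * (42 - 4959 * t + 84100 * t ^ 2) := by ring
      rw [e]
      have := mul_nonneg ht0.le h2
      linarith
    have h4 : v ^ 2 ≤ (1 - 29 * t) ^ 2 := by
      have h5 : v ^ 2 * (1 + 100 * t) ≤ (1 - 29 * t) ^ 2 * (1 + 100 * t) := by linarith
      exact le_of_mul_le_mul_right h5 (by positivity)
    exact le_of_sq_le_sq h4 (by linarith)
  have h1t : 1 / t = t * c := by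
    rw [div_eq_iff ht0.ne']
    linarith
  have hδ3 : δ ≤ 3 * t := by
    have h2 : c * δ ^ 2 ≤ c * (3 * t) ^ 2 := by
      have : c * (3 * t) ^ 2 = 9 * (t ^ 2 * c) := by ring
      rw [this, htc]
      linarith
    have h3 : δ ^ 2 ≤ (3 * t) ^ 2 := le_of_mul_le_mul_left h2 hc0
    exact le_of_sq_le_sq h3 (by linarith)
  have e1 : 1 / (r / (2 * c)) ^ 2 = (2 * c * v) ^ 2 := by
    rw [hv]
    field_simp
  have e2 : 2 * (2 / (t * (r / (2 * c)))) = 8 * c * v * (t * c) := by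
    rw [← h1t, hv]
    field_simp
    ring
  have e3 : t / (r / (2 * c)) = 2 * c * v * t := by
    rw [hv]
    field_simp
  have hs : √(1 / (r / (2 * c)) ^ 2 + 2 * (2 / (t * (r / (2 * c)))) + 1) ≤ 2 * c * (v + t) := by
    rw [e1, e2]
    apply Real.sqrt_le_iff.2
    constructor
    · positivity
    · have h5 : 1 ≤ 4 * c * (t ^ 2 * c) := by rw [htc]; linarith
      nlinarith
  rw [e3, h1t]
  have h1t' : 0 < 1 - t := by linarith
  have hmain : √(1 / (r / (2 * c)) ^ 2 + 2 * (2 / (t * (r / (2 * c)))) + 1) * (1 + δ / 2) /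
      (2 * (1 - t)) ≤ c * (1 - 51 / 2 * t) := by
    rw [div_le_iff₀ (by positivity)]
    calc √(1 / (r / (2 * c)) ^ 2 + 2 * (2 / (t * (r / (2 * c)))) + 1) * (1 + δ / 2)
        ≤ (2 * c * (v + t)) * (1 + 3 / 2 * t) := by
          apply mul_le_mul hs (by linarith) (by positivity) (by positivity)
      _ ≤ (2 * c * (1 - 28 * t)) * (1 + 3 / 2 * t) := by
          have : v + t ≤ 1 - 28 * t := by linarith
          gcongr
      _ = 2 * c * ((1 - 28 * t) * (1 + 3 / 2 * t)) := by ring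
      _ ≤ 2 * c * ((1 - 51 / 2 * t) * (1 - t)) := by
          have : (1 - 28 * t) * (1 + 3 / 2 * t) ≤ (1 - 51 / 2 * t) * (1 - t) := by nlinarith
          gcongr
      _ = _ := by ring
  have h36 : 36 ≤ c * t := by
    have h2 : 100 * t * t ≤ 1 * t := by gcongr; linarith
    have h3 : c * t * t = 1 := by linarith
    have h4 : 1 * t ≤ 1 / 100 := by linarith
    -- `c t = 1 / t > 100`
    have h5 : (36 : ℝ) * t ≤ c * t * t := by rw [h3]; linarith
    exact le_of_mul_le_mul_right h5 ht0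
  have hvt : 4 * (5 + 2 * c * v * t) ≤ 20 + 8 * (c * t) := by
    have : c * t * v ≤ c * t * 1 := by
      apply mul_le_mul_of_nonneg_left _ (by positivity)
      linarith
    linarith
  have hct : 0 < c * t := by positivity
  nlinarith

/-- the sharp example -/
theorem example_sharp {c : ℝ} (hc : 10 ^ 4 < c) :
    ∃ T : HS.{u} →L[ℂ] HS.{u}, spectrum ℂ T ⊆ Metric.closedBall 0 1 ∧
      (∀ z : ℂ, 1 < ‖z‖ → ‖z‖ ≤ 2 → ‖resolvent T z‖ ≤ c / (‖z‖ - 1)) ∧
      ∀ n : ℕ, (1 + (n : ℝ)) ^ (1 - (1 + 100 / √c) / (4 * c ^ 2)) ≤ ‖T ^ n‖ := by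
  have hc0 : 0 < c := by linarith
  have hsc : 0 < √c := Real.sqrt_pos.2 hc0
  set t : ℝ := 1 / √c with ht
  have ht0 : 0 < t := by positivity
  have htc : t ^ 2 * c = 1 := by
    rw [ht, div_pow, Real.sq_sqrt hc0.le]
    field_simp
  have ht1 : t ≤ 1 / 100 := by
    have h2 : t ^ 2 * 10 ^ 4 < 1 := by
      calc t ^ 2 * 10 ^ 4 < t ^ 2 * c := by gcongr
        _ = 1 := htc
    nlinarith
  set r : ℝ := √(1 + 100 * t) with hr
  have hr0 : 0 < r := Real.sqrt_pos.2 (by positivity)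
  have hr2 : r ^ 2 = 1 + 100 * t := Real.sq_sqrt (by positivity)
  have hrle : r ≤ 2 := by
    rw [hr]
    apply Real.sqrt_le_iff.2
    constructor
    · norm_num
    · linarith
  set s : ℝ := r / (2 * c) with hs
  have hs0 : 0 < s := by positivity
  have hs1 : s < 1 := by
    rw [hs, div_lt_one (by positivity)]
    linarith
  set ε : ℝ := s ^ 2 with hε
  set m : ℝ := 2 / (t * s) with hm
  have hεe : (1 + 100 / √c) / (4 * c ^ 2) = ε := by
    rw [hε, hs, div_pow, hr2, ht]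
    ring
  have hm2 := m_ge hs0 hs1 ht0 ht1 hm
  have hm2' : 2 ≤ m := by linarith
  have h0 := eps_pos hε hs0 hs1 ht0 ht1 hm
  have h1 := eps_lt hε hs0 hs1 ht0 ht1 hm
  have hk : ∀ δ : ℝ, 0 < δ → δ ≤ 1 → ∀ N : ℕ, KB (fun i j : Fin (N + 1) => k1 δ i j *
      ((pg ε m (MN t s m N) i / pg ε m (MN t s m N) (N - i)) /
        (pg ε m (MN t s m N) j / pg ε m (MN t s m N) (N - j)))) (c * δ⁻¹) := by
    intro δ hδ hδ1 N
    by_cases hδ2 : 8 ≤ c * δ ^ 2
    · exact kb_large hε hs0 hs1 ht0 ht1 hm N hδ hδ1 hδ2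
    · push Not at hδ2
      apply kb_small hε hs0 hs1 ht0 ht1 hm N hδ hδ1
      exact numer hc ht0 htc hr0 hr2 hδ hδ2
  obtain ⟨T, h2, h3, h4⟩ := exists_operatorg.{u}
    (W := fun N i => pg ε m (MN t s m N) i / pg ε m (MN t s m N) (N - i))
    (fun N i => div_pos (pg_pos h0 h1 hm2' (MN_one hs0 hs1 ht0 ht1 hm N) i)
      (pg_pos h0 h1 hm2' (MN_one hs0 hs1 ht0 ht1 hm N) (N - i))) (C := c) hc0.le hk
  refine ⟨T, h2, h3, fun n => ?_⟩
  refine le_trans ?_ (h4 n)
  have hM := MN_one hs0 hs1 ht0 ht1 hm n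
  have hh := MN_half hs0 hs1 ht0 ht1 hm n
  have hn := Nat.cast_nonneg (α := ℝ) n
  simp only [Nat.sub_self, Nat.sub_zero]
  rw [pg_zero h0 h1 hm2' hM, div_one, one_div, div_inv_eq_mul, ← sq,
    pg_const h0 h1 hm2' hM n (by linarith),
    Real.sq_sqrt (FG_pos h0 h1 hm2' (by linarith)).le, hεe]
  exact gr hε hs0 hs1 ht0 ht1 hm n

end Pool.Agent.Helper57.KR
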