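import Mathlib

/-!
# The growth lemma for sequences
-/

set_option autoImplicit false

namespace Pool.Agent.Helper57.KR

open Finset

lemma seq_S {w : ℕ → ℝ} {B : ℝ} (hB : 0 < B) (hz : ∀ i j, i ≤ j → w i = 0 → w j = 0)
    (hK : ∀ m : ℕ, 1 ≤ m → (∑ j ∈ range m, (w j ^ 2)⁻¹) ^ 2 * ∑ i ∈ Ico m (2 * m), w i ^ 2 ≤
      B * (m : ℝ) ^ 2 * ∑ j ∈ range m, (w j ^ 2)⁻¹) (k : ℕ) :
    ∀ n : ℕ, 2 ^ k ≤ n → w n ≠ 0 →
      (1 + 1 / B) ^ k * (w 0 ^ 2)⁻¹ ≤ ∑ j ∈ range (2 ^ k), (w j ^ 2)⁻¹ := by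
  induction k with
  | zero => intro n _ _; simp
  | succ k ih =>
    intro n hn hw
    have hne : ∀ i ≤ n, w i ≠ 0 := fun i hi h => hw (hz i n hi h)
    have hn' : 2 ^ k ≤ n := le_trans (Nat.pow_le_pow_right (by norm_num) (Nat.le_succ k)) hn
    have ih' := ih n hn' hw
    set m := 2 ^ k with hm
    have hm1 : 1 ≤ m := Nat.one_le_two_pow
    have h2m : 2 ^ (k + 1) = 2 * m := by rw [pow_succ, mul_comm]
    rw [h2m] at hn ⊢
    set S := ∑ j ∈ range m, (w j ^ 2)⁻¹ with hS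
    set D := ∑ i ∈ Ico m (2 * m), (w i ^ 2)⁻¹ with hD
    set W := ∑ i ∈ Ico m (2 * m), w i ^ 2 with hW
    have hsplit : ∑ j ∈ range (2 * m), (w j ^ 2)⁻¹ = S + D := by
      rw [hS, hD, sum_range_add_sum_Ico _ (by omega)]
    have hSpos : 0 < S := by
      refine sum_pos (fun j hj => ?_) ⟨0, mem_range.2 (by omega)⟩
      have := hne j (by rw [mem_range] at hj; omega)
      positivity
    have hWpos : 0 < W := by
      refine sum_pos (fun j hj => ?_) ⟨m, mem_Ico.2 (by omega)⟩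
      have := hne j (by rw [mem_Ico] at hj; omega)
      positivity
    have hK' := hK m hm1
    have h1 : S * W ≤ B * (m : ℝ) ^ 2 := by
      have : S * (S * W) ≤ S * (B * (m : ℝ) ^ 2) := by
        calc S * (S * W) = S ^ 2 * W := by ring
          _ ≤ B * (m : ℝ) ^ 2 * S := hK'
          _ = S * (B * (m : ℝ) ^ 2) := by ring
      exact le_of_mul_le_mul_left this hSpos
    have h2 : (m : ℝ) ^ 2 ≤ D * W := by
      have h3 := sum_mul_sq_le_sq_mul_sq (Ico m (2 * m)) (fun i => (w i)⁻¹) (fun i => w i)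
      have h4 : ∑ i ∈ Ico m (2 * m), (w i)⁻¹ * w i = m := by
        have : ∀ i ∈ Ico m (2 * m), (w i)⁻¹ * w i = 1 := fun i hi =>
          inv_mul_cancel₀ (hne i (by rw [mem_Ico] at hi; omega))
        rw [sum_congr rfl this, sum_const, Nat.card_Ico, show 2 * m - m = m by omega]
        simp
      rw [h4] at h3
      simpa only [inv_pow] using h3
    have h5 : S ≤ B * D := by
      have : S * W ≤ (B * D) * W := by
        calc S * W ≤ B * (m : ℝ) ^ 2 := h1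
          _ ≤ B * (D * W) := by gcongr
          _ = (B * D) * W := by ring
      exact le_of_mul_le_mul_right this hWpos
    have h6 : 1 / B * S ≤ D := by
      rw [one_div, inv_mul_le_iff₀ hB]
      exact h5
    rw [hsplit, pow_succ]
    have hB1 : 0 < 1 + 1 / B := by positivity
    calc (1 + 1 / B) ^ k * (1 + 1 / B) * (w 0 ^ 2)⁻¹
        = (1 + 1 / B) * ((1 + 1 / B) ^ k * (w 0 ^ 2)⁻¹) := by ring
      _ ≤ (1 + 1 / B) * S := by gcongr
      _ = S + 1 / B * S := by ring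
      _ ≤ S + D := by gcongr

lemma seq_growth {w : ℕ → ℝ} {B : ℝ} (hB : 0 < B) (hz : ∀ i j, i ≤ j → w i = 0 → w j = 0)
    (hK : ∀ m : ℕ, 1 ≤ m → (∑ j ∈ range m, (w j ^ 2)⁻¹) ^ 2 * ∑ i ∈ Ico m (2 * m), w i ^ 2 ≤
      B * (m : ℝ) ^ 2 * ∑ j ∈ range m, (w j ^ 2)⁻¹) (k n : ℕ) (h1 : 2 ^ k ≤ n)
    (h2 : n < 2 ^ (k + 1)) :
    (1 + 1 / B) ^ k * w n ^ 2 ≤ B * (4 : ℝ) ^ k * w 0 ^ 2 := by
  by_cases hw : w n = 0
  · rw [hw]
    have : 0 ≤ B * (4 : ℝ) ^ k * w 0 ^ 2 := by positivity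
    simpa using this
  · have hne : ∀ i ≤ n, w i ≠ 0 := fun i hi h => hw (hz i n hi h)
    have hS := seq_S hB hz hK k n h1 hw
    set m := 2 ^ k with hm
    have hm1 : 1 ≤ m := Nat.one_le_two_pow
    have h2m : 2 ^ (k + 1) = 2 * m := by rw [pow_succ, mul_comm]
    rw [h2m] at h2
    set S := ∑ j ∈ range m, (w j ^ 2)⁻¹ with hSd
    set W := ∑ i ∈ Ico m (2 * m), w i ^ 2 with hW
    have hSpos : 0 < S := by
      refine sum_pos (fun j hj => ?_) ⟨0, mem_range.2 (by omega)⟩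
      have := hne j (by rw [mem_range] at hj; omega)
      positivity
    have h3 : S * W ≤ B * (m : ℝ) ^ 2 := by
      have : S * (S * W) ≤ S * (B * (m : ℝ) ^ 2) := by
        calc S * (S * W) = S ^ 2 * W := by ring
          _ ≤ B * (m : ℝ) ^ 2 * S := hK m hm1
          _ = S * (B * (m : ℝ) ^ 2) := by ring
      exact le_of_mul_le_mul_left this hSpos
    have h4 : w n ^ 2 ≤ W :=
      single_le_sum (f := fun i => w i ^ 2) (fun i _ => sq_nonneg _) (mem_Ico.2 ⟨h1, h2⟩)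
    have h0 : w 0 ≠ 0 := hne 0 (Nat.zero_le _)
    have hB1 : 0 < 1 + 1 / B := by positivity
    have h5 : (1 + 1 / B) ^ k ≤ S * w 0 ^ 2 := by
      have : (1 + 1 / B) ^ k * (w 0 ^ 2)⁻¹ * w 0 ^ 2 ≤ S * w 0 ^ 2 := by gcongr
      rwa [mul_assoc, inv_mul_cancel₀ (by positivity), mul_one] at this
    have h6 : (m : ℝ) ^ 2 = (4 : ℝ) ^ k := by
      rw [hm]
      push_cast
      rw [← pow_mul, mul_comm k 2, pow_mul]
      norm_num
    calc (1 + 1 / B) ^ k * w n ^ 2 ≤ (S * w 0 ^ 2) * W := by gcongr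
      _ = (S * W) * w 0 ^ 2 := by ring
      _ ≤ (B * (m : ℝ) ^ 2) * w 0 ^ 2 := by gcongr
      _ = B * (4 : ℝ) ^ k * w 0 ^ 2 := by rw [h6]

end Pool.Agent.Helper57.KR
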