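import Pool.Agent.Helper57.KR.Pars
import Pool.Agent.Helper57.KR.Seq
import Pool.Agent.Helper65.RG7

/-!
# Kreiss bounded operators on Hilbert spaces have a power saving
-/

set_option autoImplicit false

namespace Pool.Agent.Helper57.KR

open Finset Filter Topology Pool.Agent.Helper65.RG

universe u

variable {H : Type u} [NormedAddCommGroup H] [InnerProductSpace ℂ H] [CompleteSpace H]

/-- the resolvent bound applied to a vector -/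
lemma res_bound {c : ℝ} {T : H →L[ℂ] H} (hs : spectrum ℂ T ⊆ Metric.closedBall 0 1)
    (hT : ∀ z : ℂ, 1 < ‖z‖ → ‖z‖ ≤ 2 → ‖resolvent T z‖ ≤ c / (‖z‖ - 1)) {r : ℝ} (h1 : 1 < r)
    (h2 : r ≤ 2) {ω : ℂ} (hω : ‖ω‖ = 1) (q : H) :
    ‖q‖ ≤ c / (r - 1) * ‖(r : ℂ) • q - ω • T q‖ := by
  have hω0 : ω ≠ 0 := by rintro rfl; simp at hω
  set z : ℂ := r * ω⁻¹ with hz
  have hzn : ‖z‖ = r := by
    rw [hz, norm_mul, norm_inv, hω, inv_one, mul_one, Complex.norm_real,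
      Real.norm_of_nonneg (by linarith)]
  have hzr : z ∈ resolventSet ℂ T := by
    by_contra h
    have h3 := hs (show z ∈ spectrum ℂ T from h)
    rw [Metric.mem_closedBall, dist_zero_right, hzn] at h3
    linarith
  have hu : IsUnit (algebraMap ℂ (H →L[ℂ] H) z - T) := hzr
  have e1 : resolvent T z * (algebraMap ℂ (H →L[ℂ] H) z - T) = 1 := Ring.inverse_mul_cancel _ hu
  have e2 : resolvent T z ((algebraMap ℂ (H →L[ℂ] H) z - T) q) = q := by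
    have := congrArg (fun A : H →L[ℂ] H => A q) e1
    simpa using this
  have e3 : (algebraMap ℂ (H →L[ℂ] H) z - T) q = z • q - T q := by
    rw [Algebra.algebraMap_eq_smul_one]
    simp
  have e4 : (r : ℂ) • q - ω • T q = ω • (z • q - T q) := by
    rw [smul_sub, smul_smul, hz]
    congr 2
    field_simp
  rw [e4, norm_smul, hω, one_mul]
  calc ‖q‖ = ‖resolvent T z (z • q - T q)‖ := by rw [← e3, e2]
    _ ≤ ‖resolvent T z‖ * ‖z • q - T q‖ := ContinuousLinearMap.le_opNorm _ _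
    _ ≤ c / (r - 1) * ‖z • q - T q‖ := by
      have := hT z (by rw [hzn]; exact h1) (by rw [hzn]; exact h2)
      rw [hzn] at this
      gcongr

lemma bb_nonneg {cs : ℕ → ℝ} (h0 : ∀ j, 0 ≤ cs j) {r : ℝ} (hr : 0 < r) (L : ℕ) : 0 ≤ bb cs r L := by
  unfold bb
  have : 0 ≤ ∑ j ∈ range (L + 1), cs j * r ^ j :=
    sum_nonneg fun j _ => mul_nonneg (h0 j) (by positivity)
  positivity

/-- the Plancherel estimate, finite form -/
lemma planch {c : ℝ} (hc : 0 ≤ c) {T : H →L[ℂ] H} (hs : spectrum ℂ T ⊆ Metric.closedBall 0 1)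
    (hT : ∀ z : ℂ, 1 < ‖z‖ → ‖z‖ ≤ 2 → ‖resolvent T z‖ ≤ c / (‖z‖ - 1)) {r : ℝ} (h1 : 1 < r)
    (h2 : r ≤ 2) (cs : ℕ → ℝ) (x : H) (L : ℕ) :
    ∑ i ∈ range (L + 1), bb cs r i ^ 2 * ‖(T ^ i) x‖ ^ 2 ≤
      2 * (c / (r - 1)) ^ 2 * (∑ i ∈ range (L + 1), cs i ^ 2 * ‖(T ^ i) x‖ ^ 2 +
        (bb cs r L) ^ 2 * ‖(T ^ (L + 1)) x‖ ^ 2) := by
  have hr : r ≠ 0 := by linarith
  obtain ⟨ζ, hζ⟩ : ∃ ζ : ℂ, IsPrimitiveRoot ζ (L + 1) :=
    ⟨_, Complex.isPrimitiveRoot_exp (L + 1) (by omega)⟩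
  have hζn : ‖ζ‖ = 1 := hζ.norm'_eq_one (by omega)
  have p1 := parseval hζ le_rfl (fun i => (bb cs r i : ℂ) • (T ^ i) x)
  have p2 := parseval hζ le_rfl (fun i => (cs i : ℂ) • (T ^ i) x)
  have hA : 0 ≤ c / (r - 1) := div_nonneg hc (by linarith)
  have hk : ∀ k ∈ range (L + 1),
      ‖∑ i ∈ range (L + 1), (ζ ^ (k * i)) • ((bb cs r i : ℂ) • (T ^ i) x)‖ ^ 2 ≤
      2 * (c / (r - 1)) ^ 2 * (‖∑ i ∈ range (L + 1), (ζ ^ (k * i)) • ((cs i : ℂ) • (T ^ i) x)‖ ^ 2 +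
        (bb cs r L) ^ 2 * ‖(T ^ (L + 1)) x‖ ^ 2) := by
    intro k _
    have hω : ‖ζ ^ k‖ = 1 := by rw [norm_pow, hζn, one_pow]
    have hi := ident (c := cs) hr T x (ζ ^ k) L
    have hb := res_bound hs hT h1 h2 hω
      (∑ i ∈ range (L + 1), (ζ ^ k) ^ i • ((bb cs r i : ℂ) • (T ^ i) x))
    rw [hi] at hb
    simp only [← pow_mul] at hb
    set q := ∑ i ∈ range (L + 1), (ζ ^ (k * i)) • ((bb cs r i : ℂ) • (T ^ i) x) with hq
    set p := ∑ i ∈ range (L + 1), (ζ ^ (k * i)) • ((cs i : ℂ) • (T ^ i) x) with hp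
    have h3 : ‖p - ζ ^ (k * (L + 1)) • ((bb cs r L : ℂ) • (T ^ (L + 1)) x)‖ ≤
        ‖p‖ + |bb cs r L| * ‖(T ^ (L + 1)) x‖ := by
      refine (norm_sub_le _ _).trans ?_
      rw [norm_smul, norm_smul, norm_pow, hζn, one_pow, one_mul, Complex.norm_real,
        Real.norm_eq_abs]
    have h4 : ‖q‖ ≤ c / (r - 1) * (‖p‖ + |bb cs r L| * ‖(T ^ (L + 1)) x‖) :=
      hb.trans (by gcongr)
    calc ‖q‖ ^ 2 ≤ (c / (r - 1) * (‖p‖ + |bb cs r L| * ‖(T ^ (L + 1)) x‖)) ^ 2 := by gcongr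
      _ = (c / (r - 1)) ^ 2 * (‖p‖ + |bb cs r L| * ‖(T ^ (L + 1)) x‖) ^ 2 := by ring
      _ ≤ (c / (r - 1)) ^ 2 * (2 * (‖p‖ ^ 2 + (|bb cs r L| * ‖(T ^ (L + 1)) x‖) ^ 2)) := by
        gcongr
        exact add_sq_le
      _ = 2 * (c / (r - 1)) ^ 2 * (‖p‖ ^ 2 + (bb cs r L) ^ 2 * ‖(T ^ (L + 1)) x‖ ^ 2) := by
        rw [mul_pow, sq_abs]
        ring
  have hsum := sum_le_sum hk
  rw [p1, ← mul_sum, sum_add_distrib, p2, sum_const, card_range, nsmul_eq_mul] at hsum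
  have hN : (0 : ℝ) < ((L + 1 : ℕ) : ℝ) := by positivity
  have e1 : ∀ (f : ℕ → ℝ), ∑ i ∈ range (L + 1), ‖(f i : ℂ) • (T ^ i) x‖ ^ 2 =
      ∑ i ∈ range (L + 1), f i ^ 2 * ‖(T ^ i) x‖ ^ 2 := by
    intro f
    refine sum_congr rfl fun i _ => ?_
    rw [norm_smul, Complex.norm_real, Real.norm_eq_abs, mul_pow, sq_abs]
  rw [e1, e1] at hsum
  refine le_of_mul_le_mul_left ?_ hN
  refine hsum.trans (le_of_eq ?_)
  ring

end Pool.Agent.Helper57.KR
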