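import Mathlib

/-!
# Kreiss bounded operators on Hilbert spaces: Parseval on the roots of unity, the finite resolvent identity
-/

set_option autoImplicit false

namespace Pool.Agent.Helper57.KR

open Finset

variable {H : Type*} [NormedAddCommGroup H] [InnerProductSpace ℂ H]

lemma orth {N : ℕ} {ζ : ℂ} (hζ : IsPrimitiveRoot ζ N) {i j : ℕ} (hi : i < N) (hj : j < N) :
    ∑ k ∈ range N, (starRingEnd ℂ) (ζ ^ (k * i)) * ζ ^ (k * j) = if i = j then (N : ℂ) else 0 := by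
  have hN : N ≠ 0 := by omega
  have hz0 : ζ ≠ 0 := hζ.ne_zero hN
  have hn : ‖ζ‖ = 1 := hζ.norm'_eq_one hN
  have hc : (starRingEnd ℂ) ζ = ζ⁻¹ := (Complex.inv_eq_conj hn).symm
  have e : ∀ k ∈ range N, (starRingEnd ℂ) (ζ ^ (k * i)) * ζ ^ (k * j) = ((ζ⁻¹) ^ i * ζ ^ j) ^ k := by
    intro k _
    rw [map_pow, hc, mul_pow, ← pow_mul, ← pow_mul, mul_comm i k, mul_comm j k]
  rw [sum_congr rfl e]
  split_ifs with h
  · subst h
    have : (ζ⁻¹) ^ i * ζ ^ i = 1 := by rw [← mul_pow, inv_mul_cancel₀ hz0, one_pow]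
    simp only [this, one_pow, sum_const, card_range, nsmul_eq_mul, mul_one]
  · have hne : (ζ⁻¹) ^ i * ζ ^ j ≠ 1 := by
      intro h1
      apply h
      have h2 : ζ ^ j = ζ ^ i := by
        have : ζ ^ i * ((ζ⁻¹) ^ i * ζ ^ j) = ζ ^ i * 1 := by rw [h1]
        rwa [← mul_assoc, ← mul_pow, mul_inv_cancel₀ hz0, one_pow, one_mul, mul_one] at this
      exact (hζ.pow_inj hj hi h2).symm
    rw [geom_sum_eq hne]
    have h3 : ((ζ⁻¹) ^ i * ζ ^ j) ^ N = 1 := by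
      rw [mul_pow, ← pow_mul, ← pow_mul, mul_comm i N, mul_comm j N, pow_mul, pow_mul, inv_pow,
        hζ.pow_eq_one]
      simp
    rw [h3]
    simp

lemma nsq (v : H) : ((‖v‖ : ℝ) : ℂ) ^ 2 = inner ℂ v v :=
  (inner_self_eq_norm_sq_to_K (𝕜 := ℂ) v).symm

lemma parseval {N : ℕ} {ζ : ℂ} (hζ : IsPrimitiveRoot ζ N) {L : ℕ} (hL : L ≤ N) (a : ℕ → H) :
    ∑ k ∈ range N, ‖∑ i ∈ range L, (ζ ^ (k * i)) • a i‖ ^ 2 = N * ∑ i ∈ range L, ‖a i‖ ^ 2 := by
  have h1 : ((∑ k ∈ range N, ‖∑ i ∈ range L, (ζ ^ (k * i)) • a i‖ ^ 2 : ℝ) : ℂ) =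
      ((N * ∑ i ∈ range L, ‖a i‖ ^ 2 : ℝ) : ℂ) := by
    push_cast
    have e1 : ∀ k ∈ range N, ((‖∑ i ∈ range L, (ζ ^ (k * i)) • a i‖ : ℂ)) ^ 2 =
        ∑ i ∈ range L, ∑ j ∈ range L,
          ((starRingEnd ℂ) (ζ ^ (k * i)) * ζ ^ (k * j)) * inner ℂ (a i) (a j) := by
      intro k _
      rw [nsq, sum_inner]
      refine sum_congr rfl fun i _ => ?_
      rw [inner_sum]
      refine sum_congr rfl fun j _ => ?_
      rw [inner_smul_left, inner_smul_right]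
      ring
    rw [sum_congr rfl e1, sum_comm]
    rw [mul_sum]
    refine sum_congr rfl fun i hi => ?_
    rw [sum_comm]
    have e2 : ∀ j ∈ range L, ∑ k ∈ range N,
        ((starRingEnd ℂ) (ζ ^ (k * i)) * ζ ^ (k * j)) * inner ℂ (a i) (a j) =
        if i = j then (N : ℂ) * inner ℂ (a i) (a j) else 0 := by
      intro j hj
      rw [← sum_mul, orth hζ (by rw [mem_range] at hi; omega) (by rw [mem_range] at hj; omega)]
      split_ifs <;> simp
    rw [sum_congr rfl e2, sum_ite_eq, if_pos hi, nsq]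
  exact_mod_cast h1

/-- the coefficients of the resolvent applied to a sequence with coefficients `c` -/
noncomputable def bb (c : ℕ → ℝ) (r : ℝ) (L : ℕ) : ℝ := (∑ j ∈ range (L + 1), c j * r ^ j) / r ^ (L + 1)

lemma bb_succ {c : ℕ → ℝ} {r : ℝ} (hr : r ≠ 0) (L : ℕ) : r * bb c r (L + 1) = bb c r L + c (L + 1) := by
  unfold bb
  rw [sum_range_succ _ (L + 1)]
  field_simp
  ring

lemma bb_zero {c : ℕ → ℝ} {r : ℝ} (hr : r ≠ 0) : r * bb c r 0 = c 0 := by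
  unfold bb
  simp
  field_simp

/-- the finite resolvent identity -/
lemma ident {c : ℕ → ℝ} {r : ℝ} (hr : r ≠ 0) (T : H →L[ℂ] H) (x : H) (ω : ℂ) (L : ℕ) :
    (r : ℂ) • (∑ i ∈ range (L + 1), ω ^ i • ((bb c r i : ℂ) • (T ^ i) x)) -
      ω • T (∑ i ∈ range (L + 1), ω ^ i • ((bb c r i : ℂ) • (T ^ i) x)) =
    ∑ i ∈ range (L + 1), ω ^ i • ((c i : ℂ) • (T ^ i) x) -
      ω ^ (L + 1) • ((bb c r L : ℂ) • (T ^ (L + 1)) x) := by
  have hT : ∀ i : ℕ, T ((T ^ i) x) = (T ^ (i + 1)) x := by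
    intro i
    rw [pow_succ']
    rfl
  induction L with
  | zero =>
    have h0 : (r : ℂ) * (bb c r 0 : ℂ) = (c 0 : ℂ) := by exact_mod_cast bb_zero (c := c) hr
    simp only [zero_add, sum_range_one, pow_zero, one_smul, pow_one, map_smul]
    rw [smul_smul, h0]
    rfl
  | succ L ih =>
    have h0 : (r : ℂ) * (bb c r (L + 1) : ℂ) = (bb c r L : ℂ) + (c (L + 1) : ℂ) := by
      exact_mod_cast bb_succ (c := c) hr L
    rw [sum_range_succ _ (L + 1), map_add, smul_add, smul_add, add_sub_add_comm, ih,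
      sum_range_succ _ (L + 1)]
    simp only [map_smul, hT]
    have h1 : (r : ℂ) • (ω ^ (L + 1) • ((bb c r (L + 1) : ℂ) • (T ^ (L + 1)) x)) =
        ω ^ (L + 1) • ((bb c r L : ℂ) • (T ^ (L + 1)) x) +
          ω ^ (L + 1) • ((c (L + 1) : ℂ) • (T ^ (L + 1)) x) := by
      rw [smul_comm, smul_smul (r : ℂ), h0, add_smul, smul_add]
    rw [h1, smul_smul ω, ← pow_succ']
    abel

end Pool.Agent.Helper57.KR
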