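import Pool.Agent.Helper57.KR.Ker

/-!
# The weights
-/

set_option autoImplicit false

open scoped BigOperators
open Finset

namespace Pool.Agent.Helper57.KR

open Pool.Agent.Helper65.RG

/-- `m = 2 / √ε` -/
noncomputable def mm (ε : ℝ) : ℝ := 2 / √ε

/-- the square of the weight -/
noncomputable def FF (ε x : ℝ) : ℝ := min (x ^ 2) (mm ε ^ (1 + ε) * x ^ (1 - ε))

/-- the point where the weight becomes constant -/
noncomputable def MM (ε : ℝ) (N : ℕ) : ℝ := max (mm ε) (√ε * ((N : ℝ) + 1))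

noncomputable def xx (ε : ℝ) (N i : ℕ) : ℝ := min ((i : ℝ) + 1) (MM ε N)

noncomputable def ph (ε : ℝ) (N i : ℕ) : ℝ := √(FF ε (xx ε N i))

section

variable {ε : ℝ} (h0 : 0 < ε) (h1 : ε < 1)

include h0 h1

lemma mm_two : 2 ≤ mm ε := by
  unfold mm
  rw [le_div_iff₀ (Real.sqrt_pos.2 h0)]
  have : √ε ≤ 1 := Real.sqrt_le_one.2 h1.le
  linarith

lemma FF_pos {x : ℝ} (hx : 0 < x) : 0 < FF ε x := by
  have := mm_two h0 h1
  unfold FF
  exact lt_min (by positivity) (by positivity)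

lemma FF_mono {x y : ℝ} (hx : 0 < x) (hxy : x ≤ y) : FF ε x ≤ FF ε y := by
  have := mm_two h0 h1
  unfold FF
  apply min_le_min
  · gcongr
  · apply mul_le_mul_of_nonneg_left _ (by positivity)
    exact Real.rpow_le_rpow hx.le hxy (by linarith)

lemma FF_dbl {l x : ℝ} (hl : 1 ≤ l) (hx : 0 < x) : FF ε (l * x) ≤ l ^ 2 * FF ε x := by
  have hm := mm_two h0 h1
  have hl0 : 0 < l := by linarith
  unfold FF
  rw [mul_min_of_nonneg _ _ (by positivity : (0 : ℝ) ≤ l ^ 2)]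
  apply min_le_min
  · rw [mul_pow]
  · rw [Real.mul_rpow hl0.le hx.le]
    have h3 : l ^ (1 - ε) ≤ l ^ (2 : ℝ) := Real.rpow_le_rpow_of_exponent_le hl (by linarith)
    have h4 : l ^ (2 : ℝ) = l ^ 2 := by
      rw [← Real.rpow_natCast]
      norm_num
    rw [h4] at h3
    calc mm ε ^ (1 + ε) * (l ^ (1 - ε) * x ^ (1 - ε))
        = l ^ (1 - ε) * (mm ε ^ (1 + ε) * x ^ (1 - ε)) := by ring
      _ ≤ l ^ 2 * (mm ε ^ (1 + ε) * x ^ (1 - ε)) := by gcongr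

lemma MM_two (N : ℕ) : 2 ≤ MM ε N := (mm_two h0 h1).trans (le_max_left _ _)

lemma xx_pos (N i : ℕ) : 0 < xx ε N i := by
  have := MM_two h0 h1 N
  unfold xx
  exact lt_min (by positivity) (by linarith)

lemma xx_mono (N : ℕ) {i j : ℕ} (h : i ≤ j) : xx ε N i ≤ xx ε N j := by
  unfold xx
  apply min_le_min_right
  have : (i : ℝ) ≤ j := by exact_mod_cast h
  linarith

lemma xx_dbl (N l : ℕ) (hl : 1 ≤ l) {i j : ℕ} (h : i + 1 ≤ l * (j + 1)) :
    xx ε N i ≤ l * xx ε N j := by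
  have hM := MM_two h0 h1 N
  have hl' : (1 : ℝ) ≤ l := by exact_mod_cast hl
  unfold xx
  rw [mul_min_of_nonneg _ _ (by positivity : (0 : ℝ) ≤ (l : ℝ))]
  apply min_le_min
  · exact_mod_cast h
  · nlinarith

lemma ph_pos (N i : ℕ) : 0 < ph ε N i := Real.sqrt_pos.2 (FF_pos h0 h1 (xx_pos h0 h1 N i))

lemma ph_sq (N i : ℕ) : ph ε N i ^ 2 = FF ε (xx ε N i) :=
  Real.sq_sqrt (FF_pos h0 h1 (xx_pos h0 h1 N i)).le

lemma ph_mono (N i j : ℕ) (h : i ≤ j) : ph ε N i ≤ ph ε N j :=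
  Real.sqrt_le_sqrt (FF_mono h0 h1 (xx_pos h0 h1 N i) (xx_mono h0 h1 N h))

lemma ph_dbl (N l : ℕ) (hl : 1 ≤ l) (i j : ℕ) (h : i + 1 ≤ l * (j + 1)) :
    ph ε N i ≤ l * ph ε N j := by
  have hl' : (1 : ℝ) ≤ l := by exact_mod_cast hl
  have h2 : FF ε (xx ε N i) ≤ (l : ℝ) ^ 2 * FF ε (xx ε N j) :=
    (FF_mono h0 h1 (xx_pos h0 h1 N i) (xx_dbl h0 h1 N l hl h)).trans
      (FF_dbl h0 h1 hl' (xx_pos h0 h1 N j))
  unfold ph
  calc √(FF ε (xx ε N i)) ≤ √((l : ℝ) ^ 2 * FF ε (xx ε N j)) := Real.sqrt_le_sqrt h2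
    _ = l * √(FF ε (xx ε N j)) := by
      rw [Real.sqrt_mul (by positivity), Real.sqrt_sq (by positivity)]

/-- `F x ≤ m x` -/
lemma FF_le_mul {x : ℝ} (hx : 0 < x) : FF ε x ≤ mm ε * x := by
  have hm := mm_two h0 h1
  have hm0 : 0 < mm ε := by linarith
  unfold FF
  rcases le_total x (mm ε) with h | h
  · refine (min_le_left _ _).trans ?_
    nlinarith
  · refine (min_le_right _ _).trans ?_
    have e1 : mm ε ^ (1 + ε) = mm ε * mm ε ^ ε := by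
      rw [Real.rpow_add hm0, Real.rpow_one]
    have e2 : x ^ (1 - ε) * x ^ ε = x := by
      rw [← Real.rpow_add hx]
      simp
    have h3 : mm ε ^ ε ≤ x ^ ε := Real.rpow_le_rpow hm0.le h h0.le
    calc mm ε ^ (1 + ε) * x ^ (1 - ε) = mm ε * (x ^ (1 - ε) * mm ε ^ ε) := by rw [e1]; ring
      _ ≤ mm ε * (x ^ (1 - ε) * x ^ ε) := by gcongr
      _ = mm ε * x := by rw [e2]

/-- the reciprocal of the square of the weight -/
lemma inv_FF_le (N j : ℕ) :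
    (FF ε (xx ε N j))⁻¹ ≤ (((j : ℝ) + 1) ^ 2)⁻¹ +
      (if mm ε < (j : ℝ) + 1 ∧ (j : ℝ) + 1 ≤ MM ε N then
        (mm ε ^ (1 + ε))⁻¹ * (1 + (j : ℝ)) ^ (-(1 - ε)) else 0) + (FF ε (MM ε N))⁻¹ := by
  have hm := mm_two h0 h1
  have hM := MM_two h0 h1 N
  have hj : (0 : ℝ) < (j : ℝ) + 1 := by positivity
  have hF : 0 < FF ε (MM ε N) := FF_pos h0 h1 (by linarith)
  have hif : 0 ≤ (if mm ε < (j : ℝ) + 1 ∧ (j : ℝ) + 1 ≤ MM ε N then
        (mm ε ^ (1 + ε))⁻¹ * (1 + (j : ℝ)) ^ (-(1 - ε)) else 0) := by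
    split_ifs
    · positivity
    · exact le_rfl
  have hsq : 0 ≤ (((j : ℝ) + 1) ^ 2)⁻¹ := by positivity
  have hFi : 0 ≤ (FF ε (MM ε N))⁻¹ := by positivity
  rcases le_total ((j : ℝ) + 1) (MM ε N) with h | h
  · have ex : xx ε N j = (j : ℝ) + 1 := min_eq_left h
    rw [ex]
    rcases le_or_gt ((j : ℝ) + 1) (mm ε) with h2 | h2
    · have e : FF ε ((j : ℝ) + 1) = ((j : ℝ) + 1) ^ 2 := by
        unfold FF
        apply min_eq_left
        have e1 : ((j : ℝ) + 1) ^ 2 = ((j : ℝ) + 1) ^ (1 + ε) * ((j : ℝ) + 1) ^ (1 - ε) := by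
          rw [← Real.rpow_add hj, ← Real.rpow_natCast]
          congr 1
          push_cast
          ring
        rw [e1]
        have : ((j : ℝ) + 1) ^ (1 + ε) ≤ mm ε ^ (1 + ε) :=
          Real.rpow_le_rpow hj.le h2 (by linarith)
        gcongr
      rw [e]
      linarith
    · rw [if_pos ⟨h2, h⟩]
      have e3 : (mm ε ^ (1 + ε) * ((j : ℝ) + 1) ^ (1 - ε))⁻¹ =
          (mm ε ^ (1 + ε))⁻¹ * (1 + (j : ℝ)) ^ (-(1 - ε)) := by
        rw [mul_inv, add_comm (1 : ℝ) (j : ℝ), Real.rpow_neg hj.le]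
      rw [← e3]
      have e4 : (FF ε ((j : ℝ) + 1))⁻¹ ≤ (((j : ℝ) + 1) ^ 2)⁻¹ +
          (mm ε ^ (1 + ε) * ((j : ℝ) + 1) ^ (1 - ε))⁻¹ := by
        unfold FF
        have q1 : 0 ≤ (mm ε ^ (1 + ε) * ((j : ℝ) + 1) ^ (1 - ε))⁻¹ := by positivity
        rcases min_choice (((j : ℝ) + 1) ^ 2) (mm ε ^ (1 + ε) * ((j : ℝ) + 1) ^ (1 - ε)) with h5 | h5
        · rw [h5]; linarith
        · rw [h5]; linarith
      linarith
  · have ex : xx ε N j = MM ε N := min_eq_right h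
    rw [ex]
    linarith

lemma sum_inv_sq (n : ℕ) : ∑ j ∈ range n, (((j : ℝ) + 1) ^ 2)⁻¹ ≤ 2 := by
  have h : ∀ n : ℕ, ∑ j ∈ range (n + 1), (((j : ℝ) + 1) ^ 2)⁻¹ ≤ 2 - ((n : ℝ) + 1)⁻¹ := by
    intro n
    induction n with
    | zero => norm_num
    | succ n ih =>
      rw [sum_range_succ]
      have : (((n + 1 : ℕ) : ℝ) + 1) ^ 2 = ((n : ℝ) + 2) ^ 2 := by push_cast; ring
      rw [this]
      have h2 : (((n : ℝ) + 2) ^ 2)⁻¹ ≤ ((n : ℝ) + 1)⁻¹ - ((n : ℝ) + 2)⁻¹ := by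
        have e : ((n : ℝ) + 1)⁻¹ - ((n : ℝ) + 2)⁻¹ = (((n : ℝ) + 1) * ((n : ℝ) + 2))⁻¹ := by
          field_simp
          ring
        rw [e]
        apply inv_anti₀ (by positivity)
        nlinarith [Nat.cast_nonneg (α := ℝ) n]
      have e2 : (((n + 1 : ℕ) : ℝ) + 1)⁻¹ = ((n : ℝ) + 2)⁻¹ := by push_cast; congr 1; ring
      rw [e2]
      linarith
  rcases n with _ | n
  · simp
  · have := h n
    have h3 : 0 < ((n : ℝ) + 1)⁻¹ := by positivity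
    linarith

lemma inv_sqrt_le : 1 / √ε ≤ 1 / ε := by
  have h2 : ε ≤ √ε := by
    rw [Real.le_sqrt h0.le h0.le]
    nlinarith
  exact one_div_le_one_div_of_le h0 h2

lemma one_le_inv_sqrt : 1 ≤ 1 / √ε := by
  rw [le_div_iff₀ (Real.sqrt_pos.2 h0), one_mul]
  exact Real.sqrt_le_one.2 h1.le

/-- the sum of the middle terms -/
lemma mid_sum (n : ℕ) {M : ℝ} (hM : 0 ≤ M) :
    ∑ j ∈ range n, (if mm ε < (j : ℝ) + 1 ∧ (j : ℝ) + 1 ≤ M then
        (mm ε ^ (1 + ε))⁻¹ * (1 + (j : ℝ)) ^ (-(1 - ε)) else 0) ≤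
      (mm ε ^ (1 + ε))⁻¹ * ((min (n : ℝ) M) ^ ε / ε) := by
  have hm := mm_two h0 h1
  set K : ℕ := min n ⌊M⌋₊ with hK
  have hKn : K ≤ n := min_le_left _ _
  have hKM : (K : ℝ) ≤ min (n : ℝ) M := by
    apply le_min
    · exact_mod_cast hKn
    · exact (Nat.cast_le.2 (min_le_right n ⌊M⌋₊)).trans (Nat.floor_le hM)
  calc ∑ j ∈ range n, (if mm ε < (j : ℝ) + 1 ∧ (j : ℝ) + 1 ≤ M then
        (mm ε ^ (1 + ε))⁻¹ * (1 + (j : ℝ)) ^ (-(1 - ε)) else 0)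
      ≤ ∑ j ∈ range K, (mm ε ^ (1 + ε))⁻¹ * (1 + (j : ℝ)) ^ (-(1 - ε)) := by
        have h2 : ∑ j ∈ range n, (if mm ε < (j : ℝ) + 1 ∧ (j : ℝ) + 1 ≤ M then
            (mm ε ^ (1 + ε))⁻¹ * (1 + (j : ℝ)) ^ (-(1 - ε)) else 0) =
            ∑ j ∈ range K, (if mm ε < (j : ℝ) + 1 ∧ (j : ℝ) + 1 ≤ M then
            (mm ε ^ (1 + ε))⁻¹ * (1 + (j : ℝ)) ^ (-(1 - ε)) else 0) := by
          symm
          apply sum_subset
          · intro j hj
            rw [mem_range] at *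
            omega
          · intro j hj hj2
            rw [mem_range] at hj hj2
            rw [if_neg]
            rintro ⟨_, h4⟩
            apply hj2
            have h5 : j + 1 ≤ ⌊M⌋₊ := Nat.le_floor (by push_cast; exact h4)
            rw [hK]
            exact lt_min hj (by omega)
        rw [h2]
        refine sum_le_sum fun j _ => ?_
        split_ifs
        · exact le_rfl
        · positivity
    _ = (mm ε ^ (1 + ε))⁻¹ * ∑ j ∈ range K, (1 + (j : ℝ)) ^ (-(1 - ε)) := by rw [mul_sum]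
    _ ≤ (mm ε ^ (1 + ε))⁻¹ * ((K : ℝ) ^ (1 - (1 - ε)) / (1 - (1 - ε))) := by
        apply mul_le_mul_of_nonneg_left _ (by positivity)
        exact sum_small (by linarith) (by linarith) K
    _ = (mm ε ^ (1 + ε))⁻¹ * ((K : ℝ) ^ ε / ε) := by rw [sub_sub_cancel]
    _ ≤ (mm ε ^ (1 + ε))⁻¹ * ((min (n : ℝ) M) ^ ε / ε) := by
        gcongr

lemma sum_ph (N n : ℕ) :
    ∑ j ∈ range n, (ph ε N j ^ 2)⁻¹ ≤ 2 +
      (∑ j ∈ range n, (if mm ε < (j : ℝ) + 1 ∧ (j : ℝ) + 1 ≤ MM ε N then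
        (mm ε ^ (1 + ε))⁻¹ * (1 + (j : ℝ)) ^ (-(1 - ε)) else 0)) + n * (FF ε (MM ε N))⁻¹ := by
  calc ∑ j ∈ range n, (ph ε N j ^ 2)⁻¹
      ≤ ∑ j ∈ range n, ((((j : ℝ) + 1) ^ 2)⁻¹ +
      (if mm ε < (j : ℝ) + 1 ∧ (j : ℝ) + 1 ≤ MM ε N then
        (mm ε ^ (1 + ε))⁻¹ * (1 + (j : ℝ)) ^ (-(1 - ε)) else 0) + (FF ε (MM ε N))⁻¹) := by
        refine sum_le_sum fun j _ => ?_
        rw [ph_sq h0 h1]
        exact inv_FF_le h0 h1 N j
    _ ≤ _ := by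
        rw [sum_add_distrib, sum_add_distrib, sum_const, card_range, nsmul_eq_mul]
        have := sum_inv_sq h0 h1 n
        linarith

lemma FF_le_pow {x : ℝ} : FF ε x ≤ mm ε ^ (1 + ε) * x ^ (1 - ε) := min_le_right _ _

/-- first bound -/
lemma beta1 (N i : ℕ) :
    ph ε N i ^ 2 * ∑ j ∈ range (i + 1), (ph ε N j ^ 2)⁻¹ ≤ 6 / ε * ((i : ℝ) + 1) := by
  have hm := mm_two h0 h1
  have hM := MM_two h0 h1 N
  have hx := xx_pos h0 h1 N i
  have hxi : xx ε N i ≤ (i : ℝ) + 1 := min_le_left _ _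
  have hxM : xx ε N i ≤ MM ε N := min_le_right _ _
  have hF : 0 < FF ε (MM ε N) := FF_pos h0 h1 (by linarith)
  have hFx : 0 < FF ε (xx ε N i) := FF_pos h0 h1 hx
  have hi : (0 : ℝ) < (i : ℝ) + 1 := by positivity
  have hs := sum_ph h0 h1 N (i + 1)
  have hmid := mid_sum h0 h1 (i + 1) (M := MM ε N) (by linarith)
  have hmin : (min (((i + 1 : ℕ) : ℝ)) (MM ε N)) ^ ε ≤ ((i : ℝ) + 1) ^ ε := by
    apply Real.rpow_le_rpow (le_min (by positivity) (by linarith)) _ h0.le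
    refine (min_le_left _ _).trans ?_
    push_cast
    exact le_rfl
  rw [ph_sq h0 h1]
  set F := FF ε (xx ε N i) with hFd
  set A := mm ε ^ (1 + ε) with hA
  have hA0 : 0 < A := by positivity
  have c1 : F * 2 ≤ 4 / ε * ((i : ℝ) + 1) := by
    have h2 : F ≤ mm ε * ((i : ℝ) + 1) := (FF_le_mul h0 h1 hx).trans (by gcongr)
    have h3 : mm ε ≤ 2 / ε := by
      have := inv_sqrt_le h0 h1
      calc mm ε = 2 * (1 / √ε) := by unfold mm; ring
        _ ≤ 2 * (1 / ε) := by gcongr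
        _ = 2 / ε := by ring
    calc F * 2 ≤ (mm ε * ((i : ℝ) + 1)) * 2 := by gcongr
      _ ≤ (2 / ε * ((i : ℝ) + 1)) * 2 := by gcongr
      _ = _ := by ring
  have c2 : F * (A⁻¹ * (((i : ℝ) + 1) ^ ε / ε)) ≤ 1 / ε * ((i : ℝ) + 1) := by
    have h2 : F ≤ A * ((i : ℝ) + 1) ^ (1 - ε) := by
      refine (FF_le_pow h0 h1).trans ?_
      apply mul_le_mul_of_nonneg_left _ hA0.le
      exact Real.rpow_le_rpow hx.le hxi (by linarith)
    have e : ((i : ℝ) + 1) ^ (1 - ε) * ((i : ℝ) + 1) ^ ε = (i : ℝ) + 1 := by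
      rw [← Real.rpow_add hi]
      simp
    calc F * (A⁻¹ * (((i : ℝ) + 1) ^ ε / ε))
        ≤ (A * ((i : ℝ) + 1) ^ (1 - ε)) * (A⁻¹ * (((i : ℝ) + 1) ^ ε / ε)) := by gcongr
      _ = (((i : ℝ) + 1) ^ (1 - ε) * ((i : ℝ) + 1) ^ ε) / ε := by field_simp
      _ = _ := by rw [e]; ring
  have c3 : F * (((i + 1 : ℕ) : ℝ) * (FF ε (MM ε N))⁻¹) ≤ 1 / ε * ((i : ℝ) + 1) := by
    have h2 : F ≤ FF ε (MM ε N) := FF_mono h0 h1 hx hxM
    have h3 : 1 ≤ 1 / ε := by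
      rw [le_div_iff₀ h0]
      linarith
    calc F * (((i + 1 : ℕ) : ℝ) * (FF ε (MM ε N))⁻¹)
        ≤ FF ε (MM ε N) * (((i + 1 : ℕ) : ℝ) * (FF ε (MM ε N))⁻¹) := by gcongr
      _ = 1 * ((i : ℝ) + 1) := by
          push_cast
          field_simp
      _ ≤ _ := by gcongr
  calc F * ∑ j ∈ range (i + 1), (ph ε N j ^ 2)⁻¹
      ≤ F * (2 + A⁻¹ * (((i : ℝ) + 1) ^ ε / ε) + ((i + 1 : ℕ) : ℝ) * (FF ε (MM ε N))⁻¹) := by
        apply mul_le_mul_of_nonneg_left _ hFx.le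
        refine hs.trans ?_
        have : A⁻¹ * ((min (((i + 1 : ℕ) : ℝ)) (MM ε N)) ^ ε / ε) ≤
            A⁻¹ * (((i : ℝ) + 1) ^ ε / ε) := by gcongr
        linarith
    _ = F * 2 + F * (A⁻¹ * (((i : ℝ) + 1) ^ ε / ε)) +
        F * (((i + 1 : ℕ) : ℝ) * (FF ε (MM ε N))⁻¹) := by ring
    _ ≤ 4 / ε * ((i : ℝ) + 1) + 1 / ε * ((i : ℝ) + 1) + 1 / ε * ((i : ℝ) + 1) := by linarith
    _ = 6 / ε * ((i : ℝ) + 1) := by ring

/-- second bound -/
lemma beta2 (N : ℕ) :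
    ph ε N N ^ 2 * ∑ j ∈ range (N + 1), (ph ε N j ^ 2)⁻¹ ≤ 6 / √ε * ((N : ℝ) + 1) := by
  have hm := mm_two h0 h1
  have hM := MM_two h0 h1 N
  have hx := xx_pos h0 h1 N N
  have hxi : xx ε N N ≤ (N : ℝ) + 1 := min_le_left _ _
  have hxM : xx ε N N ≤ MM ε N := min_le_right _ _
  have hF : 0 < FF ε (MM ε N) := FF_pos h0 h1 (by linarith)
  have hFx : 0 < FF ε (xx ε N N) := FF_pos h0 h1 hx
  have hs := sum_ph h0 h1 N (N + 1)
  have hi : (0 : ℝ) < (N : ℝ) + 1 := by positivity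
  have hsq : 0 < √ε := Real.sqrt_pos.2 h0
  rw [ph_sq h0 h1]
  set F := FF ε (xx ε N N) with hFd
  set A := mm ε ^ (1 + ε) with hA
  have hA0 : 0 < A := by positivity
  set X := ∑ j ∈ range (N + 1), (if mm ε < (j : ℝ) + 1 ∧ (j : ℝ) + 1 ≤ MM ε N then
        A⁻¹ * (1 + (j : ℝ)) ^ (-(1 - ε)) else 0) with hX
  have c1 : F * 2 ≤ 4 / √ε * ((N : ℝ) + 1) := by
    have h2 : F ≤ mm ε * ((N : ℝ) + 1) := (FF_le_mul h0 h1 hx).trans (by gcongr)
    calc F * 2 ≤ (mm ε * ((N : ℝ) + 1)) * 2 := by gcongr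
      _ = _ := by unfold mm; ring
  have c2 : F * X ≤ 1 / √ε * ((N : ℝ) + 1) := by
    rcases le_or_gt (√ε * ((N : ℝ) + 1)) (mm ε) with hc | hc
    · have hMe : MM ε N = mm ε := max_eq_left hc
      have hX0 : X = 0 := by
        rw [hX]
        apply sum_eq_zero
        intro j _
        rw [if_neg]
        rw [hMe]
        rintro ⟨h5, h6⟩
        linarith
      rw [hX0, mul_zero]
      positivity
    · have hMe : MM ε N = √ε * ((N : ℝ) + 1) := max_eq_right hc.le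
      have hmid := mid_sum h0 h1 (N + 1) (M := MM ε N) (by linarith)
      have h2 : F ≤ A * (MM ε N) ^ (1 - ε) := by
        refine (FF_le_pow h0 h1).trans ?_
        apply mul_le_mul_of_nonneg_left _ hA0.le
        exact Real.rpow_le_rpow hx.le hxM (by linarith)
      have h3 : X ≤ A⁻¹ * ((MM ε N) ^ ε / ε) := by
        refine hmid.trans ?_
        have : (min (((N + 1 : ℕ) : ℝ)) (MM ε N)) ^ ε ≤ (MM ε N) ^ ε :=
          Real.rpow_le_rpow (le_min (by positivity) (by linarith)) (min_le_right _ _) h0.le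
        gcongr
      have hM0 : 0 < MM ε N := by linarith
      have e : (MM ε N) ^ (1 - ε) * (MM ε N) ^ ε = MM ε N := by
        rw [← Real.rpow_add hM0]
        simp
      have hXnn : 0 ≤ X := by
        rw [hX]
        apply sum_nonneg
        intro j _
        split_ifs
        · positivity
        · exact le_rfl
      calc F * X ≤ (A * (MM ε N) ^ (1 - ε)) * (A⁻¹ * ((MM ε N) ^ ε / ε)) :=
            mul_le_mul h2 h3 hXnn (by positivity)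
        _ = ((MM ε N) ^ (1 - ε) * (MM ε N) ^ ε) / ε := by field_simp
        _ = (√ε * ((N : ℝ) + 1)) / (√ε * √ε) := by rw [e, hMe, Real.mul_self_sqrt h0.le]
        _ = 1 / √ε * ((N : ℝ) + 1) := by field_simp
  have c3 : F * (((N + 1 : ℕ) : ℝ) * (FF ε (MM ε N))⁻¹) ≤ 1 / √ε * ((N : ℝ) + 1) := by
    have h2 : F ≤ FF ε (MM ε N) := FF_mono h0 h1 hx hxM
    have h3 := one_le_inv_sqrt h0 h1
    calc F * (((N + 1 : ℕ) : ℝ) * (FF ε (MM ε N))⁻¹)
        ≤ FF ε (MM ε N) * (((N + 1 : ℕ) : ℝ) * (FF ε (MM ε N))⁻¹) := by gcongr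
      _ = 1 * ((N : ℝ) + 1) := by
          push_cast
          field_simp
      _ ≤ _ := by gcongr
  calc F * ∑ j ∈ range (N + 1), (ph ε N j ^ 2)⁻¹
      ≤ F * (2 + X + ((N + 1 : ℕ) : ℝ) * (FF ε (MM ε N))⁻¹) :=
        mul_le_mul_of_nonneg_left hs hFx.le
    _ = F * 2 + F * X + F * (((N + 1 : ℕ) : ℝ) * (FF ε (MM ε N))⁻¹) := by ring
    _ ≤ 4 / √ε * ((N : ℝ) + 1) + 1 / √ε * ((N : ℝ) + 1) + 1 / √ε * ((N : ℝ) + 1) := by linarith
    _ = 6 / √ε * ((N : ℝ) + 1) := by ring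

/-- the growth -/
lemma growth (n : ℕ) : (1 + (n : ℝ)) ^ (1 - ε) ≤ FF ε (xx ε n n) := by
  have hm := mm_two h0 h1
  have hM := MM_two h0 h1 n
  have hsq : 0 < √ε := Real.sqrt_pos.2 h0
  have hsq1 : √ε ≤ 1 := Real.sqrt_le_one.2 h1.le
  have hn : (1 : ℝ) ≤ (n : ℝ) + 1 := by
    have := Nat.cast_nonneg (α := ℝ) n
    linarith
  have hn0 : (0 : ℝ) < (n : ℝ) + 1 := by positivity
  have hA1 : 1 ≤ mm ε ^ (1 + ε) := Real.one_le_rpow (by linarith) (by linarith)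
  rw [add_comm (1 : ℝ) (n : ℝ)]
  rcases le_total ((n : ℝ) + 1) (MM ε n) with h | h
  · have ex : xx ε n n = (n : ℝ) + 1 := min_eq_left h
    rw [ex]
    unfold FF
    apply le_min
    · have : ((n : ℝ) + 1) ^ (1 - ε) ≤ ((n : ℝ) + 1) ^ (2 : ℝ) :=
        Real.rpow_le_rpow_of_exponent_le hn (by linarith)
      refine this.trans (le_of_eq ?_)
      rw [← Real.rpow_natCast]
      norm_num
    · exact le_mul_of_one_le_left (by positivity) hA1
  · have ex : xx ε n n = MM ε n := min_eq_right h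
    rw [ex]
    have hM0 : 0 < MM ε n := by linarith
    have hmM : mm ε ≤ MM ε n := le_max_left _ _
    have key : ((n : ℝ) + 1) ^ (1 - ε) ≤ mm ε ^ (1 + ε) * MM ε n ^ (1 - ε) := by
      have h2 : (√ε * ((n : ℝ) + 1)) ^ (1 - ε) ≤ MM ε n ^ (1 - ε) :=
        Real.rpow_le_rpow (by positivity) (le_max_right _ _) (by linarith)
      have h3 : mm ε ≤ mm ε ^ (1 + ε) := by
        calc mm ε = mm ε ^ (1 : ℝ) := (Real.rpow_one _).symm
          _ ≤ mm ε ^ (1 + ε) := Real.rpow_le_rpow_of_exponent_le (by linarith) (by linarith)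
      have h4 : √ε ≤ √ε ^ (1 - ε) := by
        calc √ε = √ε ^ (1 : ℝ) := (Real.rpow_one _).symm
          _ ≤ √ε ^ (1 - ε) := Real.rpow_le_rpow_of_exponent_ge hsq hsq1 (by linarith)
      have e : mm ε * √ε = 2 := by unfold mm; field_simp
      have hp : 0 ≤ ((n : ℝ) + 1) ^ (1 - ε) := by positivity
      calc ((n : ℝ) + 1) ^ (1 - ε) ≤ 2 * ((n : ℝ) + 1) ^ (1 - ε) := by linarith
        _ = mm ε * (√ε * ((n : ℝ) + 1) ^ (1 - ε)) := by rw [← e]; ring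
        _ ≤ mm ε ^ (1 + ε) * (√ε ^ (1 - ε) * ((n : ℝ) + 1) ^ (1 - ε)) := by gcongr
        _ = mm ε ^ (1 + ε) * (√ε * ((n : ℝ) + 1)) ^ (1 - ε) := by
            rw [Real.mul_rpow hsq.le hn0.le]
        _ ≤ mm ε ^ (1 + ε) * MM ε n ^ (1 - ε) := by gcongr
    unfold FF
    apply le_min
    · refine key.trans ?_
      have e1 : MM ε n ^ 2 = MM ε n ^ (1 + ε) * MM ε n ^ (1 - ε) := by
        rw [← Real.rpow_add hM0, ← Real.rpow_natCast]
        congr 1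
        push_cast
        ring
      rw [e1]
      have : mm ε ^ (1 + ε) ≤ MM ε n ^ (1 + ε) :=
        Real.rpow_le_rpow (by linarith) hmM (by linarith)
      gcongr
    · exact key

lemma ph_zero (N : ℕ) : ph ε N 0 = 1 := by
  have hm := mm_two h0 h1
  have hM := MM_two h0 h1 N
  have ex : xx ε N 0 = 1 := by
    unfold xx
    rw [min_eq_left (by push_cast; linarith)]
    simp
  have hA1 : 1 ≤ mm ε ^ (1 + ε) := Real.one_le_rpow (by linarith) (by linarith)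
  unfold ph
  rw [ex]
  unfold FF
  rw [min_eq_left (by simpa using hA1)]
  simp

end

universe u

/-- the examples -/
theorem example_exists {ε : ℝ} (h0 : 0 < ε) (h1 : ε < 1) :
    ∃ T : HS.{u} →L[ℂ] HS.{u}, spectrum ℂ T ⊆ Metric.closedBall 0 1 ∧
      (∀ z : ℂ, 1 < ‖z‖ → ‖z‖ ≤ 2 → ‖resolvent T z‖ ≤ (64 / √ε) / (‖z‖ - 1)) ∧
      ∀ n : ℕ, (1 + (n : ℝ)) ^ (1 - ε) ≤ ‖T ^ n‖ := by
  have hsq : 0 < √ε := Real.sqrt_pos.2 h0
  have hc : 24 + 4 * √(2 * (6 / ε)) + 4 * (6 / √ε) ≤ 64 / √ε := by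
    have e1 : √(2 * (6 / ε)) ≤ 4 / √ε := by
      have : 2 * (6 / ε) ≤ (4 / √ε) ^ 2 := by
        rw [div_pow, Real.sq_sqrt h0.le, ← mul_div_assoc]
        gcongr
        norm_num
      exact (Real.sqrt_le_sqrt this).trans (Real.sqrt_sq (by positivity)).le
    have e2 := one_le_inv_sqrt h0 h1
    have e3 : 64 / √ε = 64 * (1 / √ε) := by ring
    have e4 : 4 / √ε = 4 * (1 / √ε) := by ring
    have e5 : 6 / √ε = 6 * (1 / √ε) := by ring
    rw [e3, e5]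
    rw [e4] at e1
    linarith
  have hk : ∀ δ : ℝ, 0 < δ → δ ≤ 1 → ∀ N : ℕ, KB (fun i j : Fin (N + 1) => k1 δ i j *
      ((ph ε N i / ph ε N (N - i)) / (ph ε N j / ph ε N (N - j)))) (64 / √ε * δ⁻¹) := by
    intro δ hδ hδ1 N
    refine (kbW (N := N) (ph_pos h0 h1 N) (ph_mono h0 h1 N)
      (fun i j h => by exact_mod_cast ph_dbl h0 h1 N 2 (by norm_num) i j h)
      (fun i j h => by exact_mod_cast ph_dbl h0 h1 N 4 (by norm_num) i j h)
      (B := 6 / ε) (B2 := 6 / √ε) (by positivity)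
      (fun i _ => beta1 h0 h1 N i) (beta2 h0 h1 N) hδ hδ1).mono (fun i j => le_rfl) ?_
    exact mul_le_mul_of_nonneg_right hc (by positivity)
  obtain ⟨T, h2, h3, h4⟩ := exists_operatorg.{u} (W := fun N i => ph ε N i / ph ε N (N - i))
    (fun N i => div_pos (ph_pos h0 h1 N i) (ph_pos h0 h1 N (N - i))) (C := 64 / √ε)
    (by positivity) hk
  refine ⟨T, h2, h3, fun n => ?_⟩
  refine le_trans ?_ (h4 n)
  simp only [Nat.sub_self, Nat.sub_zero]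
  rw [ph_zero h0 h1, div_one, one_div, div_inv_eq_mul, ← sq, ph_sq h0 h1]
  exact growth h0 h1 n

end Pool.Agent.Helper57.KR
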